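import Mathlib

/-!
Definitions for MP_59f3ad_nt (Schneider's conjecture).

* `GK K` : absolute Galois group of a field `K` (with Mathlib's Krull topology).
* `cyc K p` : the `p`-adic cyclotomic character of `GK K`.
* `twist K p r g` : the unit `χ(g)^r`, the action of `g` on `ℤ_p(r)`.
* `Z1 K p r`, `B1 K p r` : continuous 1-cocycles and 1-coboundaries of `GK K` with values in
  `ℤ_p(r)`.
* `maxUnram L S` : the maximal extension `L_S` of the number field `L` inside its algebraic closure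
  unramified at every finite place outside `S`.
* `Z1S L p r S` : continuous cocycles of `GK L` vanishing on `Gal(Lbar/L_S)`; these are exactly the
  inflations of the continuous cocycles of `G_{L,S} = Gal(L_S/L)`.
* `H1S L p r S` : `H^1(G_{L,S}, ℤ_p(r))`.
* `LocTriv` : the restriction of a cocycle to the local Galois group at a place is a coboundary.
* `Sha1 L p r S` : the Tate-Shafarevich group, as a subgroup of `H1S L p r S`.
-/

open NumberField IsDedekindDomain

namespace Pool.Agent.Work.MP_59f3ad_nt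

universe u

/-- The absolute Galois group of a field `K`. -/
abbrev GK (K : Type u) [Field K] : Type u := AlgebraicClosure K ≃ₐ[K] AlgebraicClosure K

/-- The `p`-adic cyclotomic character of the absolute Galois group of `K`. -/
noncomputable def cyc (K : Type u) [Field K] (p : ℕ) [Fact p.Prime] : GK K →* ℤ_[p]ˣ :=
  (cyclotomicCharacter (AlgebraicClosure K) p).comp
    (MulSemiringAction.toRingAut (GK K) (AlgebraicClosure K))

/-- `χ(g)^r`, the scalar by which `g` acts on the Tate twist `ℤ_p(r)`. -/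
noncomputable def twist (K : Type u) [Field K] (p : ℕ) [Fact p.Prime] (r : ℤ) (g : GK K) : ℤ_[p] :=
  ((cyc K p g ^ r : ℤ_[p]ˣ) : ℤ_[p])

theorem twist_mul (K : Type u) [Field K] (p : ℕ) [Fact p.Prime] (r : ℤ) (g h : GK K) :
    twist K p r (g * h) = twist K p r g * twist K p r h := by
  simp [twist, map_mul, mul_zpow]

theorem twist_one (K : Type u) [Field K] (p : ℕ) [Fact p.Prime] (r : ℤ) :
    twist K p r 1 = 1 := by
  simp [twist]

/-- Continuous 1-cocycles of the absolute Galois group of `K` with values in `ℤ_p(r)`. -/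
noncomputable def Z1 (K : Type u) [Field K] (p : ℕ) [Fact p.Prime] (r : ℤ) :
    AddSubgroup (GK K → ℤ_[p]) where
  carrier := {φ | Continuous φ ∧ ∀ g h, φ (g * h) = φ g + twist K p r g * φ h}
  zero_mem' := ⟨continuous_const, by simp⟩
  add_mem' := by
    rintro φ ψ ⟨h1, h2⟩ ⟨h3, h4⟩
    refine ⟨h1.add h3, fun g h => ?_⟩
    simp only [Pi.add_apply, h2 g h, h4 g h]
    ring
  neg_mem' := by
    rintro φ ⟨h1, h2⟩
    refine ⟨h1.neg, fun g h => ?_⟩
    simp only [Pi.neg_apply, h2 g h]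
    ring

/-- 1-coboundaries `g ↦ (χ(g)^r - 1) c` with values in `ℤ_p(r)`. -/
noncomputable def B1 (K : Type u) [Field K] (p : ℕ) [Fact p.Prime] (r : ℤ) :
    AddSubgroup (GK K → ℤ_[p]) where
  carrier := {φ | ∃ c : ℤ_[p], ∀ g, φ g = (twist K p r g - 1) * c}
  zero_mem' := ⟨0, by simp⟩
  add_mem' := by
    rintro φ ψ ⟨c, hc⟩ ⟨d, hd⟩
    refine ⟨c + d, fun g => ?_⟩
    simp only [Pi.add_apply, hc g, hd g]
    ring
  neg_mem' := by
    rintro φ ⟨c, hc⟩
    refine ⟨-c, fun g => ?_⟩
    simp only [Pi.neg_apply, hc g]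
    ring

/-- A finite extension `F` of `L` (inside the algebraic closure) is unramified outside `S` if it is
unramified at every finite place of `L` not in `S`. -/
def UnramOutside (L : Type u) [Field L] [NumberField L] (S : Set (HeightOneSpectrum (𝓞 L)))
    (F : IntermediateField L (AlgebraicClosure L)) : Prop :=
  ∀ w : HeightOneSpectrum (𝓞 L), w ∉ S → Algebra.IsUnramifiedIn (𝓞 F) w.asIdeal

/-- `L_S`: the compositum of all finite extensions of `L` (inside the algebraic closure) which are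
unramified outside `S`. -/
noncomputable def maxUnram (L : Type u) [Field L] [NumberField L] (S : Set (HeightOneSpectrum (𝓞 L))) :
    IntermediateField L (AlgebraicClosure L) :=
  ⨆ F : {F : IntermediateField L (AlgebraicClosure L) //
    FiniteDimensional L F ∧ UnramOutside L S F}, F.1

/-- Continuous 1-cocycles of `G_{L,S} = Gal(L_S/L)` with values in `ℤ_p(r)`, viewed as the
continuous cocycles of the absolute Galois group which vanish on `Gal(Lbar/L_S)`. -/
noncomputable def Z1S (L : Type u) [Field L] [NumberField L] (p : ℕ) [Fact p.Prime] (r : ℤ)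
    (S : Set (HeightOneSpectrum (𝓞 L))) : AddSubgroup (GK L → ℤ_[p]) where
  carrier := {φ | φ ∈ Z1 L p r ∧ ∀ g ∈ (maxUnram L S).fixingSubgroup, φ g = 0}
  zero_mem' := ⟨zero_mem _, by simp⟩
  add_mem' := by
    rintro φ ψ ⟨h1, h2⟩ ⟨h3, h4⟩
    exact ⟨add_mem h1 h3, fun g hg => by simp [h2 g hg, h4 g hg]⟩
  neg_mem' := by
    rintro φ ⟨h1, h2⟩
    exact ⟨neg_mem h1, fun g hg => by simp [h2 g hg]⟩

/-- `H^1(G_{L,S}, ℤ_p(r))`. -/
abbrev H1S (L : Type u) [Field L] [NumberField L] (p : ℕ) [Fact p.Prime] (r : ℤ)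
    (S : Set (HeightOneSpectrum (𝓞 L))) : Type u :=
  Z1S L p r S ⧸ (B1 L p r).addSubgroupOf (Z1S L p r S)

/-- The class of the cocycle `φ` becomes trivial in `H^1(Kv, ℤ_p(r))`, where `Kv` is an extension
of `L` (a completion): for every `L`-embedding `ι` of the algebraic closure of `L` into the
algebraic closure of `Kv`, the composite of `φ` with the restriction map `Gal(Kv) → Gal(L)`
attached to `ι` (which sends `g` to the unique `h` with `ι ∘ h = g ∘ ι`) is a coboundary. -/
def LocTriv (L : Type u) [Field L] (p : ℕ) [Fact p.Prime] (r : ℤ)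
    (Kv : Type u) [Field Kv] [Algebra L Kv] (φ : GK L → ℤ_[p]) : Prop :=
  ∀ ι : AlgebraicClosure L →ₐ[L] AlgebraicClosure Kv, ∃ c : ℤ_[p],
    ∀ (g : GK Kv) (h : GK L), (∀ x, ι (h x) = g (ι x)) → φ h = (twist L p r h - 1) * c

/-- The cocycles of `G_{L,S}` whose class is locally trivial at every place of `S` and at every
archimedean place. -/
noncomputable def ShaZ (L : Type u) [Field L] [NumberField L] (p : ℕ) [Fact p.Prime] (r : ℤ)
    (S : Set (HeightOneSpectrum (𝓞 L))) : AddSubgroup (GK L → ℤ_[p]) where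
  carrier := {φ | φ ∈ Z1S L p r S ∧ (∀ v ∈ S, LocTriv L p r (v.adicCompletion L) φ) ∧
    ∀ v : InfinitePlace L, LocTriv L p r v.Completion φ}
  zero_mem' := ⟨zero_mem _, fun v _ ι => ⟨0, by simp⟩, fun v ι => ⟨0, by simp⟩⟩
  add_mem' := by
    rintro φ ψ ⟨h1, h2, h3⟩ ⟨h4, h5, h6⟩
    refine ⟨add_mem h1 h4, fun v hv ι => ?_, fun v ι => ?_⟩
    · obtain ⟨c, hc⟩ := h2 v hv ι
      obtain ⟨d, hd⟩ := h5 v hv ι
      refine ⟨c + d, fun g h hgh => ?_⟩
      simp only [Pi.add_apply, hc g h hgh, hd g h hgh]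
      ring
    · obtain ⟨c, hc⟩ := h3 v ι
      obtain ⟨d, hd⟩ := h6 v ι
      refine ⟨c + d, fun g h hgh => ?_⟩
      simp only [Pi.add_apply, hc g h hgh, hd g h hgh]
      ring
  neg_mem' := by
    rintro φ ⟨h1, h2, h3⟩
    refine ⟨neg_mem h1, fun v hv ι => ?_, fun v ι => ?_⟩
    · obtain ⟨c, hc⟩ := h2 v hv ι
      refine ⟨-c, fun g h hgh => ?_⟩
      simp only [Pi.neg_apply, hc g h hgh]
      ring
    · obtain ⟨c, hc⟩ := h3 v ι
      refine ⟨-c, fun g h hgh => ?_⟩
      simp only [Pi.neg_apply, hc g h hgh]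
      ring

/-- `Ш^1(O_{L,S}, ℤ_p(r))`: the kernel of `H^1(G_{L,S}, ℤ_p(r)) → ∏_v H^1(L_v, ℤ_p(r))`, the
product over the finite places in `S` and all archimedean places. -/
noncomputable def Sha1 (L : Type u) [Field L] [NumberField L] (p : ℕ) [Fact p.Prime] (r : ℤ)
    (S : Set (HeightOneSpectrum (𝓞 L))) : AddSubgroup (H1S L p r S) :=
  ((ShaZ L p r S).addSubgroupOf (Z1S L p r S)).map
    (QuotientAddGroup.mk' ((B1 L p r).addSubgroupOf (Z1S L p r S)))

/-- `Ш^1 = 0` as soon as every locally trivial cocycle is a coboundary. -/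
theorem Sha1_eq_bot_iff (L : Type u) [Field L] [NumberField L] (p : ℕ) [Fact p.Prime] (r : ℤ)
    (S : Set (HeightOneSpectrum (𝓞 L))) :
    Sha1 L p r S = ⊥ ↔ ∀ φ ∈ ShaZ L p r S, φ ∈ B1 L p r := by
  constructor
  · intro h φ hφ
    have h1 : (QuotientAddGroup.mk' ((B1 L p r).addSubgroupOf (Z1S L p r S))) ⟨φ, hφ.1⟩ ∈
        Sha1 L p r S := ⟨⟨φ, hφ.1⟩, hφ, rfl⟩
    rw [h, AddSubgroup.mem_bot] at h1
    have h2 := (QuotientAddGroup.eq_zero_iff _).mp h1
    exact h2
  · intro h
    rw [eq_bot_iff]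
    rintro _ ⟨φ, hφ, rfl⟩
    rw [AddSubgroup.mem_bot]
    exact (QuotientAddGroup.eq_zero_iff _).mpr (h φ.1 hφ)

end Pool.Agent.Work.MP_59f3ad_nt
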