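import Mathlib
import Pool.Agent.Work.MP_59f3ad_nt.Bd.B01

/-!
From `p-adic independence` to the strong form of Leopoldt's conjecture.
-/

open Polynomial Finset NumberField

namespace Pool.Agent.Work.MP_59f3ad_nt

universe u

/-- Strong (linear) form of the Leopoldt property with constant `c`: every unit of `K` congruent to
`1` modulo `p^(n+c)` is a `p^n`-th power of a unit. -/
def SLeo (K : Type u) [Field K] [NumberField K] (p c : ℕ) : Prop :=
  ∀ (n : ℕ) (u : (𝓞 K)ˣ), (p : 𝓞 K) ^ (n + c) ∣ (u : 𝓞 K) - 1 → ∃ w : (𝓞 K)ˣ, u = w ^ p ^ n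

section index

variable {K : Type u} [Field K] [NumberField K]

theorem exists_mul_mem_span (d : ℕ) (v : Fin d → 𝓞 K) (hv : LinearIndependent ℤ v)
    (hd : d = Module.finrank ℚ K) :
    ∃ ν : ℕ, ν ≠ 0 ∧ ∀ z : 𝓞 K, (ν : ℤ) • z ∈ Submodule.span ℤ (Set.range v) := by
  have h1 : Module.finrank ℤ (Submodule.span ℤ (Set.range v)) = Module.finrank ℤ (𝓞 K) := by
    rw [finrank_span_eq_card hv, Fintype.card_fin, hd, RingOfIntegers.rank]
  have h2 : Finite (𝓞 K ⧸ Submodule.span ℤ (Set.range v)) :=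
    Submodule.finiteQuotientOfFreeOfRankEq _ h1
  refine ⟨Nat.card (𝓞 K ⧸ Submodule.span ℤ (Set.range v)), Nat.card_pos.ne', fun z => ?_⟩
  rw [← Submodule.Quotient.mk_eq_zero, Submodule.Quotient.mk_smul]
  rw [natCast_zsmul]
  exact card_nsmul_eq_zero'

/-- Control of the coefficients of an element of `ℤ[x]` divisible by `p^k`. -/
theorem exists_index_const (p : ℕ) (hp : p.Prime) (d : ℕ) (x : 𝓞 K)
    (hv : LinearIndependent ℤ (fun i : Fin d => x ^ (i : ℕ)))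
    (hd : d = Module.finrank ℚ K) :
    ∃ c1 : ℕ, ∀ k, ∀ c : ℕ → ℤ, (p : 𝓞 K) ^ k ∣ ∑ i ∈ range d, (c i : 𝓞 K) * x ^ i →
      ∀ i < d, (p : ℤ) ^ (k - c1) ∣ c i := by
  obtain ⟨ν, hν0, hν⟩ := exists_mul_mem_span d _ hv hd
  obtain ⟨c1, ν', hν', hνeq⟩ := Nat.exists_eq_pow_mul_and_not_dvd hν0 p hp.ne_one
  refine ⟨c1, fun k c ⟨z, hz⟩ i hi => ?_⟩
  have h1 := hν z
  rw [Submodule.mem_span_range_iff_exists_fun] at h1
  obtain ⟨b, hb⟩ := h1
  have h2 : ∑ i : Fin d, ((ν : ℤ) * c i - (p : ℤ) ^ k * b i) • x ^ (i : ℕ) = 0 := by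
    have h3 : ∑ i : Fin d, ((ν : ℤ) * c i - (p : ℤ) ^ k * b i) • x ^ (i : ℕ) =
        (ν : 𝓞 K) * (∑ i ∈ range d, (c i : 𝓞 K) * x ^ i) -
          (p : 𝓞 K) ^ k * ∑ i : Fin d, b i • x ^ (i : ℕ) := by
      rw [← Fin.sum_univ_eq_sum_range (fun i => (c i : 𝓞 K) * x ^ i), Finset.mul_sum,
        Finset.mul_sum, ← Finset.sum_sub_distrib]
      refine Finset.sum_congr rfl fun j _ => ?_
      simp only [zsmul_eq_mul]
      push_cast
      ring
    rw [h3, hb, hz, zsmul_eq_mul]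
    push_cast
    ring
  have h4 := (Fintype.linearIndependent_iff.mp hv) _ h2 ⟨i, hi⟩
  simp only at h4
  have h5 : (p : ℤ) ^ k ∣ (ν : ℤ) * c i := ⟨b ⟨i, hi⟩, by linarith⟩
  rw [hνeq] at h5
  push_cast at h5
  rcases lt_or_ge k c1 with h | h
  · rw [Nat.sub_eq_zero_of_le h.le, pow_zero]; exact one_dvd _
  · have h6 : (p : ℤ) ^ k = (p : ℤ) ^ c1 * (p : ℤ) ^ (k - c1) := by
      rw [← pow_add]; congr 1; omega
    rw [h6, mul_assoc, mul_dvd_mul_iff_left (pow_ne_zero _ (by exact_mod_cast hp.ne_zero))] at h5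
    have hc : IsCoprime ((p : ℤ) ^ (k - c1)) (ν' : ℤ) := by
      refine IsCoprime.pow_left ?_
      rw [Nat.isCoprime_iff_coprime]
      exact (Nat.Prime.coprime_iff_not_dvd hp).mpr hν'
    exact hc.dvd_of_dvd_mul_left h5

end index

section rank

theorem exists_nsmul_mem_of_finrank_eq {A : Type*} [AddCommGroup A] [Module.Finite ℤ A]
    (N : Submodule ℤ A) (h : Module.finrank ℤ N = Module.finrank ℤ A) :
    ∃ M : ℕ, M ≠ 0 ∧ ∀ a : A, M • a ∈ N := by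
  have h1 : Module.finrank ℤ (A ⧸ N) = 0 := by
    have := N.finrank_quotient_add_finrank
    omega
  rw [Module.finrank_eq_zero_iff] at h1
  have h2 : Finite (A ⧸ N) := by
    refine Module.finite_of_fg_torsion _ ?_
    intro x
    obtain ⟨a, ha, hax⟩ := h1 x
    exact ⟨⟨a, mem_nonZeroDivisors_of_ne_zero ha⟩, hax⟩
  refine ⟨Nat.card (A ⧸ N), Nat.card_pos.ne', fun a => ?_⟩
  rw [← Submodule.Quotient.mk_eq_zero, Submodule.Quotient.mk_smul]
  exact card_nsmul_eq_zero'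

/-- If `card J = rank + 1` and the `u_j` are independent on the hyperplane `∑ E_j n_j = 0`, some
power of every element is a product of the `u_j` with exponents in the hyperplane. -/
theorem exists_pow_eq_prod {J : Type*} [Fintype J] {U : Type*} [CommGroup U]
    [Module.Finite ℤ (Additive U)] (u : J → U) (nn : J → ℤ) (hnn : ∃ j, nn j ≠ 0)
    (hrank : Fintype.card J = Module.finrank ℤ (Additive U) + 1)
    (hindep : ∀ E : J → ℤ, ∑ j, E j * nn j = 0 → ∏ j, u j ^ E j = 1 → ∀ j, E j = 0) :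
    ∃ M : ℕ, M ≠ 0 ∧ ∀ a : U, ∃ E : J → ℤ, ∑ j, E j * nn j = 0 ∧ a ^ M = ∏ j, u j ^ E j := by
  classical
  let f : (J → ℤ) →ₗ[ℤ] ℤ := ∑ j, (nn j) • LinearMap.proj j
  have hf : ∀ E, f E = ∑ j, E j * nn j := fun E => by
    simp only [f, LinearMap.coe_sum, Finset.sum_apply, LinearMap.smul_apply, LinearMap.proj_apply,
      smul_eq_mul]
    exact Finset.sum_congr rfl fun j _ => mul_comm _ _
  let Ψ : (J → ℤ) →ₗ[ℤ] Additive U :=
    ∑ j, (LinearMap.toSpanSingleton ℤ (Additive U) (Additive.ofMul (u j))).comp (LinearMap.proj j)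
  have hΨ : ∀ E, Ψ E = Additive.ofMul (∏ j, u j ^ E j) := fun E => by
    simp only [Ψ, LinearMap.coe_sum, Finset.sum_apply, LinearMap.coe_comp, Function.comp_apply,
      LinearMap.proj_apply, LinearMap.toSpanSingleton_apply, ofMul_prod, ofMul_zpow]
  have hfrange : Module.finrank ℤ (LinearMap.range f) = 1 := by
    have h1 : Module.finrank ℤ (LinearMap.range f) ≤ 1 := by
      have := Submodule.finrank_le (LinearMap.range f)
      simpa using this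
    have h2 : Module.finrank ℤ (LinearMap.range f) ≠ 0 := by
      intro h
      rw [Module.finrank_eq_zero_iff] at h
      obtain ⟨j, hj⟩ := hnn
      obtain ⟨a, ha, hax⟩ := h ⟨f (Pi.single j 1), LinearMap.mem_range_self _ _⟩
      have h3 : a * f (Pi.single j 1) = 0 := congrArg Subtype.val hax
      rw [hf] at h3
      simp [Pi.single_apply, ha, hj] at h3
    omega
  have hker : Module.finrank ℤ (LinearMap.ker f) = Module.finrank ℤ (Additive U) := by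
    have h1 := (LinearMap.ker f).finrank_quotient_add_finrank
    rw [f.quotKerEquivRange.finrank_eq, Module.finrank_fintype_fun_eq_card] at h1
    omega
  let g : LinearMap.ker f →ₗ[ℤ] Additive U := Ψ.domRestrict (LinearMap.ker f)
  have hginj : Function.Injective g := by
    rw [injective_iff_map_eq_zero]
    rintro ⟨E, hE⟩ h
    have h1 : Ψ E = 0 := h
    rw [hΨ, ofMul_eq_zero] at h1
    rw [LinearMap.mem_ker, hf] at hE
    exact Subtype.ext (funext (hindep E hE h1))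
  have hN : Module.finrank ℤ (LinearMap.range g) = Module.finrank ℤ (Additive U) := by
    rw [← hker]
    exact LinearMap.finrank_range_of_inj hginj
  obtain ⟨M, hM, h⟩ := exists_nsmul_mem_of_finrank_eq _ hN
  refine ⟨M, hM, fun a => ?_⟩
  obtain ⟨⟨E, hE⟩, hEa⟩ := h (Additive.ofMul a)
  rw [LinearMap.mem_ker, hf] at hE
  refine ⟨E, hE, ?_⟩
  have h1 : Ψ E = M • Additive.ofMul a := hEa
  rw [hΨ, ← ofMul_pow] at h1
  exact (Additive.ofMul.injective h1).symm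

end rank

section sleo

variable (K : Type u) [Field K] [NumberField K]

/-- Nontrivial roots of unity are bounded away from `1` `p`-adically. -/
theorem exists_torsion_sep (p : ℕ) (hp : p.Prime) :
    ∃ s : ℕ, ∀ ζ : (𝓞 K)ˣ, ζ ∈ Units.torsion K → (p : 𝓞 K) ^ s ∣ (ζ : 𝓞 K) - 1 → ζ = 1 := by
  have hpu : ¬ IsUnit (p : 𝓞 K) := by
    intro h
    have h1 := (Ideal.absNorm_eq_one_iff (I := Ideal.span {(p : 𝓞 K)})).mpr
      (Ideal.span_singleton_eq_top.mpr h)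
    rw [Ideal.absNorm_span_natCast] at h1
    have h2 : 0 < Module.finrank ℤ (𝓞 K) := Module.finrank_pos
    exact absurd ((Nat.pow_eq_one.mp h1).resolve_right h2.ne') hp.one_lt.ne'
  have hfin : ∀ ζ : Units.torsion K, ∃ s : ℕ, (ζ : (𝓞 K)ˣ) ≠ 1 →
      ¬ (p : 𝓞 K) ^ s ∣ ((ζ : (𝓞 K)ˣ) : 𝓞 K) - 1 := by
    intro ζ
    by_cases h : (ζ : (𝓞 K)ˣ) = 1
    · exact ⟨0, fun h' => absurd h h'⟩
    · have h1 : ((ζ : (𝓞 K)ˣ) : 𝓞 K) - 1 ≠ 0 := by
        rw [sub_ne_zero]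
        intro h2
        exact h (Units.ext h2)
      obtain ⟨n, hn⟩ := FiniteMultiplicity.of_not_isUnit hpu h1
      exact ⟨n + 1, fun _ => hn⟩
  choose s hs using hfin
  have := Fintype.ofFinite (Units.torsion K)
  refine ⟨∑ ζ : Units.torsion K, s ζ, fun ζ hζ hd => ?_⟩
  by_contra h
  refine hs ⟨ζ, hζ⟩ h ((pow_dvd_pow _ ?_).trans hd)
  exact Finset.single_le_sum (f := s) (fun _ _ => Nat.zero_le _) (Finset.mem_univ _)

/-- Some exponent kills all units modulo `p^s`. -/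
theorem exists_exponent_mod (p : ℕ) (hp : p.Prime) (s : ℕ) :
    ∃ T : ℕ, T ≠ 0 ∧ ∀ w : (𝓞 K)ˣ, (p : 𝓞 K) ^ s ∣ ((w ^ T : (𝓞 K)ˣ) : 𝓞 K) - 1 := by
  have hne : Ideal.span {(p : 𝓞 K) ^ s} ≠ ⊥ := by
    rw [Ne, Ideal.span_singleton_eq_bot]
    exact pow_ne_zero _ (by exact_mod_cast hp.ne_zero)
  have : Finite (𝓞 K ⧸ Ideal.span {(p : 𝓞 K) ^ s}) :=
    Ideal.finiteQuotientOfFreeOfNeBot _ hne
  refine ⟨Nat.card (𝓞 K ⧸ Ideal.span {(p : 𝓞 K) ^ s})ˣ, Nat.card_pos.ne', fun w => ?_⟩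
  have h1 : (Units.map (Ideal.Quotient.mk (Ideal.span {(p : 𝓞 K) ^ s}) : _ →* _) w) ^
      Nat.card (𝓞 K ⧸ Ideal.span {(p : 𝓞 K) ^ s})ˣ = 1 := pow_card_eq_one'
  rw [← map_pow] at h1
  have h2 := congrArg Units.val h1
  rw [← Ideal.mem_span_singleton, ← Ideal.Quotient.eq_zero_iff_mem, map_sub, map_one, sub_eq_zero]
  exact h2

theorem sleo_of_indep (p : ℕ) (hp : p.Prime) {J : Type*} [Fintype J] (u : J → (𝓞 K)ˣ)
    (nn : J → ℤ) (c2 : ℕ) (hnn : ∃ j, nn j ≠ 0)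
    (hrank : Fintype.card J = Units.rank K + 1)
    (hindep : ∀ (m : ℕ) (E : J → ℤ), ∑ j, E j * nn j = 0 →
      (p : 𝓞 K) ^ (m + c2) ∣ ((∏ j, u j ^ E j : (𝓞 K)ˣ) : 𝓞 K) - 1 → ∀ j, (p : ℤ) ^ m ∣ E j) :
    ∃ c, SLeo K p c := by
  have hindep0 : ∀ E : J → ℤ, ∑ j, E j * nn j = 0 → ∏ j, u j ^ E j = 1 → ∀ j, E j = 0 := by
    intro E hE h1 j
    by_contra hne
    have h2 := hindep (E j).natAbs E hE (by rw [h1]; simp) j
    have h3 := Int.natAbs_dvd_natAbs.mpr h2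
    rw [Int.natAbs_pow, Int.natAbs_natCast] at h3
    have h4 := Nat.le_of_dvd (Int.natAbs_pos.mpr hne) h3
    exact absurd h4 (not_le.mpr (Nat.lt_pow_self hp.one_lt))
  obtain ⟨M, hM0, hM⟩ := exists_pow_eq_prod u nn hnn (by rw [hrank, Units.finrank_eq]) hindep0
  obtain ⟨a, M', hM', hMeq⟩ := Nat.exists_eq_pow_mul_and_not_dvd hM0 p hp.ne_one
  obtain ⟨s, hs⟩ := exists_torsion_sep K p hp
  obtain ⟨T, hT0, hT⟩ := exists_exponent_mod K p hp s
  obtain ⟨b, T', hT', hTeq⟩ := Nat.exists_eq_pow_mul_and_not_dvd hT0 p hp.ne_one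
  refine ⟨a + b + s + c2, fun n u0 hu0 => ?_⟩
  set k := n + b + s with hk
  -- `u0^M` is a `p^(k+a)`-th power
  obtain ⟨E, hE, hEu⟩ := hM u0
  have h1 : ∀ j, (p : ℤ) ^ (k + a) ∣ E j := by
    refine hindep (k + a) E hE ?_
    rw [← hEu]
    have h2 : (p : 𝓞 K) ^ (k + a + c2) ∣ (u0 : 𝓞 K) - 1 := by
      refine (pow_dvd_pow _ ?_).trans hu0
      omega
    refine h2.trans ?_
    rw [Units.val_pow_eq_pow_val]
    exact sub_one_dvd_pow_sub_one _ _
  choose E' hE' using h1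
  set w : (𝓞 K)ˣ := ∏ j, u j ^ E' j with hw
  have h2 : u0 ^ M = w ^ p ^ (k + a) := by
    rw [hEu, hw, ← Finset.prod_pow]
    refine Finset.prod_congr rfl fun j _ => ?_
    rw [hE' j, ← zpow_natCast, ← zpow_mul]
    congr 1
    push_cast
    ring
  set ζ : (𝓞 K)ˣ := u0 ^ M' * (w ^ p ^ k)⁻¹ with hζ
  have h3 : ζ ^ p ^ a = 1 := by
    rw [hζ, mul_pow, inv_pow, ← pow_mul, ← pow_mul, mul_inv_eq_one, mul_comm M', ← hMeq, h2,
      ← pow_add]
  have hζt : ζ ∈ Units.torsion K := by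
    rw [Units.torsion, CommGroup.mem_torsion, isOfFinOrder_iff_pow_eq_one]
    exact ⟨p ^ a, pow_pos hp.pos _, h3⟩
  have h4 : ζ ^ T' = 1 := by
    refine hs _ (Subgroup.pow_mem _ hζt _) ?_
    -- both factors are `1 mod p^s`
    have h5 : (p : 𝓞 K) ^ s ∣ ((u0 ^ (M' * T') : (𝓞 K)ˣ) : 𝓞 K) - 1 := by
      rw [Units.val_pow_eq_pow_val]
      refine Dvd.dvd.trans ?_ (sub_one_dvd_pow_sub_one _ _)
      refine (pow_dvd_pow _ ?_).trans hu0
      omega
    have h6 : (p : 𝓞 K) ^ s ∣ ((w ^ (p ^ k * T') : (𝓞 K)ˣ) : 𝓞 K) - 1 := by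
      have h7 : w ^ (p ^ k * T') = (w ^ T) ^ p ^ (n + s) := by
        rw [← pow_mul, hTeq]
        congr 1
        rw [hk]
        ring
      rw [h7, Units.val_pow_eq_pow_val]
      exact (hT w).trans (sub_one_dvd_pow_sub_one _ _)
    have h8 : ζ ^ T' * w ^ (p ^ k * T') = u0 ^ (M' * T') := by
      rw [hζ, mul_pow, inv_pow, ← pow_mul, ← pow_mul, inv_mul_cancel_right]
    have h9 : (p : 𝓞 K) ^ s ∣ (((ζ ^ T' : (𝓞 K)ˣ) : 𝓞 K) - 1) *
        ((w ^ (p ^ k * T') : (𝓞 K)ˣ) : 𝓞 K) := by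
      have h10 : (((ζ ^ T' : (𝓞 K)ˣ) : 𝓞 K) - 1) * ((w ^ (p ^ k * T') : (𝓞 K)ˣ) : 𝓞 K) =
          (((u0 ^ (M' * T') : (𝓞 K)ˣ) : 𝓞 K) - 1) -
          (((w ^ (p ^ k * T') : (𝓞 K)ˣ) : 𝓞 K) - 1) := by
        rw [sub_mul, ← Units.val_mul, h8]
        ring
      rw [h10]
      exact dvd_sub h5 h6
    exact Units.dvd_mul_right.mp h9
  have h5 : ζ = 1 := by
    have hcop : Nat.Coprime (p ^ a) T' :=
      Nat.Coprime.pow_left _ ((Nat.Prime.coprime_iff_not_dvd hp).mpr hT')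
    have h6 : orderOf ζ ∣ 1 := by
      rw [← Nat.Coprime.gcd_eq_one hcop]
      exact Nat.dvd_gcd (orderOf_dvd_of_pow_eq_one h3) (orderOf_dvd_of_pow_eq_one h4)
    exact orderOf_eq_one_iff.mp (Nat.dvd_one.mp h6)
  have h6 : u0 ^ M' = w ^ p ^ k := by
    rw [hζ, mul_inv_eq_one] at h5
    exact h5
  -- Bezout
  have hcop : IsCoprime (M' : ℤ) ((p ^ k : ℕ) : ℤ) := by
    rw [Nat.isCoprime_iff_coprime]
    exact (Nat.Coprime.pow_left _ ((Nat.Prime.coprime_iff_not_dvd hp).mpr hM')).symm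
  obtain ⟨α, β, hαβ⟩ := hcop
  refine ⟨(w ^ α * u0 ^ β) ^ p ^ (b + s), ?_⟩
  have h7 : u0 = (w ^ α * u0 ^ β) ^ p ^ k := by
    calc u0 = u0 ^ (α * (M' : ℤ) + β * ((p ^ k : ℕ) : ℤ)) := by rw [hαβ, zpow_one]
      _ = (w ^ α * u0 ^ β) ^ p ^ k := by
        rw [zpow_add, mul_comm α, mul_comm β, zpow_mul, zpow_mul, zpow_natCast, zpow_natCast, h6,
          mul_pow, ← zpow_natCast (w ^ α), ← zpow_natCast (u0 ^ β), ← zpow_mul, ← zpow_mul,
          ← zpow_natCast w, ← zpow_natCast u0, ← zpow_mul, ← zpow_mul, mul_comm α, mul_comm β]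
  rw [← pow_mul, ← pow_add]
  have h8 : b + s + n = k := by omega
  rw [h8]
  exact h7

end sleo

end Pool.Agent.Work.MP_59f3ad_nt
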