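import Mathlib
import Pool.Agent.Work.MP_59f3ad_nt.Bd.B01
import Pool.Agent.Work.MP_59f3ad_nt.NF

/-!
The strong Leopoldt property implies the vanishing of the Tate-Shafarevich group of `ℤ_p(1)`.
-/

open NumberField IsDedekindDomain

namespace Pool.Agent.Work.MP_59f3ad_nt

universe u

/-- Compactness: a cocycle which is a coboundary modulo every `p^m` is a coboundary. -/
theorem exists_coboundary_of_forall_mod (G : Type*) (p : ℕ) [Fact p.Prime] (ψ χ : G → ℤ_[p])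
    (h : ∀ m : ℕ, ∃ x : ℤ_[p], ∀ g, (p : ℤ_[p]) ^ m ∣ ψ g - χ g * x) :
    ∃ x : ℤ_[p], ∀ g, ψ g = χ g * x := by
  let C : ℕ → Set ℤ_[p] := fun m => {x | ∀ g, (p : ℤ_[p]) ^ m ∣ ψ g - χ g * x}
  have hclosed1 : ∀ m : ℕ, IsClosed {a : ℤ_[p] | (p : ℤ_[p]) ^ m ∣ a} := by
    intro m
    have h1 : {a : ℤ_[p] | (p : ℤ_[p]) ^ m ∣ a} = {a : ℤ_[p] | ‖a‖ ≤ (p : ℝ) ^ (-m : ℤ)} := by
      ext a
      rw [Set.mem_setOf_eq, Set.mem_setOf_eq, PadicInt.norm_le_pow_iff_mem_span_pow,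
        Ideal.mem_span_singleton]
    rw [h1]
    exact isClosed_le continuous_norm continuous_const
  have hclosed : ∀ m, IsClosed (C m) := by
    intro m
    have h1 : C m = ⋂ g, (fun x => ψ g - χ g * x) ⁻¹' {a : ℤ_[p] | (p : ℤ_[p]) ^ m ∣ a} := by
      ext x
      simp [C]
    rw [h1]
    refine isClosed_iInter fun g => (hclosed1 m).preimage ?_
    exact continuous_const.sub (continuous_const.mul continuous_id)
  obtain ⟨x, hx⟩ := IsCompact.nonempty_iInter_of_sequence_nonempty_isCompact_isClosed C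
    (fun m x hx g => (pow_dvd_pow _ (Nat.le_succ m)).trans (hx g)) (fun m => h m)
    (hclosed 0).isCompact hclosed
  refine ⟨x, fun g => ?_⟩
  rw [Set.mem_iInter] at hx
  rw [← sub_eq_zero]
  by_contra hne
  have h1 : ∀ m : ℕ, ‖ψ g - χ g * x‖ ≤ (p : ℝ) ^ (-m : ℤ) := fun m =>
    (PadicInt.norm_le_pow_iff_mem_span_pow _ m).mpr (Ideal.mem_span_singleton.mpr (hx m g))
  have h2 : 0 < ‖ψ g - χ g * x‖ := norm_pos_iff.mpr hne
  obtain ⟨k, hk⟩ := PadicInt.exists_pow_neg_lt p h2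
  exact absurd (h1 k) (not_le.mpr hk)

variable (L : Type u) [Field L] [NumberField L] (p : ℕ) [Fact p.Prime]

theorem exists_prime_above : ∃ v : HeightOneSpectrum (𝓞 L), (p : 𝓞 L) ∈ v.asIdeal := by
  have hp : p.Prime := Fact.out
  have hpu : ¬ IsUnit (p : 𝓞 L) := by
    intro h
    have h1 := (Ideal.absNorm_eq_one_iff (I := Ideal.span {(p : 𝓞 L)})).mpr
      (Ideal.span_singleton_eq_top.mpr h)
    rw [Ideal.absNorm_span_natCast] at h1
    have h2 : 0 < Module.finrank ℤ (𝓞 L) := Module.finrank_pos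
    exact absurd ((Nat.pow_eq_one.mp h1).resolve_right h2.ne') hp.one_lt.ne'
  obtain ⟨M, hM, hle⟩ := exists_max_ideal_of_mem_nonunits hpu
  have hM0 : M ≠ ⊥ := by
    rintro rfl
    have h1 : (p : 𝓞 L) = 0 := hle
    exact hp.ne_zero (by exact_mod_cast h1)
  exact ⟨⟨M, hM.isPrime, hM0⟩, hle⟩

/-- Modulo `p^m`, a fixed multiple of a locally trivial cocycle is a coboundary. -/
theorem mod_coboundary (c : ℕ) (hS : SLeo L p c) (S : Set (HeightOneSpectrum (𝓞 L)))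
    (hSp : ∀ v : HeightOneSpectrum (𝓞 L), (p : 𝓞 L) ∈ v.asIdeal → v ∈ S) (T : ℕ)
    (hT : ∀ (n : ℕ) (u : (𝓞 L)ˣ),
      (∀ v : HeightOneSpectrum (𝓞 L), (p : 𝓞 L) ∈ v.asIdeal →
        ∃ η : v.adicCompletion L, η ^ (p ^ n) = algebraMap L (v.adicCompletion L) ((u : 𝓞 L) : L)) →
      (p : 𝓞 L) ^ (n + 1) ∣ (u : 𝓞 L) ^ T - 1)
    (φ : GK L → ℤ_[p]) (hφ : φ ∈ ShaZ L p 1 S) (m : ℕ) :
    ∃ x : ℤ_[p], ∀ g : GK L, (p : ℤ_[p]) ^ m ∣
      ((classNumber L * T : ℕ) : ℤ_[p]) * φ g - ((cyc L p g : ℤ_[p]) - 1) * x := by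
  have hp : p.Prime := Fact.out
  set n := m + c with hn
  obtain ⟨ζ, hζ⟩ := (hasRoots L p n).exists_primitiveRoot
  have hζ1 : ζ ^ p ^ n = 1 := hζ.pow_eq_one
  obtain ⟨β, α, hβ0, hβ, hα, hβS, hloc⟩ := kummer_data L p S φ hφ n ζ hζ
  have hpn : p ^ n ≠ 0 := pow_ne_zero _ hp.ne_zero
  have hα0 : α ≠ 0 := by
    rintro rfl
    rw [map_zero] at hα
    exact hβ0 (pow_eq_zero_iff hpn |>.mp hα.symm)
  -- all valuations of `α` are divisible by `p^n`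
  have hval : ∀ w : HeightOneSpectrum (𝓞 L), ∃ y : L,
      w.valuation L α = w.valuation L y ^ p ^ n := by
    intro w
    by_cases hw : w ∈ S
    · obtain ⟨η, hη⟩ := hloc w hw
      obtain ⟨y, hy⟩ := w.valuation_surjective L (Valued.v η)
      refine ⟨y, ?_⟩
      rw [hy, ← map_pow, hη]
      exact (w.valuedAdicCompletion_eq_valuation' α).symm
    · exact valuation_pow_of_mem_maxUnram L S w hw _ β hβS α hα0 hα
  obtain ⟨u, γ, hγ0, hu⟩ := exists_unit_mul_pow L (p ^ n) hpn α hα0 hval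
  generalize classNumber L = h at hu ⊢
  have huT : (p : 𝓞 L) ^ (n + 1) ∣ (u : 𝓞 L) ^ T - 1 := by
    refine hT n u fun v hv => ?_
    obtain ⟨η, hη⟩ := hloc v (hSp v hv)
    refine ⟨η ^ h / algebraMap L _ γ, ?_⟩
    have h1 : algebraMap L (v.adicCompletion L) γ ≠ 0 := by
      rw [Ne, map_eq_zero]
      exact hγ0
    rw [div_pow, ← pow_mul, mul_comm h, pow_mul, hη, ← map_pow, hu, map_mul, map_pow]
    field_simp
  obtain ⟨w, hw⟩ := hS m (u ^ T) (by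
    rw [Units.val_pow_eq_pow_val]
    exact (pow_dvd_pow _ (by omega)).trans huT)
  -- `α^(hT) = δ^(p^m)`
  set δ : L := ((w : 𝓞 L) : L) * γ ^ (T * p ^ c) with hδ
  have hαδ : α ^ (h * T) = δ ^ p ^ m := by
    have h1 : ((u : 𝓞 L) : L) ^ T = ((w : 𝓞 L) : L) ^ p ^ m := by
      have := congrArg (fun z : (𝓞 L)ˣ => ((z : 𝓞 L) : L)) hw
      simpa using this
    rw [pow_mul, hu, mul_pow, h1, hδ, mul_pow, ← pow_mul, ← pow_mul]
    congr 2
    rw [hn, pow_add]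
    ring
  set ζ' : AlgebraicClosure L := ζ ^ p ^ c with hζ'
  have hζ'prim : IsPrimitiveRoot ζ' (p ^ m) := by
    refine hζ.pow (Nat.pos_of_ne_zero hpn) ?_
    rw [hn, pow_add, mul_comm]
  set b : AlgebraicClosure L := β ^ (p ^ c * (h * T)) with hb
  set δ' : AlgebraicClosure L := algebraMap L (AlgebraicClosure L) δ with hδ'
  have hδ0 : δ ≠ 0 := by
    refine mul_ne_zero ?_ (pow_ne_zero _ hγ0)
    intro h0
    exact w.ne_zero (RingOfIntegers.ext h0)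
  have hδ'0 : δ' ≠ 0 := by
    rw [hδ', Ne, map_eq_zero]
    exact hδ0
  have hbδ : b ^ p ^ m = δ' ^ p ^ m := by
    have h1 := congrArg (algebraMap L (AlgebraicClosure L)) hαδ
    rw [map_pow, hα, map_pow] at h1
    rw [← h1, hb, ← pow_mul, ← pow_mul]
    congr 1
    rw [hn, pow_add]
    ring
  have hξ : (b / δ') ^ p ^ m = 1 := by
    rw [div_pow, hbδ, div_self (pow_ne_zero _ hδ'0)]
  have : NeZero (p ^ m) := ⟨pow_ne_zero _ hp.ne_zero⟩
  obtain ⟨i, hi, hξi⟩ := hζ'prim.eq_pow_of_pow_eq_one hξ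
  refine ⟨(i : ℤ_[p]), fun g => ?_⟩
  have hβ' : β ≠ 0 := hβ0
  have hb0 : b ≠ 0 := pow_ne_zero _ hβ0
  -- compute `g b / b` in two ways
  have e1 : g b = zpw p n ζ (((p ^ c * (h * T) : ℕ) : ℤ_[p]) * φ g) * b := by
    rw [hb, map_pow, hβ g, mul_pow, zpw_natCast_mul hζ1]
  have e2 : g b = zpw p n ζ ((cyc L p g : ℤ_[p]) * ((p ^ c * i : ℕ) : ℤ_[p])) * δ' := by
    have h1 : b = zpw p n ζ ((p ^ c * i : ℕ) : ℤ_[p]) * δ' := by
      rw [zpw_natCast hζ1, pow_mul, ← hζ', hξi, div_mul_cancel₀ _ hδ'0]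
    rw [h1, map_mul, zpw_galois L p n ζ hζ1, hδ', g.commutes]
  have e3 : b = zpw p n ζ ((p ^ c * i : ℕ) : ℤ_[p]) * δ' := by
    rw [zpw_natCast hζ1, pow_mul, ← hζ', hξi, div_mul_cancel₀ _ hδ'0]
  have e4 : zpw p n ζ (((p ^ c * (h * T) : ℕ) : ℤ_[p]) * φ g) *
      zpw p n ζ ((p ^ c * i : ℕ) : ℤ_[p]) =
      zpw p n ζ ((cyc L p g : ℤ_[p]) * ((p ^ c * i : ℕ) : ℤ_[p])) := by
    have h1 := e1.symm.trans e2
    nth_rewrite 1 [e3] at h1
    rw [← mul_assoc] at h1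
    exact mul_right_cancel₀ hδ'0 h1
  have e5 : zpw p n ζ ((p : ℤ_[p]) ^ c *
      (((h * T : ℕ) : ℤ_[p]) * φ g - ((cyc L p g : ℤ_[p]) - 1) * (i : ℤ_[p]))) = 1 := by
    have h1 : (p : ℤ_[p]) ^ c *
      (((h * T : ℕ) : ℤ_[p]) * φ g - ((cyc L p g : ℤ_[p]) - 1) * (i : ℤ_[p])) =
      (((p ^ c * (h * T) : ℕ) : ℤ_[p]) * φ g + ((p ^ c * i : ℕ) : ℤ_[p])) +
        -((cyc L p g : ℤ_[p]) * ((p ^ c * i : ℕ) : ℤ_[p])) := by
      push_cast
      ring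
    rw [h1, zpw_add hζ1, zpw_add hζ1, e4, zpw_neg hζ1,
      mul_inv_cancel₀ (zpw_ne_zero hζ1 _)]
  rw [zpw_eq_one_iff hζ, hn, pow_add, mul_comm ((p : ℤ_[p]) ^ m)] at e5
  exact (mul_dvd_mul_iff_left (pow_ne_zero _ (by exact_mod_cast hp.ne_zero))).mp e5

/-- **Leopoldt implies Schneider for `r = 1`.** -/
theorem sha_eq_bot_of_sleo (c : ℕ) (hS : SLeo L p c) (S : Set (HeightOneSpectrum (𝓞 L)))
    (hSp : ∀ v : HeightOneSpectrum (𝓞 L), (p : 𝓞 L) ∈ v.asIdeal → v ∈ S) :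
    Sha1 L p 1 S = ⊥ := by
  rw [Sha1_eq_bot_iff]
  intro φ hφ
  obtain ⟨T, hT0, hT⟩ := exists_local_exponent L p Fact.out
  obtain ⟨x, hx⟩ := exists_coboundary_of_forall_mod (GK L) p
    (fun g => ((classNumber L * T : ℕ) : ℤ_[p]) * φ g) (fun g => (cyc L p g : ℤ_[p]) - 1)
    (mod_coboundary L p c hS S hSp T hT φ hφ)
  obtain ⟨v, hv⟩ := exists_prime_above L p
  let ι : AlgebraicClosure L →ₐ[L] AlgebraicClosure (v.adicCompletion L) := IsAlgClosed.lift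
  obtain ⟨y, hy⟩ := hφ.2.1 v (hSp v hv) ι
  obtain ⟨g0, h0, hgh, hne⟩ := exists_cyc_ne_one L p v hv ι
  have h1 := hy g0 h0 hgh
  rw [twist_one_eq] at h1
  have hne' : (cyc L p h0 : ℤ_[p]) - 1 ≠ 0 := by
    rw [sub_ne_zero]
    intro h2
    exact hne (Units.ext h2)
  have h2 := hx h0
  have hM : ((classNumber L * T : ℕ) : ℤ_[p]) ≠ 0 := by
    exact_mod_cast mul_ne_zero (classNumber_ne_zero L) hT0
  have hxy : x = ((classNumber L * T : ℕ) : ℤ_[p]) * y := by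
    apply mul_left_cancel₀ hne'
    rw [← h2, h1]
    ring
  refine ⟨y, fun g => ?_⟩
  rw [twist_one_eq]
  apply mul_left_cancel₀ hM
  have h3 := hx g
  rw [h3, hxy]
  ring

end Pool.Agent.Work.MP_59f3ad_nt
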