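import Mathlib

/-!
Evaluation of the parameter of a family of polynomials at a complex number, Taylor series.
-/

open Polynomial

namespace Pool.Agent.Work.MP_59f3ad_nt

/-- Evaluation of the parameter at a complex number. -/
noncomputable def evT (z : ℂ) : ℤ[X] →+* ℂ := eval₂RingHom (Int.castRingHom ℂ) z

theorem evT_C (z : ℂ) (n : ℤ) : evT z (C n) = n := by simp [evT]

theorem evT_X (z : ℂ) : evT z X = z := by simp [evT]

theorem evT_intCast (t : ℤ) (f : ℤ[X]) : evT (t : ℂ) f = ((f.eval t : ℤ) : ℂ) := by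
  show eval₂ (Int.castRingHom ℂ) ((Int.castRingHom ℂ) t) f = _
  rw [eval₂_at_apply]
  rfl

/-- The Taylor series at `0`. -/
noncomputable def Tay (f : ℝ → ℂ) : PowerSeries ℂ :=
  PowerSeries.mk fun k => iteratedDeriv k f 0 / (k.factorial : ℂ)

end Pool.Agent.Work.MP_59f3ad_nt
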