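import Mathlib
import Pool.Agent.Work.MP_59f3ad_nt.EvT

/-!
Evaluation of the parameter of a family of complex polynomials at a complex number.
-/

open Polynomial

namespace Pool.Agent.Work.MP_59f3ad_nt

/-- Evaluation of the parameter at a complex number. -/
noncomputable def evC (z : ℂ) : ℂ[X] →+* ℂ := evalRingHom z

theorem evC_C (z : ℂ) (n : ℂ) : evC z (C n) = n := by simp [evC]

theorem evC_X (z : ℂ) : evC z X = z := by simp [evC]

theorem evC_apply (z : ℂ) (f : ℂ[X]) : evC z f = f.eval z := rfl

end Pool.Agent.Work.MP_59f3ad_nt
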