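import Mathlib

/-!
The polynomials `∏ (X - Q a_i) ∏ ((X - Q b_k)^2 + 2 Q^2) - 1` are irreducible.
-/

open Polynomial Finset

namespace Pool.Agent.Work.MP_59f3ad_nt

variable {r1 r2 : ℕ}

/-- `∏ (X - Q a_i) ∏ ((X - Q b_k)^2 + 2 Q^2)`. -/
noncomputable def famG (a : Fin r1 → ℤ) (b : Fin r2 → ℤ) (Q : ℤ) : ℤ[X] :=
  (∏ i, (X - C (Q * a i))) * ∏ k, ((X - C (Q * b k)) ^ 2 + C (2 * Q ^ 2))

/-- `∏ (X - Q a_i) ∏ ((X - Q b_k)^2 + 2 Q^2) - 1`. -/
noncomputable def famF (a : Fin r1 → ℤ) (b : Fin r2 → ℤ) (Q : ℤ) : ℤ[X] :=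
  famG a b Q - 1

theorem quad_monic (m c : ℤ) : ((X - C m) ^ 2 + C c : ℤ[X]).Monic := by
  monicity!

theorem quad_natDegree (m c : ℤ) : ((X - C m) ^ 2 + C c : ℤ[X]).natDegree = 2 := by
  compute_degree!

theorem famG_monic (a : Fin r1 → ℤ) (b : Fin r2 → ℤ) (Q : ℤ) : (famG a b Q).Monic :=
  (monic_prod_of_monic _ _ fun _ _ => monic_X_sub_C _).mul
    (monic_prod_of_monic _ _ fun _ _ => quad_monic _ _)

theorem famG_natDegree (a : Fin r1 → ℤ) (b : Fin r2 → ℤ) (Q : ℤ) :
    (famG a b Q).natDegree = r1 + 2 * r2 := by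
  rw [famG, (monic_prod_of_monic _ _ fun i _ => monic_X_sub_C _).natDegree_mul
    (monic_prod_of_monic _ _ fun k _ => quad_monic _ _),
    natDegree_prod_of_monic _ _ fun i _ => monic_X_sub_C _,
    natDegree_prod_of_monic _ _ fun k _ => quad_monic _ _]
  simp only [natDegree_X_sub_C, quad_natDegree]
  simp
  ring

theorem famF_natDegree (a : Fin r1 → ℤ) (b : Fin r2 → ℤ) (Q : ℤ) (hd : 1 ≤ r1 + 2 * r2) :
    (famF a b Q).natDegree = r1 + 2 * r2 := by
  rw [famF, ← C_1, natDegree_sub_C, famG_natDegree]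

theorem famF_monic (a : Fin r1 → ℤ) (b : Fin r2 → ℤ) (Q : ℤ) (hd : 1 ≤ r1 + 2 * r2) :
    (famF a b Q).Monic := by
  rw [famF]
  refine (famG_monic a b Q).sub_of_left ?_
  rw [degree_eq_natDegree (famG_monic a b Q).ne_zero, famG_natDegree, degree_one]
  exact_mod_cast hd

/-- The centers, as elements of `ℤ[√-2]`. -/
def zcen (a : Fin r1 → ℤ) (b : Fin r2 → ℤ) (Q : ℤ) : Fin r1 ⊕ (Fin r2 × Bool) → ℤ√(-2) :=
  Sum.elim (fun i => ⟨Q * a i, 0⟩) (fun ks => ⟨Q * b ks.1, if ks.2 then Q else -Q⟩)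

theorem sqrt_neg_two_sq :
    (Complex.I * (Real.sqrt 2 : ℝ)) * (Complex.I * (Real.sqrt 2 : ℝ)) = ((-2 : ℤ) : ℂ) := by
  have h1 : ((Real.sqrt 2 : ℝ) : ℂ) * ((Real.sqrt 2 : ℝ) : ℂ) = 2 := by
    rw [← Complex.ofReal_mul, Real.mul_self_sqrt (by norm_num)]; norm_num
  calc (Complex.I * (Real.sqrt 2 : ℝ)) * (Complex.I * (Real.sqrt 2 : ℝ))
      = (Complex.I * Complex.I) * (((Real.sqrt 2 : ℝ) : ℂ) * ((Real.sqrt 2 : ℝ) : ℂ)) := by ring
    _ = ((-2 : ℤ) : ℂ) := by rw [Complex.I_mul_I, h1]; norm_num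

/-- The embedding `ℤ[√-2] → ℂ`. -/
noncomputable def phi : ℤ√(-2) →+* ℂ := Zsqrtd.lift ⟨Complex.I * (Real.sqrt 2 : ℝ), sqrt_neg_two_sq⟩

theorem phi_apply (z : ℤ√(-2)) :
    phi z = (z.re : ℂ) + (z.im : ℂ) * (Complex.I * (Real.sqrt 2 : ℝ)) := by
  simp [phi, Zsqrtd.lift]

theorem phi_injective : Function.Injective phi := by
  refine Zsqrtd.lift_injective _ ?_
  intro n h
  nlinarith [mul_self_nonneg n]

/-- The centers in `ℂ`. -/
noncomputable def cen (a : Fin r1 → ℤ) (b : Fin r2 → ℤ) (Q : ℤ)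
    (c : Fin r1 ⊕ (Fin r2 × Bool)) : ℂ := phi (zcen a b Q c)

theorem zcen_injective (a : Fin r1 → ℤ) (b : Fin r2 → ℤ) (Q : ℤ) (hQ : Q ≠ 0)
    (ha : Function.Injective a) (hb : Function.Injective b) :
    Function.Injective (zcen a b Q) := by
  rintro (i | ⟨k, s⟩) (j | ⟨l, t⟩) h
  · have h1 : Q * a i = Q * a j := congrArg Zsqrtd.re h
    rw [ha (mul_left_cancel₀ hQ h1)]
  · have h1 : 0 = (if t then Q else -Q) := congrArg Zsqrtd.im h
    split_ifs at h1 <;> omega
  · have h1 : (if s then Q else -Q) = 0 := congrArg Zsqrtd.im h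
    split_ifs at h1 <;> omega
  · have h1 : Q * b k = Q * b l := congrArg Zsqrtd.re h
    have h2 : (if s then Q else -Q) = (if t then Q else -Q) := congrArg Zsqrtd.im h
    rw [hb (mul_left_cancel₀ hQ h1)]
    cases s <;> cases t
    · rfl
    · exfalso
      have h3 : -Q = Q := by simpa using h2
      omega
    · exfalso
      have h3 : Q = -Q := by simpa using h2
      omega
    · rfl

theorem aeval_zcen_famG (a : Fin r1 → ℤ) (b : Fin r2 → ℤ) (Q : ℤ)
    (c : Fin r1 ⊕ (Fin r2 × Bool)) : aeval (zcen a b Q c) (famG a b Q) = 0 := by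
  rw [famG, map_mul, map_prod, map_prod]
  rcases c with i | ⟨k, s⟩
  · refine mul_eq_zero_of_left (Finset.prod_eq_zero (Finset.mem_univ i) ?_) _
    rw [map_sub, aeval_X, aeval_C]
    ext <;> simp [zcen]
  · refine mul_eq_zero_of_right _ (Finset.prod_eq_zero (Finset.mem_univ k) ?_)
    rw [map_add, map_pow, map_sub, aeval_X, aeval_C, aeval_C]
    cases s
    · ext <;> simp [zcen, pow_two]
      ring
    · ext <;> simp [zcen, pow_two]
      ring

theorem norm_one_zsqrtd (z : ℤ√(-2)) (h : z.norm = 1) : z = 1 ∨ z = -1 := by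
  have h1 : z.re * z.re + 2 * (z.im * z.im) = 1 := by
    rw [Zsqrtd.norm_def] at h
    linarith
  have h2 : z.im = 0 := by
    have h3 : z.im * z.im ≤ 0 := by nlinarith [mul_self_nonneg z.re, mul_self_nonneg z.im]
    have h4 := le_antisymm h3 (mul_self_nonneg _)
    exact mul_self_eq_zero.mp h4
  rw [h2] at h1
  have h3 : z.re * z.re = 1 := by linarith
  rcases mul_self_eq_one_iff.mp h3 with h4 | h4
  · left; ext <;> simp [h2, h4]
  · right; ext <;> simp [h2, h4]

theorem mul_eq_neg_one_zsqrtd (z w : ℤ√(-2)) (h : z * w = -1) : z + w = 0 := by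
  have h1 : z.norm * w.norm = 1 := by
    rw [← Zsqrtd.norm_mul, h]; simp [Zsqrtd.norm_def]
  have h2 : 0 ≤ z.norm := Zsqrtd.norm_nonneg (by norm_num) z
  have h3 : z.norm = 1 := by
    have := Int.eq_one_or_neg_one_of_mul_eq_one h1
    omega
  rcases norm_one_zsqrtd z h3 with h4 | h4
  · rw [h4] at h ⊢
    rw [one_mul] at h
    rw [h]; ring
  · rw [h4] at h ⊢
    have : w = 1 := by
      have := congrArg Neg.neg h
      simpa using this
    rw [this]; ring

theorem famF_irreducible (a : Fin r1 → ℤ) (b : Fin r2 → ℤ) (Q : ℤ) (hQ : Q ≠ 0)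
    (ha : Function.Injective a) (hb : Function.Injective b) (hd : 1 ≤ r1 + 2 * r2) :
    Irreducible (famF a b Q) := by
  have hdeg := famF_natDegree a b Q hd
  rw [(famF_monic a b Q hd).irreducible_iff_natDegree]
  refine ⟨fun h => ?_, fun g h hg hh hgh => ?_⟩
  · rw [h, natDegree_one] at hdeg
    omega
  · by_contra! hne
    have hsum : g.natDegree + h.natDegree = r1 + 2 * r2 := by
      rw [← hg.natDegree_mul hh, hgh, hdeg]
    have hroot : ∀ c, aeval (zcen a b Q c) (g + h) = 0 := by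
      intro c
      rw [map_add]
      refine mul_eq_neg_one_zsqrtd _ _ ?_
      rw [← map_mul, hgh, famF, map_sub, aeval_zcen_famG, map_one, zero_sub]
    have hne0 : g + h ≠ 0 := by
      intro h0
      rcases lt_trichotomy g.natDegree h.natDegree with h1 | h1 | h1
      · have := congrArg (fun q => coeff q h.natDegree) h0
        simp only [coeff_add, coeff_zero] at this
        rw [coeff_eq_zero_of_natDegree_lt h1, coeff_natDegree, hh.leadingCoeff] at this
        norm_num at this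
      · have := congrArg (fun q => coeff q g.natDegree) h0
        simp only [coeff_add, coeff_zero] at this
        rw [coeff_natDegree, hg.leadingCoeff, h1, coeff_natDegree, hh.leadingCoeff] at this
        norm_num at this
      · have := congrArg (fun q => coeff q g.natDegree) h0
        simp only [coeff_add, coeff_zero] at this
        rw [coeff_eq_zero_of_natDegree_lt h1, coeff_natDegree, hg.leadingCoeff] at this
        norm_num at this
    have hinj : Function.Injective (cen a b Q) := fun c c' h =>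
      zcen_injective a b Q hQ ha hb (phi_injective h)
    have hmap : ((g + h).map (algebraMap ℤ ℂ)) ≠ 0 := by
      rwa [Ne, Polynomial.map_eq_zero_iff (algebraMap ℤ ℂ).injective_int]
    have hsub : (Finset.univ.image (cen a b Q)) ⊆ ((g + h).map (algebraMap ℤ ℂ)).roots.toFinset := by
      intro z hz
      obtain ⟨c, _, rfl⟩ := Finset.mem_image.mp hz
      rw [Multiset.mem_toFinset, mem_roots hmap, IsRoot.def, eval_map_algebraMap]
      have h1 := congrArg phi (hroot c)
      rw [map_zero] at h1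
      rw [← h1]
      exact (aeval_algHom_apply phi.toIntAlgHom _ _)
    have hcard := Finset.card_le_card hsub
    rw [Finset.card_image_of_injective _ hinj, Finset.card_univ, Fintype.card_sum,
      Fintype.card_prod, Fintype.card_fin, Fintype.card_fin, Fintype.card_bool] at hcard
    have h2 := (Multiset.toFinset_card_le ((g + h).map (algebraMap ℤ ℂ)).roots).trans
      (card_roots' _)
    have h3 : ((g + h).map (algebraMap ℤ ℂ)).natDegree ≤ (g + h).natDegree := natDegree_map_le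
    have h4 : (g + h).natDegree ≤ max g.natDegree h.natDegree := natDegree_add_le _ _
    have h5 : max g.natDegree h.natDegree < r1 + 2 * r2 := by
      rw [max_lt_iff]
      omega
    omega

end Pool.Agent.Work.MP_59f3ad_nt
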