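import Mathlib
import Pool.Agent.Work.MP_59f3ad_nt.Irred

/-!
Signature of the fields generated by the roots of `famF a b Q`.
-/

open Polynomial Finset NumberField

namespace Pool.Agent.Work.MP_59f3ad_nt

variable {r1 r2 : ℕ}

/-- The complex conjugation on the index set of the centers. -/
def cconj (c : Fin r1 ⊕ (Fin r2 × Bool)) : Fin r1 ⊕ (Fin r2 × Bool) :=
  Sum.map id (fun ks => (ks.1, !ks.2)) c

theorem cen_inl (a : Fin r1 → ℤ) (b : Fin r2 → ℤ) (Q : ℤ) (i : Fin r1) :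
    cen a b Q (Sum.inl i) = ((Q * a i : ℤ) : ℂ) := by
  simp [cen, zcen, phi_apply]

theorem cen_inr_true (a : Fin r1 → ℤ) (b : Fin r2 → ℤ) (Q : ℤ) (k : Fin r2) :
    cen a b Q (Sum.inr (k, true)) =
      ((Q * b k : ℤ) : ℂ) + (Q : ℂ) * (Complex.I * (Real.sqrt 2 : ℝ)) := by
  simp [cen, zcen, phi_apply]

theorem cen_inr_false (a : Fin r1 → ℤ) (b : Fin r2 → ℤ) (Q : ℤ) (k : Fin r2) :
    cen a b Q (Sum.inr (k, false)) =
      ((Q * b k : ℤ) : ℂ) - (Q : ℂ) * (Complex.I * (Real.sqrt 2 : ℝ)) := by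
  simp [cen, zcen, phi_apply]
  ring

theorem cen_cconj (a : Fin r1 → ℤ) (b : Fin r2 → ℤ) (Q : ℤ) (c : Fin r1 ⊕ (Fin r2 × Bool)) :
    cen a b Q (cconj c) = (starRingEnd ℂ) (cen a b Q c) := by
  rcases c with i | ⟨k, s⟩
  · rw [cconj, Sum.map_inl, cen_inl]
    simp [cen_inl]
  · cases s
    · rw [cconj, Sum.map_inr, Bool.not_false, cen_inr_true, cen_inr_false]
      simp [Complex.conj_ofReal]
    · rw [cconj, Sum.map_inr, Bool.not_true, cen_inr_true, cen_inr_false]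
      simp [Complex.conj_ofReal]
      ring

theorem cen_dist (a : Fin r1 → ℤ) (b : Fin r2 → ℤ) (Q : ℤ) (hQ : 4 ≤ |Q|)
    (ha : Function.Injective a) (hb : Function.Injective b)
    (c c' : Fin r1 ⊕ (Fin r2 × Bool)) (h : c ≠ c') : 4 ≤ ‖cen a b Q c - cen a b Q c'‖ := by
  have hQ0 : Q ≠ 0 := by rintro rfl; simp at hQ
  have hsqrt : (1 : ℝ) ≤ Real.sqrt 2 := by
    rw [Real.one_le_sqrt]; norm_num
  have hQR : (4 : ℝ) ≤ |(Q : ℝ)| := by exact_mod_cast hQ
  -- general bound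
  have key : ∀ m n : ℤ, (m ≠ 0 ∨ n ≠ 0) →
      (4 : ℝ) ≤ ‖((Q * m : ℤ) : ℂ) + ((Q * n : ℤ) : ℂ) * (Complex.I * (Real.sqrt 2 : ℝ))‖ := by
    intro m n hmn
    rcases hmn with hm | hn
    · refine le_trans ?_ (Complex.abs_re_le_norm _)
      have h1 : (((Q * m : ℤ) : ℂ) + ((Q * n : ℤ) : ℂ) * (Complex.I * (Real.sqrt 2 : ℝ))).re =
          (Q : ℝ) * m := by simp
      rw [h1, abs_mul]
      have h2 : (1 : ℝ) ≤ |(m : ℝ)| := by exact_mod_cast Int.one_le_abs hm
      nlinarith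
    · refine le_trans ?_ (Complex.abs_im_le_norm _)
      have h1 : (((Q * m : ℤ) : ℂ) + ((Q * n : ℤ) : ℂ) * (Complex.I * (Real.sqrt 2 : ℝ))).im =
          (Q : ℝ) * n * Real.sqrt 2 := by simp
      rw [h1, abs_mul, abs_mul, abs_of_nonneg (Real.sqrt_nonneg 2)]
      have h2 : (1 : ℝ) ≤ |(n : ℝ)| := by exact_mod_cast Int.one_le_abs hn
      have h3 : (4 : ℝ) ≤ |(Q : ℝ)| * |(n : ℝ)| := by nlinarith
      nlinarith
  have hsub : cen a b Q c - cen a b Q c' = phi (zcen a b Q c - zcen a b Q c') := by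
    rw [map_sub]; rfl
  have hne : zcen a b Q c - zcen a b Q c' ≠ 0 := by
    rw [sub_ne_zero]
    exact fun h' => h (zcen_injective a b Q hQ0 ha hb h')
  rw [hsub, phi_apply]
  obtain ⟨m, hm⟩ : Q ∣ (zcen a b Q c - zcen a b Q c').re := by
    rcases c with i | ⟨k, s⟩ <;> rcases c' with j | ⟨l, t⟩ <;>
      simp [zcen, ← mul_sub]
  have hdvdim : ∀ c : Fin r1 ⊕ (Fin r2 × Bool), Q ∣ (zcen a b Q c).im := by
    intro c
    rcases c with i | ⟨k, s⟩
    · exact dvd_zero _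
    · cases s
      · exact (dvd_neg.mpr dvd_rfl : Q ∣ -Q)
      · exact (dvd_rfl : Q ∣ Q)
  obtain ⟨n, hn⟩ : Q ∣ (zcen a b Q c - zcen a b Q c').im := by
    rw [Zsqrtd.im_sub]
    exact dvd_sub (hdvdim c) (hdvdim c')
  rw [hm, hn]
  refine key m n ?_
  by_contra hcon
  push Not at hcon
  apply hne
  ext
  · rw [hm, hcon.1]; simp
  · rw [hn, hcon.2]; simp

theorem quad_eq (a : Fin r1 → ℤ) (b : Fin r2 → ℤ) (Q : ℤ) (k : Fin r2) (z : ℂ) :
    (z - ((Q * b k : ℤ) : ℂ)) ^ 2 + ((2 * Q ^ 2 : ℤ) : ℂ) =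
      (z - cen a b Q (Sum.inr (k, true))) * (z - cen a b Q (Sum.inr (k, false))) := by
  have h : (Complex.I * (Real.sqrt 2 : ℝ)) * (Complex.I * (Real.sqrt 2 : ℝ)) = (-2 : ℂ) := by
    rw [sqrt_neg_two_sq]; norm_num
  rw [cen_inr_true, cen_inr_false]
  push_cast
  linear_combination ((Q : ℂ) ^ 2) * h

theorem aeval_famG_eq (a : Fin r1 → ℤ) (b : Fin r2 → ℤ) (Q : ℤ) (z : ℂ) :
    aeval z (famG a b Q) = ∏ c, (z - cen a b Q c) := by
  rw [famG, map_mul, map_prod, map_prod, Fintype.prod_sum_type, Fintype.prod_prod_type]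
  congr 1
  · refine Finset.prod_congr rfl fun i _ => ?_
    rw [map_sub, aeval_X, aeval_C, cen_inl]
    rfl
  · refine Finset.prod_congr rfl fun k _ => ?_
    rw [Fintype.prod_bool, ← quad_eq, map_add, map_pow, map_sub, aeval_X, aeval_C, aeval_C]
    rfl

theorem exists_near (a : Fin r1 → ℤ) (b : Fin r2 → ℤ) (Q : ℤ) (hd : 1 ≤ r1 + 2 * r2) (z : ℂ)
    (hz : aeval z (famF a b Q) = 0) : ∃ c, ‖z - cen a b Q c‖ ≤ 1 := by
  rw [famF, map_sub, map_one, aeval_famG_eq, sub_eq_zero] at hz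
  by_contra! hcon
  have hne : Nonempty (Fin r1 ⊕ (Fin r2 × Bool)) := by
    rcases Nat.eq_zero_or_pos r1 with h | h
    · exact ⟨Sum.inr (⟨0, by omega⟩, true)⟩
    · exact ⟨Sum.inl ⟨0, h⟩⟩
  have h1 : (1 : ℝ) < ∏ c, ‖z - cen a b Q c‖ := by
    have := Finset.prod_lt_prod_of_nonempty (s := (Finset.univ : Finset (Fin r1 ⊕ (Fin r2 × Bool))))
      (f := fun _ => (1 : ℝ)) (g := fun c => ‖z - cen a b Q c‖) (fun _ _ => one_pos)
      (fun c _ => hcon c) Finset.univ_nonempty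
    simpa using this
  rw [← norm_prod, hz, norm_one] at h1
  exact lt_irrefl _ h1

section field

variable {K : Type*} [Field K] [NumberField K]

theorem prod_norm_embeddings_unit (u : (𝓞 K)ˣ) : ∏ σ : K →+* ℂ, ‖σ ((u : 𝓞 K) : K)‖ = 1 := by
  have h1 := Algebra.norm_eq_prod_embeddings ℚ ℂ ((u : 𝓞 K) : K)
  have h2 := congrArg (fun z => ‖z‖) h1
  simp only [norm_prod] at h2
  have h3 : ‖(algebraMap ℚ ℂ) (Algebra.norm ℚ ((u : 𝓞 K) : K))‖ = 1 := by
    have h5 : |((RingOfIntegers.norm ℚ (u : 𝓞 K) : 𝓞 ℚ) : ℚ)| = 1 :=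
      NumberField.isUnit_iff_norm.mp u.isUnit
    rw [RingOfIntegers.coe_norm] at h5
    rw [eq_ratCast, ← Complex.ofReal_ratCast, Complex.norm_real, Real.norm_eq_abs]
    exact_mod_cast h5
  rw [← h3, h2]
  exact Fintype.prod_equiv (RingHom.equivRatAlgHom K ℂ) _ _ fun σ => rfl

variable (a : Fin r1 → ℤ) (b : Fin r2 → ℤ) (Q : ℤ) (x : 𝓞 K)

theorem exists_bij (hQ : 4 ≤ |Q|) (ha : Function.Injective a) (hb : Function.Injective b)
    (hd : 1 ≤ r1 + 2 * r2) (hfin : Module.finrank ℚ K = r1 + 2 * r2)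
    (hx : aeval x (famF a b Q) = 0) :
    ∃ e : (K →+* ℂ) ≃ Fin r1 ⊕ (Fin r2 × Bool),
      (∀ σ, ‖σ (x : K) - cen a b Q (e σ)‖ ≤ 1) ∧
      (∀ σ, e (ComplexEmbedding.conjugate σ) = cconj (e σ)) := by
  have hroot : ∀ σ : K →+* ℂ, aeval (σ (x : K)) (famF a b Q) = 0 := by
    intro σ
    have h1 : aeval (σ (x : K)) (famF a b Q) =
        (σ.comp (algebraMap (𝓞 K) K)) (aeval x (famF a b Q)) :=
      aeval_algHom_apply ((σ.comp (algebraMap (𝓞 K) K)).toIntAlgHom) x (famF a b Q)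
    rw [h1, hx, map_zero]
  choose near hnear using fun σ : K →+* ℂ => exists_near a b Q hd _ (hroot σ)
  have huniq : ∀ (z : ℂ) c c', ‖z - cen a b Q c‖ ≤ 1 → ‖z - cen a b Q c'‖ ≤ 1 → c = c' := by
    intro z c c' h1 h2
    by_contra hne
    have h3 := cen_dist a b Q hQ ha hb c c' hne
    have h4 : ‖cen a b Q c - cen a b Q c'‖ ≤ 1 + 1 := by
      have h5 : cen a b Q c - cen a b Q c' = (z - cen a b Q c') - (z - cen a b Q c) := by ring
      rw [h5]
      exact (norm_sub_le _ _).trans (add_le_add h2 h1)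
    linarith
  have hfar : ∀ (z : ℂ) c c', ‖z - cen a b Q c‖ ≤ 1 → c ≠ c' → 3 ≤ ‖z - cen a b Q c'‖ := by
    intro z c c' h1 hne
    have h3 := cen_dist a b Q hQ ha hb c c' hne
    have h4 : ‖cen a b Q c - cen a b Q c'‖ ≤ ‖z - cen a b Q c'‖ + ‖z - cen a b Q c‖ := by
      have h5 : cen a b Q c - cen a b Q c' = (z - cen a b Q c') - (z - cen a b Q c) := by ring
      rw [h5]
      exact norm_sub_le _ _
    linarith
  have hconj : ∀ σ : K →+* ℂ, near (ComplexEmbedding.conjugate σ) = cconj (near σ) := by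
    intro σ
    refine huniq ((ComplexEmbedding.conjugate σ) (x : K)) _ _ (hnear _) ?_
    rw [cen_cconj, ComplexEmbedding.conjugate_coe_eq, ← map_sub, RCLike.norm_conj]
    exact hnear σ
  -- the product formula for a divisor of one
  have hunitprod : ∀ y : 𝓞 K, IsUnit y → (∀ σ : K →+* ℂ, 1 < ‖σ (y : K)‖) → False := by
    intro y hy h
    obtain ⟨u, rfl⟩ := hy
    have h1 := prod_norm_embeddings_unit u
    have h2 : (1 : ℝ) < ∏ σ : K →+* ℂ, ‖σ ((u : 𝓞 K) : K)‖ := by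
      have := Finset.prod_lt_prod_of_nonempty (s := (Finset.univ : Finset (K →+* ℂ)))
        (f := fun _ => (1 : ℝ)) (g := fun σ => ‖σ ((u : 𝓞 K) : K)‖) (fun _ _ => one_pos)
        (fun c _ => h c) Finset.univ_nonempty
      simpa using this
    rw [h1] at h2
    exact lt_irrefl _ h2
  have hG : aeval x (famG a b Q) = 1 := by
    rw [famF, map_sub, map_one, sub_eq_zero] at hx
    exact hx
  have hsurj : Function.Surjective near := by
    intro c
    rcases c with i | ⟨k, s⟩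
    · by_contra hcon
      push Not at hcon
      refine hunitprod (x - ((Q * a i : ℤ) : 𝓞 K)) ?_ ?_
      · rw [isUnit_iff_dvd_one, ← hG, famG, map_mul, map_prod]
        refine Dvd.dvd.mul_right ?_ _
        have h1 := Finset.dvd_prod_of_mem (fun i => aeval x (X - C (Q * a i))) (Finset.mem_univ i)
        simpa using h1
      · intro σ
        have h1 := hfar (σ (x : K)) _ (Sum.inl i) (hnear σ) (hcon σ)
        rw [cen_inl] at h1
        have h2 : σ ((x - ((Q * a i : ℤ) : 𝓞 K) : 𝓞 K) : K) = σ (x : K) - ((Q * a i : ℤ) : ℂ) := by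
          simp
        rw [h2]
        linarith
    · have hex : ∃ σ, ∃ t, near σ = Sum.inr (k, t) := by
        by_contra hcon
        push Not at hcon
        refine hunitprod ((x - ((Q * b k : ℤ) : 𝓞 K)) ^ 2 + ((2 * Q ^ 2 : ℤ) : 𝓞 K)) ?_ ?_
        · rw [isUnit_iff_dvd_one, ← hG, famG, map_mul, map_prod, map_prod]
          refine Dvd.dvd.mul_left ?_ _
          have h1 := Finset.dvd_prod_of_mem (fun k => aeval x ((X - C (Q * b k)) ^ 2 +
            C (2 * Q ^ 2))) (Finset.mem_univ k)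
          refine Dvd.dvd.trans (Eq.dvd ?_) h1
          rw [map_add, map_pow, map_sub, aeval_X, aeval_C, aeval_C]
          rfl
        · intro σ
          have h1 := hfar (σ (x : K)) _ (Sum.inr (k, true)) (hnear σ) (hcon σ true)
          have h3 := hfar (σ (x : K)) _ (Sum.inr (k, false)) (hnear σ) (hcon σ false)
          have h2 : σ (((x - ((Q * b k : ℤ) : 𝓞 K)) ^ 2 + ((2 * Q ^ 2 : ℤ) : 𝓞 K) : 𝓞 K) : K) =
              (σ (x : K) - ((Q * b k : ℤ) : ℂ)) ^ 2 + ((2 * Q ^ 2 : ℤ) : ℂ) := by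
            have h4 : ∀ y : 𝓞 K, σ (y : K) = (σ.comp (algebraMap (𝓞 K) K)) y := fun _ => rfl
            rw [h4, map_add, map_pow, map_sub, map_intCast, map_intCast]
            rfl
          rw [h2, quad_eq a b, norm_mul]
          nlinarith
      obtain ⟨σ, t, hσ⟩ := hex
      by_cases hts : t = s
      · exact ⟨σ, by rw [hσ, hts]⟩
      · refine ⟨ComplexEmbedding.conjugate σ, ?_⟩
        rw [hconj, hσ, cconj, Sum.map_inr]
        have : (!t) = s := (Bool.eq_not_of_ne fun h => hts h.symm).symm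
        simp [this]
  have hcard : Fintype.card (K →+* ℂ) = Fintype.card (Fin r1 ⊕ (Fin r2 × Bool)) := by
    rw [NumberField.Embeddings.card, hfin]
    simp
    ring
  have hbij : Function.Bijective near :=
    (Fintype.bijective_iff_surjective_and_card _).mpr ⟨hsurj, hcard⟩
  exact ⟨Equiv.ofBijective near hbij, hnear, hconj⟩

theorem nrReal_eq (hQ : 4 ≤ |Q|) (ha : Function.Injective a) (hb : Function.Injective b)
    (hd : 1 ≤ r1 + 2 * r2) (hfin : Module.finrank ℚ K = r1 + 2 * r2)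
    (hx : aeval x (famF a b Q) = 0) : InfinitePlace.nrRealPlaces K = r1 := by
  classical
  obtain ⟨e, -, hconj⟩ := exists_bij a b Q x hQ ha hb hd hfin hx
  rw [← InfinitePlace.card_real_embeddings]
  have h1 : ∀ σ : K →+* ℂ, ComplexEmbedding.IsReal σ ↔ ∃ i, e σ = Sum.inl i := by
    intro σ
    rw [ComplexEmbedding.isReal_iff, ← e.injective.eq_iff, hconj]
    rcases e σ with i | ⟨k, s⟩
    · simp [cconj]
    · simp [cconj]
  let f : {σ : K →+* ℂ // ComplexEmbedding.IsReal σ} → Fin r1 := fun σ => ((h1 σ.1).mp σ.2).choose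
  have hf : ∀ σ, e σ.1 = Sum.inl (f σ) := fun σ => ((h1 σ.1).mp σ.2).choose_spec
  have hbij : Function.Bijective f := by
    constructor
    · intro σ τ h
      have h2 : e σ.1 = e τ.1 := by rw [hf, hf, h]
      exact Subtype.ext (e.injective h2)
    · intro i
      have h2 : e (e.symm (Sum.inl i)) = Sum.inl i := e.apply_symm_apply _
      refine ⟨⟨e.symm (Sum.inl i), (h1 _).mpr ⟨i, h2⟩⟩, ?_⟩
      have h3 := hf ⟨e.symm (Sum.inl i), (h1 _).mpr ⟨i, h2⟩⟩
      exact (Sum.inl.inj (h2.symm.trans h3)).symm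
  have h2 := Fintype.card_of_bijective hbij
  rw [Fintype.card_fin] at h2
  convert h2

theorem nrComplex_eq (hQ : 4 ≤ |Q|) (ha : Function.Injective a) (hb : Function.Injective b)
    (hd : 1 ≤ r1 + 2 * r2) (hfin : Module.finrank ℚ K = r1 + 2 * r2)
    (hx : aeval x (famF a b Q) = 0) : InfinitePlace.nrComplexPlaces K = r2 := by
  have h1 := nrReal_eq a b Q x hQ ha hb hd hfin hx
  have h2 := InfinitePlace.card_add_two_mul_card_eq_rank K
  rw [h1, hfin] at h2
  omega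

end field

end Pool.Agent.Work.MP_59f3ad_nt
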