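import Mathlib
import Pool.Agent.Work.MP_59f3ad_nt.Sign
import Pool.Agent.Work.MP_59f3ad_nt.NF

/-!
The Leopoldt property for the fields generated by the roots of `famF a b Q`, at all primes
dividing `Q`.
-/

open Polynomial Finset NumberField

namespace Pool.Agent.Work.MP_59f3ad_nt

variable {r1 r2 : ℕ}

/-- The polynomials `X - a_i` and `(X - b_k)^2 + 2`. -/
noncomputable def famH (a : Fin r1 → ℤ) (b : Fin r2 → ℤ) (j : Fin r1 ⊕ Fin r2) : ℤ[X] :=
  Sum.elim (fun i => X - C (a i)) (fun k => (X - C (b k)) ^ 2 + C 2) j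

/-- The resultants of the pairs. -/
def famR (a : Fin r1 → ℤ) (b : Fin r2 → ℤ) : Fin r1 ⊕ Fin r2 → Fin r1 ⊕ Fin r2 → ℤ
  | Sum.inl i, Sum.inl j => a j - a i
  | Sum.inl i, Sum.inr l => (a i - b l) ^ 2 + 2
  | Sum.inr k, Sum.inl j => (a j - b k) ^ 2 + 2
  | Sum.inr k, Sum.inr l => (b l - b k) * ((b l - b k) ^ 2 + 8)

/-- The product of all resultants. -/
def famD (a : Fin r1 → ℤ) (b : Fin r2 → ℤ) : ℤ :=
  ∏ j, ∏ i ∈ Finset.univ.erase j, famR a b i j

theorem famR_ne_zero (a : Fin r1 → ℤ) (b : Fin r2 → ℤ) (ha : Function.Injective a)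
    (hb : Function.Injective b) (i j : Fin r1 ⊕ Fin r2) (h : i ≠ j) : famR a b i j ≠ 0 := by
  rcases i with i | k <;> rcases j with j | l
  · intro h0
    have h1 : a j = a i := by simpa [famR, sub_eq_zero] using h0
    exact h (by rw [ha h1])
  · have : 0 < (a i - b l) ^ 2 + 2 := by positivity
    exact this.ne'
  · have : 0 < (a j - b k) ^ 2 + 2 := by positivity
    exact this.ne'
  · refine mul_ne_zero ?_ ?_
    · intro h0
      have h1 : b l = b k := by simpa [sub_eq_zero] using h0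
      exact h (by rw [hb h1])
    · have : 0 < (b l - b k) ^ 2 + 8 := by positivity
      exact this.ne'

theorem famD_ne_zero (a : Fin r1 → ℤ) (b : Fin r2 → ℤ) (ha : Function.Injective a)
    (hb : Function.Injective b) : famD a b ≠ 0 := by
  refine Finset.prod_ne_zero_iff.mpr fun j _ => Finset.prod_ne_zero_iff.mpr fun i hi => ?_
  exact famR_ne_zero a b ha hb i j (Finset.ne_of_mem_erase hi)

theorem famR_bezout (a : Fin r1 → ℤ) (b : Fin r2 → ℤ) (i j : Fin r1 ⊕ Fin r2) :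
    ∃ A B : ℤ[X], A * famH a b i + B * famH a b j = C (famR a b i j) := by
  rcases i with i | k <;> rcases j with j | l
  · refine ⟨1, -1, ?_⟩
    simp only [famH, famR, Sum.elim_inl, map_sub]
    ring
  · refine ⟨-(X + C (a i) - 2 * C (b l)), 1, ?_⟩
    simp only [famH, famR, Sum.elim_inl, Sum.elim_inr, map_sub, map_add, map_pow]
    ring
  · refine ⟨1, -(X + C (a j) - 2 * C (b k)), ?_⟩
    simp only [famH, famR, Sum.elim_inl, Sum.elim_inr, map_sub, map_add, map_pow]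
    ring
  · refine ⟨4 * (C (b l) - C (b k)) - ((2 * X - C (b k) - C (b l)) + 2 * (C (b l) - C (b k))),
      (2 * X - C (b k) - C (b l)) + 2 * (C (b l) - C (b k)), ?_⟩
    simp only [famH, famR, Sum.elim_inr, map_sub, map_add, map_pow, map_mul]
    have h8 : (C 8 : ℤ[X]) = 8 := rfl
    have h2 : (C 2 : ℤ[X]) = 2 := rfl
    rw [h8, h2]
    ring

theorem famH_deriv_bezout (a : Fin r1 → ℤ) (b : Fin r2 → ℤ) (j : Fin r1 ⊕ Fin r2) :
    ∃ A B : ℤ[X], A * derivative (famH a b j) + B * famH a b j = C 4 := by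
  rcases j with j | l
  · refine ⟨C 4, 0, ?_⟩
    simp [famH]
  · refine ⟨-(X - C (b l)), 2, ?_⟩
    have h4 : (C 4 : ℤ[X]) = 4 := rfl
    have h2 : (C 2 : ℤ[X]) = 2 := rfl
    simp only [famH, Sum.elim_inr, derivative_add, derivative_C, derivative_pow, derivative_sub,
      derivative_X, h4, h2]
    simp
    ring

theorem bezout_mul (P1 P2 H : ℤ[X]) (R1 R2 : ℤ)
    (h1 : ∃ A B : ℤ[X], A * P1 + B * H = C R1) (h2 : ∃ A B : ℤ[X], A * P2 + B * H = C R2) :
    ∃ A B : ℤ[X], A * (P1 * P2) + B * H = C (R1 * R2) := by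
  obtain ⟨A1, B1, h1⟩ := h1
  obtain ⟨A2, B2, h2⟩ := h2
  refine ⟨A1 * A2, A1 * P1 * B2 + B1 * A2 * P2 + B1 * B2 * H, ?_⟩
  rw [C_mul, ← h1, ← h2]
  ring

theorem bezout_prod {J : Type*} [DecidableEq J] (s : Finset J) (P : J → ℤ[X]) (H : ℤ[X])
    (R : J → ℤ) (h : ∀ i, ∃ A B : ℤ[X], A * P i + B * H = C (R i)) :
    ∃ A B : ℤ[X], A * (∏ i ∈ s, P i) + B * H = C (∏ i ∈ s, R i) := by
  induction s using Finset.induction_on with
  | empty => exact ⟨1, 0, by simp⟩
  | insert a s ha ih =>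
    rw [Finset.prod_insert ha, Finset.prod_insert ha]
    exact bezout_mul _ _ _ _ _ (h a) ih

theorem famH_bezout (a : Fin r1 → ℤ) (b : Fin r2 → ℤ) (j : Fin r1 ⊕ Fin r2) :
    ∃ A B : ℤ[X], A * (derivative (famH a b j) * ∏ i ∈ univ.erase j, famH a b i) +
      B * famH a b j = C (4 * ∏ i ∈ univ.erase j, famR a b i j) :=
  bezout_mul _ _ _ _ _ (famH_deriv_bezout a b j)
    (bezout_prod _ _ _ _ fun i => famR_bezout a b i j)

theorem famH_monic (a : Fin r1 → ℤ) (b : Fin r2 → ℤ) (j : Fin r1 ⊕ Fin r2) :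
    (famH a b j).Monic := by
  rcases j with j | l
  · exact monic_X_sub_C _
  · exact quad_monic _ _

theorem famH_natDegree (a : Fin r1 → ℤ) (b : Fin r2 → ℤ) (j : Fin r1 ⊕ Fin r2) :
    (famH a b j).natDegree = Sum.elim (fun _ => 1) (fun _ => 2) j := by
  rcases j with j | l
  · exact natDegree_X_sub_C _
  · exact quad_natDegree _ _

theorem famH_natDegree_pos (a : Fin r1 → ℤ) (b : Fin r2 → ℤ) (j : Fin r1 ⊕ Fin r2) :
    1 ≤ (famH a b j).natDegree := by
  rw [famH_natDegree]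
  rcases j with j | l <;> simp

theorem famH_prod_natDegree (a : Fin r1 → ℤ) (b : Fin r2 → ℤ) :
    (∏ j, famH a b j).natDegree = r1 + 2 * r2 := by
  rw [natDegree_prod_of_monic _ _ fun j _ => famH_monic a b j]
  simp only [famH_natDegree, Fintype.sum_sum_type, Sum.elim_inl, Sum.elim_inr]
  simp
  ring

theorem scaleRoots_quad (m Q : ℤ) :
    ((X - C m) ^ 2 + C 2 : ℤ[X]).scaleRoots Q = (X - C (Q * m)) ^ 2 + C (2 * Q ^ 2) := by
  have h0 : (C 2 : ℤ[X]) = 2 := rfl
  have h1 : ((X - C m) ^ 2 + C 2 : ℤ[X]) = X ^ 2 + (C (-2 * m) * X + C (m ^ 2 + 2)) := by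
    simp only [map_mul, map_add, map_pow, map_neg, h0]
    ring
  have h2 : ((X - C (Q * m)) ^ 2 + C (2 * Q ^ 2) : ℤ[X]) =
      X ^ 2 + (C (-2 * (Q * m)) * X + C ((Q * m) ^ 2 + 2 * Q ^ 2)) := by
    simp only [map_mul, map_add, map_pow, map_neg, h0]
    ring
  ext n
  rw [coeff_scaleRoots, quad_natDegree, h1, h2]
  simp only [coeff_add, coeff_X_pow, coeff_C_mul, coeff_X, coeff_C]
  rcases n with _ | _ | _ | n
  · simp; ring
  · simp; ring
  · simp
  · simp

theorem famH_scaleRoots_prod (a : Fin r1 → ℤ) (b : Fin r2 → ℤ) (Q : ℤ) :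
    ∏ j, (famH a b j).scaleRoots Q = famG a b Q := by
  rw [Fintype.prod_sum_type, famG]
  congr 1
  · refine Finset.prod_congr rfl fun i _ => ?_
    rw [famH, Sum.elim_inl, X_sub_C_scaleRoots, mul_comm]
  · refine Finset.prod_congr rfl fun k _ => ?_
    rw [famH, Sum.elim_inr, scaleRoots_quad]

section units

variable {O : Type*} [CommRing O]

theorem exists_units (a : Fin r1 → ℤ) (b : Fin r2 → ℤ) (Q : ℤ) (x : O)
    (hx : aeval x (famF a b Q) = 0) :
    ∃ u : Fin r1 ⊕ Fin r2 → Oˣ, (∀ j, (u j : O) = aeval x ((famH a b j).scaleRoots Q)) ∧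
      ∏ j, u j = 1 := by
  have h1 : ∏ j, aeval x ((famH a b j).scaleRoots Q) = 1 := by
    rw [← map_prod, famH_scaleRoots_prod]
    rw [famF, map_sub, map_one, sub_eq_zero] at hx
    exact hx
  have h2 : ∀ j, IsUnit (aeval x ((famH a b j).scaleRoots Q)) := fun j => by
    rw [isUnit_iff_dvd_one, ← h1]
    exact Finset.dvd_prod_of_mem _ (Finset.mem_univ j)
  refine ⟨fun j => (h2 j).unit, fun j => rfl, ?_⟩
  ext
  rw [Units.coe_prod, Units.val_one, ← h1]
  rfl

end units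

section field

variable {K : Type*} [Field K] [NumberField K]
variable (a : Fin r1 → ℤ) (b : Fin r2 → ℤ) (Q : ℤ) (x : 𝓞 K)

theorem linearIndependent_of_root (hQ : Q ≠ 0) (ha : Function.Injective a)
    (hb : Function.Injective b) (hd : 1 ≤ r1 + 2 * r2) (hx : aeval x (famF a b Q) = 0) :
    LinearIndependent ℤ (fun i : Fin (r1 + 2 * r2) => x ^ (i : ℕ)) := by
  have hirr : Irreducible ((famF a b Q).map (Int.castRingHom ℚ)) :=
    (IsPrimitive.Int.irreducible_iff_irreducible_map_cast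
      (famF_monic a b Q hd).isPrimitive).mp (famF_irreducible a b Q hQ ha hb hd)
  have hx' : aeval (x : K) ((famF a b Q).map (Int.castRingHom ℚ)) = 0 := by
    have h1 : aeval (x : K) ((famF a b Q).map (algebraMap ℤ ℚ)) = aeval (x : K) (famF a b Q) :=
      aeval_map_algebraMap ℚ (x : K) (famF a b Q)
    have h2 : aeval (x : K) (famF a b Q) = algebraMap (𝓞 K) K (aeval x (famF a b Q)) :=
      aeval_algebraMap_apply K x (famF a b Q)
    rw [hx, map_zero] at h2
    exact h1.trans h2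
  have hmin := minpoly.eq_of_irreducible_of_monic hirr hx' ((famF_monic a b Q hd).map _)
  have hdeg : (minpoly ℚ (x : K)).natDegree = r1 + 2 * r2 := by
    rw [← hmin, (famF_monic a b Q hd).natDegree_map, famF_natDegree a b Q hd]
  have h1 := linearIndependent_pow (K := ℚ) (x : K)
  rw [hdeg] at h1
  have h2 : LinearIndependent ℤ (fun i : Fin (r1 + 2 * r2) => (x : K) ^ (i : ℕ)) :=
    h1.restrict_scalars' ℤ
  refine LinearIndependent.of_comp (Algebra.linearMap (𝓞 K) K |>.restrictScalars ℤ) ?_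
  have h3 : (⇑(Algebra.linearMap (𝓞 K) K |>.restrictScalars ℤ) ∘
      fun i : Fin (r1 + 2 * r2) => x ^ (i : ℕ)) = fun i : Fin (r1 + 2 * r2) => (x : K) ^ (i : ℕ) := by
    funext i
    simp
  rw [h3]
  exact h2

/-- **Leopoldt's conjecture** (strong form) for the field generated by a root of `famF a b Q`, at
a prime `p` with `p^N` exactly dividing `Q`, `N ≥ 1` (`N ≥ 2` if `p = 2`) and `p^(N d)` not
dividing `4 famD a b`. -/
theorem sleo_family_local (hQ4 : 4 ≤ |Q|) (ha : Function.Injective a) (hb : Function.Injective b)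
    (hd : 2 ≤ r1 + 2 * r2) (hfin : Module.finrank ℚ K = r1 + 2 * r2)
    (hx : aeval x (famF a b Q) = 0) (p : ℕ) (hp : p.Prime) (N : ℕ) (hN : 1 ≤ N)
    (hN2 : p = 2 → 2 ≤ N) (hNQ : (p : ℤ) ^ N ∣ Q) (hNQ' : ¬ (p : ℤ) ^ (N + 1) ∣ Q)
    (hD : ¬ (p : ℤ) ^ (N * (r1 + 2 * r2)) ∣ 4 * famD a b) : ∃ c, SLeo K p c := by
  classical
  have hQ0 : Q ≠ 0 := by rintro rfl; simp at hQ4
  obtain ⟨Q', hQeq⟩ := hNQ
  have hQ' : ¬ (p : ℤ) ∣ Q' := by
    intro h
    apply hNQ'
    rw [hQeq, pow_succ]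
    exact mul_dvd_mul_left _ h
  have hcop : IsCoprime (p : ℤ) Q' :=
    (Prime.coprime_iff_not_dvd (Nat.prime_iff_prime_int.mp hp)).mpr hQ'
  obtain ⟨u, hu, hprod⟩ := exists_units a b Q x hx
  obtain ⟨c1, hc1⟩ := exists_index_const p hp (r1 + 2 * r2) x
    (linearIndependent_of_root a b Q x hQ0 ha hb (by omega) hx) hfin.symm
  have hindep := indep x p N c1 hp hN hN2 Q Q' hQeq hcop (famH a b) (famH_monic a b)
    (famH_natDegree_pos a b) (r1 + 2 * r2) (famH_prod_natDegree a b) (by omega) u hu hprod hc1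
    (fun j => by
      obtain ⟨A, B, hAB⟩ := famH_bezout a b j
      refine ⟨A, B, _, hAB, fun h => hD (h.trans ?_)⟩
      exact mul_dvd_mul_left _ (Finset.dvd_prod_of_mem
        (fun j => ∏ i ∈ univ.erase j, famR a b i j) (Finset.mem_univ j)))
  refine sleo_of_indep K p hp u (fun j => ((famH a b j).natDegree : ℤ)) _ ?_ ?_ hindep
  · have : Nonempty (Fin r1 ⊕ Fin r2) := by
      rcases Nat.eq_zero_or_pos r1 with h | h
      · exact ⟨Sum.inr ⟨0, by omega⟩⟩
      · exact ⟨Sum.inl ⟨0, h⟩⟩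
    obtain ⟨j⟩ := this
    refine ⟨j, ?_⟩
    have := famH_natDegree_pos a b j
    omega
  · have h1 := InfinitePlace.card_eq_nrRealPlaces_add_nrComplexPlaces K
    rw [nrReal_eq a b Q x hQ4 ha hb (by omega) hfin hx,
      nrComplex_eq a b Q x hQ4 ha hb (by omega) hfin hx] at h1
    rw [Units.rank, h1, Fintype.card_sum, Fintype.card_fin, Fintype.card_fin]
    omega

/-- **Leopoldt's conjecture** (strong form) for the field generated by a root of `famF a b Q`, at
every prime dividing `Q`, when `4 famD a b` divides `Q`. -/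
theorem sleo_family (hQ0 : Q ≠ 0) (ha : Function.Injective a) (hb : Function.Injective b)
    (hd : 2 ≤ r1 + 2 * r2) (hfin : Module.finrank ℚ K = r1 + 2 * r2)
    (hx : aeval x (famF a b Q) = 0) (hQD : 4 * famD a b ∣ Q) (p : ℕ) (hp : p.Prime)
    (hpQ : (p : ℤ) ∣ Q) : ∃ c, SLeo K p c := by
  classical
  have h4Q : (4 : ℤ) ∣ Q := (Dvd.intro _ rfl).trans hQD
  have hQ4 : 4 ≤ |Q| := by
    have := Int.le_of_dvd (abs_pos.mpr hQ0) ((dvd_abs 4 Q).mpr h4Q)
    exact this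
  obtain ⟨N, Q', hQ', hQeq⟩ : ∃ (N : ℕ) (Q' : ℤ), ¬ (p : ℤ) ∣ Q' ∧ Q = (p : ℤ) ^ N * Q' := by
    obtain ⟨N, Q', h1, h2⟩ := WfDvdMonoid.max_power_factor hQ0
      (Nat.prime_iff_prime_int.mp hp).irreducible
    exact ⟨N, Q', h1, h2⟩
  have hN : 1 ≤ N := by
    by_contra hcon
    have : N = 0 := by omega
    rw [this, pow_zero, one_mul] at hQeq
    exact hQ' (hQeq ▸ hpQ)
  have hNQ' : ¬ (p : ℤ) ^ (N + 1) ∣ Q := by
    intro h1
    rw [hQeq, pow_succ, mul_dvd_mul_iff_left (pow_ne_zero _ (by exact_mod_cast hp.ne_zero))] at h1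
    exact hQ' h1
  have hN2 : p = 2 → 2 ≤ N := by
    rintro rfl
    by_contra hcon
    have h1 : N = 1 := by omega
    rw [hQeq, h1, pow_one] at h4Q
    have h2 : ((2 : ℕ) : ℤ) * 2 ∣ ((2 : ℕ) : ℤ) * Q' := by
      refine Dvd.dvd.trans ?_ h4Q
      norm_num
    rw [mul_dvd_mul_iff_left (by norm_num)] at h2
    exact hQ' (by exact_mod_cast h2)
  refine sleo_family_local a b Q x hQ4 ha hb hd hfin hx p hp N hN hN2 ⟨Q', hQeq⟩ hNQ' ?_
  intro h
  apply hNQ'
  refine (pow_dvd_pow _ ?_).trans (h.trans hQD)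
  nlinarith

end field

end Pool.Agent.Work.MP_59f3ad_nt
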