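import Mathlib
import Pool.Agent.Work.MP_59f3ad_nt.Family

/-!
The family of polynomials over a general base ring.
-/

open Polynomial

namespace Pool.Agent.Work.MP_59f3ad_nt

variable {r1 r2 : ℕ} {R : Type*} [CommRing R]

/-- The polynomials `X - q a_i` and `(X - q b_k)^2 + 2 q^2`. -/
noncomputable def genH (a : Fin r1 → ℤ) (b : Fin r2 → ℤ) (q : R) (j : Fin r1 ⊕ Fin r2) : R[X] :=
  Sum.elim (fun i => X - C (q * (a i : R)))
    (fun k => (X - C (q * (b k : R))) ^ 2 + C (2 * q ^ 2)) j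

/-- The polynomial `∏ (X - q a_i) ∏ ((X - q b_k)^2 + 2 q^2) - 1`. -/
noncomputable def genF (a : Fin r1 → ℤ) (b : Fin r2 → ℤ) (q : R) : R[X] :=
  (∏ j, genH a b q j) - 1

theorem genH_map {S : Type*} [CommRing S] (φ : R →+* S) (a : Fin r1 → ℤ) (b : Fin r2 → ℤ) (q : R)
    (j : Fin r1 ⊕ Fin r2) : (genH a b q j).map φ = genH a b (φ q) j := by
  rcases j with i | k
  · simp [genH]
  · simp [genH, map_ofNat φ 2]

theorem genF_map {S : Type*} [CommRing S] (φ : R →+* S) (a : Fin r1 → ℤ) (b : Fin r2 → ℤ)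
    (q : R) : (genF a b q).map φ = genF a b (φ q) := by
  rw [genF, genF, Polynomial.map_sub, Polynomial.map_one, Polynomial.map_prod]
  simp only [genH_map]

theorem genH_monic (a : Fin r1 → ℤ) (b : Fin r2 → ℤ) (q : R) (j : Fin r1 ⊕ Fin r2) :
    (genH a b q j).Monic := by
  rcases j with i | k
  · exact monic_X_sub_C _
  · have h : (genH a b q (Sum.inr k)) = (X - C (q * (b k : R))) ^ 2 + C (2 * q ^ 2) := rfl
    rw [h]
    monicity!

theorem genH_natDegree [Nontrivial R] (a : Fin r1 → ℤ) (b : Fin r2 → ℤ) (q : R)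
    (j : Fin r1 ⊕ Fin r2) :
    (genH a b q j).natDegree = Sum.elim (fun _ => 1) (fun _ => 2) j := by
  rcases j with i | k
  · exact natDegree_X_sub_C _
  · have h : (genH a b q (Sum.inr k)) = (X - C (q * (b k : R))) ^ 2 + C (2 * q ^ 2) := rfl
    rw [h, Sum.elim_inr]
    compute_degree!

theorem genH_prod_natDegree [Nontrivial R] (a : Fin r1 → ℤ) (b : Fin r2 → ℤ) (q : R) :
    (∏ j, genH a b q j).natDegree = r1 + 2 * r2 := by
  rw [natDegree_prod_of_monic _ _ fun j _ => genH_monic a b q j]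
  simp only [genH_natDegree, Fintype.sum_sum_type, Sum.elim_inl, Sum.elim_inr]
  simp
  ring

theorem genF_natDegree [Nontrivial R] (a : Fin r1 → ℤ) (b : Fin r2 → ℤ) (q : R) :
    (genF a b q).natDegree = r1 + 2 * r2 := by
  rw [genF, ← C_1, natDegree_sub_C, genH_prod_natDegree]

theorem genF_monic [Nontrivial R] (a : Fin r1 → ℤ) (b : Fin r2 → ℤ) (q : R)
    (hd : 1 ≤ r1 + 2 * r2) : (genF a b q).Monic := by
  rw [genF]
  have hm : (∏ j, genH a b q j).Monic := monic_prod_of_monic _ _ fun j _ => genH_monic a b q j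
  refine hm.sub_of_left ?_
  rw [degree_eq_natDegree hm.ne_zero, genH_prod_natDegree, degree_one]
  exact_mod_cast hd

theorem genH_int (a : Fin r1 → ℤ) (b : Fin r2 → ℤ) (Q : ℤ) (j : Fin r1 ⊕ Fin r2) :
    genH a b Q j = (famH a b j).scaleRoots Q := by
  rcases j with i | k
  · rw [famH, Sum.elim_inl, X_sub_C_scaleRoots, mul_comm]
    rfl
  · rw [famH, Sum.elim_inr, scaleRoots_quad]
    rfl

theorem genF_int (a : Fin r1 → ℤ) (b : Fin r2 → ℤ) (Q : ℤ) : genF a b Q = famF a b Q := by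
  rw [genF, famF, ← famH_scaleRoots_prod]
  simp only [genH_int]

end Pool.Agent.Work.MP_59f3ad_nt
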