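import Pool.Agent.Work.MP_59f3ad_nt.EvC
import Pool.Agent.Work.MP_59f3ad_nt.GrowthMinor

/-!
Independence modulo constants gives a nonzero minor of growth exponents, for families with
complex coefficients.
-/

open Polynomial Filter Topology

namespace Pool.Agent.Work.MP_59f3ad_nt

namespace GrowthMinorC

open GrowthMinor (exists_int_rel)

/-- Evaluation of an element of `AdjoinRoot F` at a root of a specialisation. -/
noncomputable def ev (F : ℂ[X][X]) (t x : ℂ) (h : (F.map (evC t)).eval x = 0) :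
    AdjoinRoot F →+* ℂ :=
  AdjoinRoot.lift (evC t) x (by rw [← eval_map]; exact h)

theorem ev_mk (F : ℂ[X][X]) (t x : ℂ) (h : (F.map (evC t)).eval x = 0) (H : ℂ[X][X]) :
    ev F t x h (AdjoinRoot.mk F H) = (H.map (evC t)).eval x := by
  rw [ev, AdjoinRoot.lift_mk, eval_map]

theorem charpoly_spec (F : ℂ[X][X]) (hF : F.Monic) (t : ℂ) (x : Fin F.natDegree → ℂ)
    (hx : Function.Injective x) (hr : ∀ j, (F.map (evC t)).eval (x j) = 0)
    (η : AdjoinRoot F) :
    ((Algebra.leftMulMatrix (AdjoinRoot.powerBasisAux' hF) η).charpoly).map (evC t) =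
      ∏ j, (X - C (ev F t (x j) (hr j) η)) := by
  set b := AdjoinRoot.powerBasisAux' hF with hbdef
  have hb : ∀ j, b j = AdjoinRoot.root F ^ (j : ℕ) := fun j =>
    (AdjoinRoot.powerBasis' hF).basis_eq_pow j
  set M := Algebra.leftMulMatrix b η with hM
  set V := Matrix.vandermonde x with hV
  have hVu : IsUnit V := by
    rw [Matrix.isUnit_iff_isUnit_det, isUnit_iff_ne_zero]
    exact Matrix.det_vandermonde_ne_zero_iff.mpr hx
  obtain ⟨U, hU⟩ := hVu
  have hmul : Matrix.diagonal (fun j => ev F t (x j) (hr j) η) * V = V * M.map (evC t) := by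
    ext j k
    rw [Matrix.diagonal_mul, Matrix.mul_apply]
    have h1 : η * b k = ∑ l, M l k • b l := by
      rw [← b.sum_repr (η * b k)]
      refine Finset.sum_congr rfl fun l _ => ?_
      rw [hM, Algebra.leftMulMatrix_eq_repr_mul]
    have h2 := congrArg (ev F t (x j) (hr j)) h1
    rw [map_mul, map_sum] at h2
    have h3 : ∀ l, ev F t (x j) (hr j) (b l) = V j l := by
      intro l
      rw [hb, map_pow, hV, Matrix.vandermonde_apply]
      congr 1
      rw [ev, AdjoinRoot.lift_root]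
    rw [h3] at h2
    rw [h2]
    refine Finset.sum_congr rfl fun l _ => ?_
    rw [Algebra.smul_def, map_mul, h3, mul_comm, Matrix.map_apply]
    congr 1
    rw [AdjoinRoot.algebraMap_eq, ev, AdjoinRoot.lift_of]
  have hconj : Matrix.diagonal (fun j => ev F t (x j) (hr j) η) =
      U.val * M.map (evC t) * U.val⁻¹ := by
    rw [hU, ← hmul, Matrix.mul_assoc, Matrix.mul_nonsing_inv, Matrix.mul_one]
    rw [← Matrix.isUnit_iff_isUnit_det]
    exact ⟨U, hU⟩
  rw [← Matrix.charpoly_map, ← Matrix.charpoly_units_conj U, ← Matrix.charpoly_diagonal, hconj]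

/-- A polynomial which is bounded at infinity is constant. -/
theorem eq_C_of_bounded (p : ℂ[X]) (K : ℝ) (h : ∀ᶠ t : ℝ in atTop, ‖evC (t : ℂ) p‖ ≤ K) :
    p = C (p.eval 0) := by
  have h1 : p.degree ≤ 0 := by
    by_contra hcon
    rw [not_le] at hcon
    have h2 : Tendsto (fun t : ℝ => ‖(t : ℂ)‖) atTop atTop := by
      simp only [Complex.norm_real]
      exact tendsto_norm_atTop_atTop
    have h3 := p.tendsto_norm_atTop hcon h2
    obtain ⟨t, ht1, ht2⟩ := (h.and (h3.eventually_gt_atTop K)).exists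
    exact absurd ht1 (not_le.mpr ht2)
  have h2 := eq_C_of_degree_le_zero h1
  rw [h2]
  simp

end GrowthMinorC

open GrowthMinorC
open GrowthMinor (exists_int_rel)

theorem exists_growth_minorC (F : ℂ[X][X]) (hF : F.Monic) (B : ℝ)
    (ξ : Fin F.natDegree → ℝ → ℂ)
    (hξ : ∀ t : ℝ, B < t → Function.Injective (fun j => ξ j t) ∧
        ∀ j, (F.map (evC t)).eval (ξ j t) = 0)
    (n : ℕ) (u : Fin n → (AdjoinRoot F)ˣ) (H : Fin n → ℂ[X][X])
    (hH : ∀ i, AdjoinRoot.mk F (H i) = u i)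
    (hu : ∀ E : Fin n → ℤ, E ≠ 0 →
      Transcendental ℂ ((∏ i, u i ^ E i : (AdjoinRoot F)ˣ) : AdjoinRoot F))
    (e : ℕ) (he : e ≠ 0) (v : Fin n → Fin F.natDegree → ℤ) (c : Fin n → Fin F.natDegree → ℂ)
    (hc : ∀ i j, c i j ≠ 0)
    (hv : ∀ i j, Tendsto (fun t : ℝ => ((H i).map (evC t)).eval (ξ j t) ^ e / (t : ℂ) ^ (v i j))
      atTop (𝓝 (c i j))) :
    ∃ φ : Fin n → Fin F.natDegree, (Matrix.of fun i j : Fin n => v i (φ j)).det ≠ 0 := by
  by_contra hcon
  push Not at hcon
  obtain ⟨E, hE, hEv⟩ := exists_int_rel v hcon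
  refine hu E hE ?_
  set η : AdjoinRoot F := ((∏ i, u i ^ E i : (AdjoinRoot F)ˣ) : AdjoinRoot F) with hη
  -- the conjugates
  let y : Fin F.natDegree → ℝ → ℂ := fun j t => ∏ i, (((H i).map (evC t)).eval (ξ j t)) ^ (E i)
  have hy : ∀ (t : ℝ) (ht : B < t) (j : Fin F.natDegree),
      ev F t (ξ j t) ((hξ t ht).2 j) η = y j t := by
    intro t ht j
    have h1 : ev F t (ξ j t) ((hξ t ht).2 j) η =
        ((Units.map (ev F t (ξ j t) ((hξ t ht).2 j) : AdjoinRoot F →* ℂ) (∏ i, u i ^ E i) : ℂˣ) : ℂ) := rfl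
    rw [h1, map_prod, Units.coe_prod]
    refine Finset.prod_congr rfl fun i _ => ?_
    rw [map_zpow, Units.val_zpow_eq_zpow_val]
    congr 1
    rw [Units.coe_map, ← ev_mk F t (ξ j t) ((hξ t ht).2 j), hH]
    rfl
  have hlim : ∀ j, Tendsto (fun t : ℝ => y j t ^ e) atTop (𝓝 (∏ i, c i j ^ E i)) := by
    intro j
    have h1 : Tendsto (fun t : ℝ => ∏ i, (((H i).map (evC t)).eval (ξ j t) ^ e /
        (t : ℂ) ^ (v i j)) ^ E i) atTop (𝓝 (∏ i, c i j ^ E i)) :=
      tendsto_finsetProd _ fun i _ => (hv i j).zpow₀ (E i) (Or.inl (hc i j))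
    refine h1.congr' ?_
    filter_upwards [eventually_gt_atTop (0 : ℝ)] with t ht
    have ht' : (t : ℂ) ≠ 0 := by exact_mod_cast ht.ne'
    have h2 : ∀ i, (((H i).map (evC t)).eval (ξ j t) ^ e / (t : ℂ) ^ (v i j)) ^ E i =
        ((((H i).map (evC t)).eval (ξ j t)) ^ (E i)) ^ e * (t : ℂ) ^ (-(E i * v i j)) := by
      intro i
      rw [div_zpow, ← zpow_mul, div_eq_mul_inv, ← zpow_neg, mul_comm (v i j)]
      congr 1
      rw [← zpow_natCast, ← zpow_natCast, ← zpow_mul, ← zpow_mul, mul_comm]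
    rw [Finset.prod_congr rfl fun i _ => h2 i, Finset.prod_mul_distrib, Finset.prod_pow]
    have h3 : ∏ i, (t : ℂ) ^ (-(E i * v i j)) = 1 := by
      have h4 : ∀ s : Finset (Fin n), ∏ i ∈ s, (t : ℂ) ^ (-(E i * v i j)) =
          (t : ℂ) ^ (∑ i ∈ s, -(E i * v i j)) := by
        intro s
        induction s using Finset.induction_on with
        | empty => simp
        | insert a s ha ih => rw [Finset.prod_insert ha, Finset.sum_insert ha, zpow_add₀ ht', ih]
      rw [h4, Finset.sum_neg_distrib, hEv, neg_zero, zpow_zero]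
    rw [h3, mul_one]
  have hbd : ∃ K : ℝ, 0 ≤ K ∧ ∀ᶠ t : ℝ in atTop, ∀ j, ‖y j t‖ ≤ K := by
    have h1 : ∀ j, ∃ K : ℝ, 0 ≤ K ∧ ∀ᶠ t : ℝ in atTop, ‖y j t‖ ≤ K := by
      intro j
      refine ⟨max 1 (‖∏ i, c i j ^ E i‖ + 1), by positivity, ?_⟩
      have h2 := (hlim j).norm.eventually (Iio_mem_nhds (lt_add_one _))
      filter_upwards [h2] with t ht
      rcases le_or_gt ‖y j t‖ 1 with h3 | h3
      · exact h3.trans (le_max_left _ _)
      · refine le_trans ?_ (le_max_right _ _)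
        have h4 : ‖y j t‖ ≤ ‖y j t‖ ^ e := le_self_pow₀ h3.le he
        rw [← norm_pow] at h4
        exact h4.trans (le_of_lt ht)
    choose K hK0 hK using h1
    refine ⟨∑ j, K j, Finset.sum_nonneg fun j _ => hK0 j, ?_⟩
    rw [eventually_all]
    intro j
    filter_upwards [hK j] with t ht
    exact ht.trans (Finset.single_le_sum (fun j _ => hK0 j) (Finset.mem_univ j))
  obtain ⟨K, hK0, hK⟩ := hbd
  set b := AdjoinRoot.powerBasisAux' hF with hbdef
  set χ : ℂ[X][X] := (Algebra.leftMulMatrix b η).charpoly with hχ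
  have hχm : χ.Monic := Matrix.charpoly_monic _
  -- the values of the characteristic polynomial at integers are constant
  have hval : ∀ z : ℤ, χ.eval (C (z : ℂ)) = C ((χ.eval (C (z : ℂ))).eval 0) := by
    intro z
    apply eq_C_of_bounded _ ((|(z : ℝ)| + K) ^ F.natDegree)
    filter_upwards [hK, eventually_gt_atTop B] with t ht1 ht2
    have h1 : evC (t : ℂ) (χ.eval (C (z : ℂ))) = (χ.map (evC t)).eval (z : ℂ) := by
      have h5 := eval₂_at_apply (evC (t : ℂ)) (C (z : ℂ)) (p := χ)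
      rw [evC_C] at h5
      rw [eval_map, h5]
    rw [h1, hχ, charpoly_spec F hF t (fun j => ξ j t) (hξ t ht2).1 (hξ t ht2).2, eval_prod,
      norm_prod]
    calc ∏ j, ‖eval (z : ℂ) (X - C (ev F t (ξ j t) ((hξ t ht2).2 j) η))‖
        ≤ ∏ _j : Fin F.natDegree, (|(z : ℝ)| + K) := by
          refine Finset.prod_le_prod (fun _ _ => norm_nonneg _) fun j _ => ?_
          rw [eval_sub, eval_X, eval_C, hy t ht2 j]
          refine (norm_sub_le _ _).trans ?_
          have h5 : ‖(z : ℂ)‖ = |(z : ℝ)| := Complex.norm_intCast z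
          rw [h5]
          exact add_le_add le_rfl (ht1 j)
      _ = _ := by simp
  set χ0 : ℂ[X] := χ.map (evalRingHom 0) with hχ0
  have hχeq : χ = χ0.map C := by
    have hinf : Set.Infinite (Set.range (fun z : ℤ => (C (z : ℂ) : ℂ[X]))) :=
      Set.infinite_range_of_injective fun z w h => by
        have := C_injective h
        exact_mod_cast this
    refine Polynomial.eq_of_infinite_eval_eq _ _ (hinf.mono ?_)
    rintro _ ⟨z, rfl⟩
    show χ.eval (C (z : ℂ)) = (χ0.map C).eval (C (z : ℂ))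
    rw [hval z, eval_map, eval₂_at_apply]
    congr 1
    rw [hχ0, eval_map]
    have h6 : (χ.eval (C (z : ℂ))).eval 0 = (evalRingHom (0 : ℂ)) (χ.eval (C (z : ℂ))) := rfl
    rw [h6, ← eval₂_at_apply]
    simp
  have hroot : aeval η χ = 0 := by
    apply Algebra.leftMulMatrix_injective b
    rw [← aeval_algHom_apply, map_zero]
    exact Matrix.aeval_self_charpoly _
  refine ⟨χ0, (hχm.map _).ne_zero, ?_⟩
  rw [hχeq, aeval_def, eval₂_map] at hroot
  rw [aeval_def, ← hroot]
  congr 1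

end Pool.Agent.Work.MP_59f3ad_nt
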