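import Mathlib
import Pool.Agent.Work.MP_59f3ad_nt.EvT

/-!
# The Taylor series map on functions of a real variable analytic at `0`

(Adapted from the complex version by another team member.)
-/

open Filter Topology

namespace Pool.Agent.Work.MP_59f3ad_nt.RTaylor

/-- The ring of the functions analytic at `0`. -/
def An : Subring (ℝ → ℂ) where
  carrier := {f | AnalyticAt ℝ f 0}
  mul_mem' := fun ha hb => AnalyticAt.mul ha hb
  one_mem' := analyticAt_const
  add_mem' := fun ha hb => AnalyticAt.add ha hb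
  zero_mem' := analyticAt_const
  neg_mem' := fun ha => AnalyticAt.neg ha

theorem coeff_tay (f : ℝ → ℂ) (n : ℕ) :
    PowerSeries.coeff n (Tay f) = iteratedDeriv n f 0 / n.factorial := PowerSeries.coeff_mk _ _

theorem tay_congr {f g : ℝ → ℂ} (h : f =ᶠ[𝓝 0] g) : Tay f = Tay g := by
  ext n
  rw [coeff_tay, coeff_tay, h.iteratedDeriv_eq]

theorem derivative_tay (f : ℝ → ℂ) : PowerSeries.derivative ℂ (Tay f) = Tay (deriv f) := by
  ext n
  rw [PowerSeries.coeff_derivative, coeff_tay, coeff_tay, iteratedDeriv_succ', Nat.factorial_succ]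
  push_cast
  have h1 : (n.factorial : ℂ) ≠ 0 := Nat.cast_ne_zero.2 n.factorial_ne_zero
  have h2 : (n : ℂ) + 1 ≠ 0 := by exact_mod_cast n.succ_ne_zero
  field_simp

theorem constantCoeff_tay (f : ℝ → ℂ) : PowerSeries.constantCoeff (Tay f) = f 0 := by
  rw [← PowerSeries.coeff_zero_eq_constantCoeff_apply, coeff_tay]
  simp

theorem tay_add {f g : ℝ → ℂ} (hf : AnalyticAt ℝ f 0) (hg : AnalyticAt ℝ g 0) :
    Tay (f + g) = Tay f + Tay g := by
  ext n
  rw [map_add, coeff_tay, coeff_tay, coeff_tay, iteratedDeriv_add hf.contDiffAt hg.contDiffAt,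
    add_div]

theorem tay_const (c : ℂ) : Tay (fun _ => c) = PowerSeries.C c := by
  ext n
  rw [coeff_tay, iteratedDeriv_const, PowerSeries.coeff_C]
  split_ifs with h
  · simp [h]
  · simp

theorem coeff_succ_eq (F : PowerSeries ℂ) (n : ℕ) :
    PowerSeries.coeff (n + 1) F = PowerSeries.coeff n (PowerSeries.derivative ℂ F) / (n + 1) := by
  rw [PowerSeries.coeff_derivative]
  have h2 : (n : ℂ) + 1 ≠ 0 := by exact_mod_cast n.succ_ne_zero
  field_simp

theorem tay_mul_aux (n : ℕ) : ∀ {f g : ℝ → ℂ}, AnalyticAt ℝ f 0 → AnalyticAt ℝ g 0 →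
    PowerSeries.coeff n (Tay (f * g)) = PowerSeries.coeff n (Tay f * Tay g) := by
  induction n with
  | zero =>
    intro f g hf hg
    rw [PowerSeries.coeff_zero_eq_constantCoeff_apply, PowerSeries.coeff_zero_eq_constantCoeff_apply,
      map_mul, constantCoeff_tay, constantCoeff_tay, constantCoeff_tay, Pi.mul_apply]
  | succ n ih =>
    intro f g hf hg
    rw [coeff_succ_eq, coeff_succ_eq (Tay f * Tay g), derivative_tay]
    have h1 : deriv (f * g) =ᶠ[𝓝 0] deriv f * g + f * deriv g := by
      filter_upwards [hf.eventually_analyticAt, hg.eventually_analyticAt] with z hz hz'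
      rw [deriv_mul hz.differentiableAt hz'.differentiableAt]
      rfl
    rw [tay_congr h1, tay_add (hf.deriv.mul hg) (hf.mul hg.deriv), map_add, ih hf.deriv hg,
      ih hf hg.deriv, Derivation.leibniz, smul_eq_mul, smul_eq_mul, derivative_tay, derivative_tay,
      map_add, mul_comm (Tay (deriv f)) (Tay g), add_comm]

theorem tay_mul {f g : ℝ → ℂ} (hf : AnalyticAt ℝ f 0) (hg : AnalyticAt ℝ g 0) :
    Tay (f * g) = Tay f * Tay g := by
  ext n
  exact tay_mul_aux n hf hg

/-- The Taylor series, as a ring homomorphism. -/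
noncomputable def T : An →+* PowerSeries ℂ where
  toFun := fun f => Tay f
  map_one' := by
    change Tay (fun _ => 1) = 1
    rw [tay_const, map_one]
  map_mul' := fun f g => tay_mul f.2 g.2
  map_zero' := by
    change Tay (fun _ => 0) = 0
    rw [tay_const, map_zero]
  map_add' := fun f g => tay_add f.2 g.2

theorem T_apply (f : An) : T f = Tay f := rfl

theorem eventually_eq_zero {f : ℝ → ℂ} (hf : AnalyticAt ℝ f 0) (h : Tay f = 0) :
    ∀ᶠ z in 𝓝 0, f z = 0 := by
  obtain ⟨p, r, hp⟩ := hf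
  have h1 : ∀ n, iteratedDeriv n f 0 = 0 := by
    intro n
    have h2 := congrArg (PowerSeries.coeff n) h
    rw [coeff_tay, map_zero, div_eq_zero_iff] at h2
    exact h2.resolve_right (Nat.cast_ne_zero.2 n.factorial_ne_zero)
  have h2 : p = 0 := by
    ext1 n
    have h3 := hp.factorial_smul (1 : ℝ) n
    have h4 : iteratedFDeriv ℝ n f 0 (fun _ => 1) = 0 := by
      rw [← iteratedDeriv_eq_iteratedFDeriv]
      exact h1 n
    rw [h4, smul_eq_zero] at h3
    have h5 := h3.resolve_left n.factorial_ne_zero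
    have h6 : p.coeff n = 0 := h5
    rw [← p.mkPiRing_coeff_eq n, h6]
    exact norm_le_zero_iff.mp (by rw [ContinuousMultilinearMap.norm_mkPiRing, norm_zero])
  have h3 : HasFPowerSeriesAt f p 0 := ⟨r, hp⟩
  rw [h2] at h3
  exact h3.eventually_eq_zero

theorem T_eq_zero {f : An} (h : ∀ᶠ z in 𝓝 0, (f : ℝ → ℂ) z = 0) : T f = 0 := by
  rw [T_apply, tay_congr (g := fun _ => 0) h, tay_const, map_zero]

/-- The evaluation at a point. -/
def ev (z : ℝ) : An →+* ℂ := (Pi.evalRingHom (fun _ : ℝ => ℂ) z).comp An.subtype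

theorem ev_apply (z : ℝ) (f : An) : ev z f = (f : ℝ → ℂ) z := rfl

/-- The function `s ↦ q + e s`. -/
noncomputable def lin (q e : ℝ) : An :=
  ⟨fun s => (q : ℂ) + (e : ℂ) * (s : ℂ),
    analyticAt_const.add (analyticAt_const.mul (Complex.ofRealCLM.analyticAt 0))⟩

theorem T_lin (q e : ℝ) :
    T (lin q e) = PowerSeries.C (q : ℂ) + PowerSeries.C (e : ℂ) * PowerSeries.X := by
  apply PowerSeries.derivative.ext
  · rw [T_apply, derivative_tay]
    have : deriv (lin q e : ℝ → ℂ) = fun _ => (e : ℂ) := by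
      funext s
      change deriv (fun s : ℝ => (q : ℂ) + (e : ℂ) * (s : ℂ)) s = e
      have h1 : HasDerivAt (fun s : ℝ => (q : ℂ) + (e : ℂ) * (s : ℂ)) ((e : ℂ) * 1) s :=
        ((Complex.ofRealCLM.hasDerivAt (x := s)).const_mul (e : ℂ)).const_add (q : ℂ)
      rw [h1.deriv, mul_one]
    rw [this, tay_const, map_add, PowerSeries.derivative_C, zero_add, Derivation.leibniz,
      PowerSeries.derivative_C, PowerSeries.derivative_X]
    simp
  · rw [T_apply, constantCoeff_tay]
    simp [lin]

end Pool.Agent.Work.MP_59f3ad_nt.RTaylor
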