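import Mathlib
import Pool.Agent.Work.MP_59f3ad_nt.Bd.B04
import Pool.Agent.Work.MP_59f3ad_nt.Bd.B03
import Pool.Agent.Work.MP_59f3ad_nt.Bd.B02

/-!
The exceptional set of a family with several parameters.
-/

open Polynomial NumberField

namespace Pool.Agent.Work.MP_59f3ad_nt

universe u

section multi

variable {σ : Type} [Fintype σ]

/-- The substitution `T_i ↦ Y_i + v_i T`. -/
noncomputable def sliceHom (v : σ → ℤ) : MvPolynomial σ ℤ →+* (MvPolynomial σ ℤ)[X] :=
  MvPolynomial.eval₂Hom (Int.castRingHom _)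
    (fun i => C (MvPolynomial.X i) + C ((v i : ℤ) : MvPolynomial σ ℤ) * X)

omit [Fintype σ] in
theorem slice_line (v : σ → ℤ) (ψ : MvPolynomial σ ℤ →+* ℂ) :
    (mapRingHom ψ).comp (sliceHom v) = lineHom v (fun i => ψ (MvPolynomial.X i)) := by
  apply MvPolynomial.ringHom_ext
  · intro r
    simp [sliceHom, lineHom]
  · intro i
    simp [sliceHom, lineHom]

omit [Fintype σ] in
theorem slice_eval (v y : σ → ℤ) (s : ℤ) :
    ((evalRingHom s).comp (mapRingHom (MvPolynomial.eval y))).comp (sliceHom v) =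
      MvPolynomial.eval (fun i => y i + s * v i) := by
  apply MvPolynomial.ringHom_ext
  · intro r
    simp [sliceHom]
  · intro i
    simp [sliceHom]
    ring

/-- The ring homomorphism of `AdjoinRoot` induced by a ring homomorphism. -/
noncomputable def adjMap {A B : Type*} [CommRing A] [CommRing B] (f : A →+* B) (F : A[X]) :
    AdjoinRoot F →+* AdjoinRoot (F.map f) :=
  AdjoinRoot.lift ((AdjoinRoot.of (F.map f)).comp f) (AdjoinRoot.root (F.map f)) (by
    rw [← eval₂_map, AdjoinRoot.eval₂_root])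

theorem adjMap_mk {A B : Type*} [CommRing A] [CommRing B] (f : A →+* B) (F G : A[X]) :
    adjMap f F (AdjoinRoot.mk F G) = AdjoinRoot.mk (F.map f) (G.map f) := by
  rw [adjMap, AdjoinRoot.lift_mk, ← eval₂_map]
  have h := Polynomial.hom_eval₂ (G.map f) (C : B →+* B[X]) (AdjoinRoot.mk (F.map f)) X
  rw [eval₂_C_X] at h
  rw [h]
  rfl

theorem countable_mv (σ : Type) [Fintype σ] : Countable (MvPolynomial σ ℤ) := by
  rw [← Cardinal.mk_le_aleph0_iff]
  exact MvPolynomial.cardinalMk_le_max.trans (by simp)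

theorem exceptions_box (F : (MvPolynomial σ ℤ)[X]) (hF : F.Monic) (i0 : σ) (n : ℕ)
    (u : Fin n → (AdjoinRoot F)ˣ)
    (hu : ∀ E : Fin n → ℤ, E ≠ 0 →
      Transcendental ℤ ((∏ i, u i ^ E i : (AdjoinRoot F)ˣ) : AdjoinRoot F)) :
    ∃ (Bad : ℕ → Set (σ → ℤ)) (C : ℕ),
      (∀ p : ℕ, p.Prime → ∀ H : ℕ, 1 ≤ H →
        {t : σ → ℤ | (∀ i, |t i| ≤ H) ∧ t ∈ Bad p}.ncard ≤ C * p * H ^ (Fintype.card σ - 1)) ∧
      ∀ p : ℕ, p.Prime → ∀ t : σ → ℤ, t ∉ Bad p → Irreducible (F.map (MvPolynomial.eval t)) →
        ∀ (K : Type u) [Field K] [NumberField K] (x : 𝓞 K), Module.finrank ℚ K = F.natDegree →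
        aeval x (F.map (MvPolynomial.eval t)) = 0 →
        ∃ (w : Fin n → (𝓞 K)ˣ) (c : ℕ), PInd K p w c := by
  classical
  by_cases hex : ∃ t : σ → ℤ, Irreducible (F.map (MvPolynomial.eval t))
  swap
  · refine ⟨fun _ => ∅, 0, fun p _ H _ => ?_, fun p _ t _ h => absurd ⟨t, h⟩ hex⟩
    simp
  obtain ⟨t1, ht1⟩ := hex
  have hm1 : (F.map (MvPolynomial.eval t1)).Monic := hF.map _
  have hd : 1 ≤ F.natDegree := by
    have h1 : (F.map (MvPolynomial.eval t1)).natDegree = F.natDegree := hF.natDegree_map _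
    rw [← h1]
    by_contra hcon
    have h2 : (F.map (MvPolynomial.eval t1)).natDegree = 0 := by omega
    have h3 : F.map (MvPolynomial.eval t1) = 1 := hm1.natDegree_eq_zero.mp h2
    rw [h3] at ht1
    exact ht1.not_isUnit isUnit_one
  -- the separability polynomial
  have hsep1 : (F.map (((algebraMap ℚ ℂ).comp (Int.castRingHom ℚ)).comp
      (MvPolynomial.eval t1))).Separable := by
    have h1 : Irreducible ((F.map (MvPolynomial.eval t1)).map (Int.castRingHom ℚ)) :=
      (IsPrimitive.Int.irreducible_iff_irreducible_map_cast hm1.isPrimitive).mp ht1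
    have h2 : (((F.map (MvPolynomial.eval t1)).map (Int.castRingHom ℚ)).map
      (algebraMap ℚ ℂ)).Separable := h1.separable.map
    rwa [Polynomial.map_map, Polynomial.map_map] at h2
  obtain ⟨g, hg0, hg⟩ := exists_sepPoly F hF _ hsep1
  -- polynomial representatives
  choose H hH using fun i => AdjoinRoot.mk_surjective (u i : AdjoinRoot F)
  choose G hG using fun i => AdjoinRoot.mk_surjective ((u i)⁻¹ : (AdjoinRoot F)ˣ).val
  have hHG : ∀ l, F ∣ H l * G l - 1 := by
    intro l
    rw [← AdjoinRoot.mk_eq_zero, map_sub, map_mul, hH, hG, map_one, Units.mul_inv, sub_self]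
  -- the characteristic polynomials
  let χ : AdjoinRoot F → (MvPolynomial σ ℤ)[X] := fun η =>
    (Algebra.leftMulMatrix (AdjoinRoot.powerBasisAux' hF) η).charpoly
  have hχm : ∀ η, (χ η).Monic := fun η => Matrix.charpoly_monic _
  have hχd : ∀ η, (χ η).natDegree = F.natDegree := fun η => by
    simp only [χ]
    rw [Matrix.charpoly_natDegree_eq_dim, Fintype.card_fin]
  have hχr : ∀ η, aeval η (χ η) = 0 := by
    intro η
    apply Algebra.leftMulMatrix_injective (AdjoinRoot.powerBasisAux' hF)
    rw [← aeval_algHom_apply, map_zero]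
    exact Matrix.aeval_self_charpoly _
  let D : ℕ := ∑ l : Fin n, ∑ k ∈ Finset.range (F.natDegree + 1),
    ((χ (u l)).coeff k).totalDegree
  have hD : ∀ (l : Fin n) (k : ℕ), ((χ (u l)).coeff k).totalDegree ≤ D := by
    intro l k
    by_cases hk : k ∈ Finset.range (F.natDegree + 1)
    · have h1 : ((χ (u l)).coeff k).totalDegree ≤ ∑ k ∈ Finset.range (F.natDegree + 1),
          ((χ (u l)).coeff k).totalDegree :=
        Finset.single_le_sum (f := fun k => ((χ (u l)).coeff k).totalDegree)
          (fun _ _ => Nat.zero_le _) hk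
      exact h1.trans (Finset.single_le_sum (f := fun l : Fin n =>
        ∑ k ∈ Finset.range (F.natDegree + 1), ((χ (u l)).coeff k).totalDegree)
          (fun _ _ => Nat.zero_le _) (Finset.mem_univ l))
    · rw [coeff_eq_zero_of_natDegree_lt (by
        rw [hχd]
        rw [Finset.mem_range] at hk
        omega), MvPolynomial.totalDegree_zero]
      exact Nat.zero_le _
  obtain ⟨T, hT0, hT⟩ := exists_logDetC_fin n F.natDegree D
  let w : (Fin n → ℤ) → AdjoinRoot F := fun E => ((∏ i, u i ^ E i : (AdjoinRoot F)ˣ) : AdjoinRoot F)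
  have hk : ∀ E : Fin n → ℤ, ∃ k : ℕ, E ∈ T → 0 < ((χ (w E)).coeff k).totalDegree := by
    intro E
    by_cases hE : E ∈ T
    · obtain ⟨k, hk⟩ := exists_coeff_totalDegree_pos F hF (w E) (hu E (hT0 E hE))
      exact ⟨k, fun _ => hk⟩
    · exact ⟨0, fun h => absurd h hE⟩
  choose k hk using hk
  obtain ⟨v, hv0, hv⟩ := exists_direction (insert g (T.image fun E => (χ (w E)).coeff (k E)))
    (by
      intro c hc
      rw [Finset.mem_insert, Finset.mem_image] at hc
      rcases hc with rfl | ⟨E, hE, rfl⟩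
      · exact hg0
      · intro h
        have h1 := hk E hE
        rw [h, MvPolynomial.totalDegree_zero] at h1
        exact lt_irrefl _ h1) i0
  have hvg := hv g (Finset.mem_insert_self _ _)
  -- the separability on all lines
  have hsepy : ∀ y : σ → ℂ, ∃ t0 : ℂ, ((F.map (lineHom v y)).map (evC t0)).Separable := by
    intro y
    have h1 : lineHom v y g ≠ 0 := by
      intro h
      have h2 := coeff_lineHom v y g
      rw [h, coeff_zero] at h2
      exact hvg (by exact_mod_cast h2.symm)
    obtain ⟨t0, ht0⟩ : ∃ t0 : ℂ, (lineHom v y g).eval t0 ≠ 0 := by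
      by_contra hcon
      push Not at hcon
      exact h1 (Polynomial.funext fun t => by rw [hcon t, eval_zero])
    refine ⟨t0, ?_⟩
    rw [Polynomial.map_map]
    exact hg _ ht0
  -- the analytic input on all lines
  have hC : ∀ ψ : MvPolynomial σ ℤ →+* ℂ, ∃ B : ℝ, ∀ τ : ℝ, B < τ →
      LogDetC ((F.map (sliceHom v)).map (mapRingHom ψ))
        (fun l => ((H l).map (sliceHom v)).map (mapRingHom ψ)) τ := by
    intro ψ
    set y : σ → ℂ := fun i => ψ (MvPolynomial.X i) with hy
    simp only [Polynomial.map_map, slice_line, ← hy]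
    obtain ⟨t0, ht0⟩ := hsepy y
    let h := adjMap (lineHom v y) F
    refine hT (F.map (lineHom v y)) (hF.map _) (hF.natDegree_map _) t0 ht0
      (fun l => Units.map (h : AdjoinRoot F →* AdjoinRoot (F.map (lineHom v y))) (u l)) ?_ _
      (fun l => (G l).map (lineHom v y)) ?_ ?_ (fun l => (χ (u l)).map (lineHom v y)) ?_ ?_ ?_ ?_
    · intro E hE
      have h1 : ((∏ i, Units.map (h : AdjoinRoot F →* AdjoinRoot (F.map (lineHom v y)))
          (u i) ^ E i : (AdjoinRoot (F.map (lineHom v y)))ˣ) : AdjoinRoot (F.map (lineHom v y))) =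
          h (w E) := by
        have h2 : (∏ i, Units.map (h : AdjoinRoot F →* AdjoinRoot (F.map (lineHom v y)))
          (u i) ^ E i) = Units.map (h : AdjoinRoot F →* AdjoinRoot (F.map (lineHom v y)))
            (∏ i, u i ^ E i) := by
          rw [map_prod]
          simp only [map_zpow]
        rw [h2]
        rfl
      rw [h1]
      exact transcendental_line F hF (w E) (k E) _ rfl (hk E hE) v
        (hv _ (Finset.mem_insert_of_mem (Finset.mem_image_of_mem _ hE))) y t0 ht0 h
        (fun G => adjMap_mk _ F G)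
    · intro l
      rw [← adjMap_mk, hH]
      rfl
    · intro l
      have h1 := Polynomial.map_dvd (lineHom v y) (hHG l)
      rwa [Polynomial.map_sub, Polynomial.map_mul, Polynomial.map_one] at h1
    · intro l
      exact ((hχm _).map _).ne_zero
    · intro l
      exact natDegree_map_le.trans (hχd _).le
    · intro l k
      rw [coeff_map]
      exact (natDegree_lineHom_le v y _).trans (hD l k)
    · intro l t z hz
      rw [Polynomial.map_map, eval_map] at hz
      rw [Polynomial.map_map, Polynomial.map_map, eval_map, eval_map]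
      have h1 := congrArg (AdjoinRoot.lift ((evC t).comp (lineHom v y)) z hz) (hχr (u l))
      rw [map_zero, aeval_def, Polynomial.hom_eval₂, ← hH, AdjoinRoot.lift_mk] at h1
      have h2 : (AdjoinRoot.lift ((evC t).comp (lineHom v y)) z hz).comp
          (algebraMap (MvPolynomial σ ℤ) (AdjoinRoot F)) = (evC t).comp (lineHom v y) := by
        refine RingHom.ext fun f => ?_
        rw [RingHom.comp_apply, AdjoinRoot.algebraMap_eq]
        exact AdjoinRoot.lift_of _
      rw [h2] at h1
      rw [← hH]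
      exact h1
  have : Countable (MvPolynomial σ ℤ) := countable_mv σ
  have hHG1 : ∀ l, F.map (sliceHom v) ∣ (H l).map (sliceHom v) * (G l).map (sliceHom v) - 1 := by
    intro l
    have h1 := Polynomial.map_dvd (sliceHom v) (hHG l)
    rwa [Polynomial.map_sub, Polynomial.map_mul, Polynomial.map_one] at h1
  have hd1 : (F.map (sliceHom v)).natDegree = F.natDegree := hF.natDegree_map _
  obtain ⟨B', hB'⟩ := exceptions_gen.{u} (F.map (sliceHom v)) (hF.map _) (by rw [hd1]; exact hd)
    (fun l => (H l).map (sliceHom v)) (fun l => (G l).map (sliceHom v)) hHG1 hC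
  have hB'' : ∀ (p : ℕ) (y : σ → ℤ), ∃ Z : Set ℤ, p.Prime → Z.Finite ∧ Z.ncard ≤ B' * p ∧
      ∀ t : ℤ, t ∉ Z → Irreducible (((F.map (sliceHom v)).map
        (mapRingHom (MvPolynomial.eval y))).map (evalRingHom t)) →
      ∀ (K : Type u) [Field K] [NumberField K] (x : 𝓞 K),
      Module.finrank ℚ K = (F.map (sliceHom v)).natDegree →
      aeval x (((F.map (sliceHom v)).map (mapRingHom (MvPolynomial.eval y))).map
        (evalRingHom t)) = 0 →
      ∃ (u : Fin n → (𝓞 K)ˣ) (c : ℕ), PInd K p u c := by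
    intro p y
    by_cases hp : p.Prime
    · obtain ⟨Z, hZ⟩ := hB' p hp (MvPolynomial.eval y)
      exact ⟨Z, fun _ => hZ⟩
    · exact ⟨∅, fun h => absurd h hp⟩
  choose Z hZ using hB''
  obtain ⟨C, hCc⟩ := box_count v i0 hv0
  refine ⟨fun p => {t | t i0 / v i0 ∈ if p.Prime then Z p (fun i => t i - t i0 / v i0 * v i)
    else ∅}, C * B', ?_, ?_⟩
  · intro p hp H' hH'
    have h1 := hCc (B' * p) (fun y => Z p y) (fun y => ⟨(hZ p y hp).1, (hZ p y hp).2.1⟩) H' hH'
    simp only [Set.mem_ofPred_eq, if_pos hp]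
    calc _ ≤ _ := h1
      _ = _ := by ring
  · intro p hp t ht hirr K _ _ x hfin hx
    simp only [Set.mem_ofPred_eq, if_pos hp] at ht
    have hmap : ∀ P : (MvPolynomial σ ℤ)[X], ((P.map (sliceHom v)).map
        (mapRingHom (MvPolynomial.eval (fun i => t i - t i0 / v i0 * v i)))).map
        (evalRingHom (t i0 / v i0)) = P.map (MvPolynomial.eval t) := by
      intro P
      rw [Polynomial.map_map, Polynomial.map_map, slice_eval]
      congr 2
      funext i
      ring
    refine (hZ p _ hp).2.2 _ ht ?_ K x (hfin.trans hd1.symm) ?_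
    · rw [hmap]
      exact hirr
    · rw [hmap]
      exact hx

end multi

end Pool.Agent.Work.MP_59f3ad_nt
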