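import Mathlib

/-!
The units of the multi-parameter family are independent modulo constants.
-/

open Polynomial

namespace Pool.Agent.Work.MP_59f3ad_nt.Multi

/-- `∏ (X - a_i) ∏ ((X - b_k)^2 + 2 c_k^2)`. -/
noncomputable def genG {A : Type*} [CommRing A] {r1 r2 : ℕ} (a : Fin r1 → A) (b c : Fin r2 → A) :
    A[X] := (∏ i, (X - C (a i))) * ∏ k, ((X - C (b k)) ^ 2 + C (2 * c k ^ 2))

noncomputable def genF {A : Type*} [CommRing A] {r1 r2 : ℕ} (a : Fin r1 → A) (b c : Fin r2 → A) :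
    A[X] := genG a b c - 1

abbrev Idx (r1 r2 : ℕ) := Fin r1 ⊕ Fin r2 ⊕ Fin r2

/-- the generic member -/
noncomputable def genP (r1 r2 : ℕ) : (MvPolynomial (Idx r1 r2) ℤ)[X] :=
  genF (fun i => MvPolynomial.X (Sum.inl i)) (fun k => MvPolynomial.X (Sum.inr (Sum.inl k)))
    (fun k => MvPolynomial.X (Sum.inr (Sum.inr k)))

/-- its factors -/
noncomputable def genH (r1 r2 : ℕ) : Fin r1 ⊕ Fin r2 → (MvPolynomial (Idx r1 r2) ℤ)[X]
  | Sum.inl i => X - C (MvPolynomial.X (Sum.inl i))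
  | Sum.inr k => (X - C (MvPolynomial.X (Sum.inr (Sum.inl k)))) ^ 2 +
      C (2 * MvPolynomial.X (Sum.inr (Sum.inr k)) ^ 2)

namespace GenUnits

/-- A monic nonconstant complex polynomial which is small at a point has a root nearby. -/
theorem exists_root_near (f : ℂ[X]) (hf : f.Monic) (hd : f.natDegree ≠ 0) (x0 : ℂ)
    (h : ‖f.eval x0‖ ≤ 1) : ∃ z, f.eval z = 0 ∧ ‖z - x0‖ ≤ 1 := by
  by_contra hcon
  push Not at hcon
  have key : ∀ s : Multiset ℂ, s ≠ 0 → (∀ z ∈ s, 1 < ‖x0 - z‖) →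
      1 < ‖(s.map fun z => x0 - z).prod‖ := by
    intro s
    induction s using Multiset.induction with
    | empty => intro h0; exact absurd rfl h0
    | cons a s ih =>
      intro _ hs
      rw [Multiset.map_cons, Multiset.prod_cons, norm_mul]
      have h1 : 1 < ‖x0 - a‖ := hs a (Multiset.mem_cons_self a s)
      by_cases h0 : s = 0
      · subst h0
        simpa using h1
      · have h2 := ih h0 fun z hz => hs z (Multiset.mem_cons_of_mem hz)
        nlinarith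
  have hs : f.Splits := IsAlgClosed.splits f
  have h1 : f.eval x0 = (f.roots.map fun z => x0 - z).prod := by
    conv_lhs => rw [hs.eq_prod_roots_of_monic hf]
    rw [eval_multiset_prod, Multiset.map_map]
    simp
  have h2 : f.roots ≠ 0 := by
    intro h0
    have := hs.natDegree_eq_card_roots
    rw [h0, Multiset.card_zero] at this
    exact hd this
  have h3 := key f.roots h2 fun z hz => by
    rw [norm_sub_rev]
    exact hcon z (isRoot_of_mem_roots hz)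
  rw [← h1] at h3
  linarith

/-- The special point. -/
noncomputable def pt (r1 r2 Q : ℕ) : Idx r1 r2 → ℂ
  | Sum.inl i => Q * (i : ℕ)
  | Sum.inr (Sum.inl k) => Q * (k : ℕ)
  | Sum.inr (Sum.inr _) => Q

noncomputable def phi (r1 r2 Q : ℕ) : MvPolynomial (Idx r1 r2) ℤ →+* ℂ :=
  MvPolynomial.eval₂Hom (Int.castRingHom ℂ) (pt r1 r2 Q)

/-- Values of the factors. -/
noncomputable def hh (r1 r2 Q : ℕ) (z : ℂ) : Fin r1 ⊕ Fin r2 → ℂ
  | Sum.inl i => z - Q * (i : ℕ)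
  | Sum.inr k => (z - Q * (k : ℕ)) ^ 2 + 2 * (Q : ℂ) ^ 2

/-- Degrees of the factors. -/
def dg {r1 r2 : ℕ} : Fin r1 ⊕ Fin r2 → ℕ
  | Sum.inl _ => 1
  | Sum.inr _ => 2

/-- Centers. -/
noncomputable def cen {r1 r2 : ℕ} : Fin r1 ⊕ Fin r2 → ℂ
  | Sum.inl i => (i : ℕ)
  | Sum.inr k => (k : ℕ) + (Real.sqrt 2 : ℂ) * Complex.I

theorem eval₂_genH (r1 r2 Q : ℕ) (z : ℂ) (j : Fin r1 ⊕ Fin r2) :
    (genH r1 r2 j).eval₂ (phi r1 r2 Q) z = hh r1 r2 Q z j := by
  rcases j with i | k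
  · simp [genH, hh, phi, pt, eval₂_sub]
  · simp [genH, hh, phi, pt, eval₂_sub, eval₂_add, eval₂_pow]

theorem genP_eq (r1 r2 : ℕ) : genP r1 r2 = (∏ j, genH r1 r2 j) - 1 := by
  rw [Fintype.prod_sum_type]
  rfl

theorem eval₂_genP (r1 r2 Q : ℕ) (z : ℂ) :
    (genP r1 r2).eval₂ (phi r1 r2 Q) z = (∏ j, hh r1 r2 Q z j) - 1 := by
  rw [genP_eq, eval₂_sub, eval₂_finsetProd, eval₂_one]
  simp only [eval₂_genH]

theorem sqrt2_I_sq : ((Real.sqrt 2 : ℂ) * Complex.I) ^ 2 = -2 := by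
  rw [mul_pow, Complex.I_sq, ← Complex.ofReal_pow, Real.sq_sqrt (by norm_num)]
  norm_num

theorem hh_inr (r1 r2 Q : ℕ) (z : ℂ) (k : Fin r2) :
    hh r1 r2 Q z (Sum.inr k) =
      (z - Q * ((k : ℕ) + (Real.sqrt 2 : ℂ) * Complex.I)) *
        (z - Q * ((k : ℕ) - (Real.sqrt 2 : ℂ) * Complex.I)) := by
  have h := sqrt2_I_sq
  simp only [hh]
  linear_combination ((Q : ℂ) ^ 2) * h

theorem hh_center (r1 r2 Q : ℕ) (j : Fin r1 ⊕ Fin r2) : hh r1 r2 Q (Q * cen j) j = 0 := by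
  rcases j with i | k
  · simp [hh, cen]
  · rw [hh_inr, cen]
    ring

theorem genH_monic (r1 r2 : ℕ) (j : Fin r1 ⊕ Fin r2) : (genH r1 r2 j).Monic := by
  rcases j with i | k
  · exact monic_X_sub_C _
  · rw [genH]
    monicity!

theorem genH_natDegree (r1 r2 : ℕ) (j : Fin r1 ⊕ Fin r2) :
    (genH r1 r2 j).natDegree = dg j := by
  rcases j with i | k
  · exact natDegree_X_sub_C _
  · rw [genH, dg]
    compute_degree!

theorem sum_dg (r1 r2 : ℕ) : ∑ j : Fin r1 ⊕ Fin r2, dg j = r1 + 2 * r2 := by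
  rw [Fintype.sum_sum_type]
  simp [dg]
  ring

theorem genP_monic_natDegree (r1 r2 : ℕ) (hd : 1 ≤ r1 + 2 * r2) :
    (genP r1 r2).Monic ∧ (genP r1 r2).natDegree = r1 + 2 * r2 := by
  have hm : (∏ j, genH r1 r2 j).Monic := monic_prod_of_monic _ _ fun j _ => genH_monic r1 r2 j
  have hn : (∏ j, genH r1 r2 j).natDegree = r1 + 2 * r2 := by
    rw [natDegree_prod_of_monic _ _ fun j _ => genH_monic r1 r2 j]
    simp only [genH_natDegree, sum_dg]
  rw [genP_eq]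
  constructor
  · refine hm.sub_of_left ?_
    rw [degree_eq_natDegree hm.ne_zero, hn, degree_one]
    exact_mod_cast hd
  · rw [← C_1, natDegree_sub_C, hn]

/-- Roots near the centers. -/
theorem exists_root (r1 r2 : ℕ) (hd : 1 ≤ r1 + 2 * r2) (Q : ℕ) (j : Fin r1 ⊕ Fin r2) :
    ∃ z : ℂ, (genP r1 r2).eval₂ (phi r1 r2 Q) z = 0 ∧ ‖z - Q * cen j‖ ≤ 1 := by
  obtain ⟨hm, hn⟩ := genP_monic_natDegree r1 r2 hd
  obtain ⟨z, hz, hz'⟩ := exists_root_near ((genP r1 r2).map (phi r1 r2 Q)) (hm.map _)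
    (by rw [hm.natDegree_map, hn]; omega) (Q * cen j) (by
      rw [eval_map, eval₂_genP, Finset.prod_eq_zero (Finset.mem_univ j) (hh_center r1 r2 Q j)]
      simp)
  exact ⟨z, by rwa [eval_map] at hz, hz'⟩

theorem bound_aux {e e' z : ℂ} {Q M : ℝ} (hQ : 2 ≤ Q) (h1 : 1 ≤ ‖e - e'‖)
    (h2 : ‖e - e'‖ ≤ M) (hz : ‖z - Q * e‖ ≤ 1) :
    Q / 2 ≤ ‖z - Q * e'‖ ∧ ‖z - Q * e'‖ ≤ Q * (M + 1) := by
  have hq : ‖(Q : ℂ) * e - Q * e'‖ = Q * ‖e - e'‖ := by
    rw [← mul_sub, norm_mul, Complex.norm_real, Real.norm_of_nonneg (by linarith)]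
  have e1 : z - Q * e' = (z - Q * e) + ((Q : ℂ) * e - Q * e') := by ring
  constructor
  · have h3 : ‖(Q : ℂ) * e - Q * e'‖ ≤ ‖z - Q * e'‖ + ‖z - Q * e‖ := by
      have : (Q : ℂ) * e - Q * e' = (z - Q * e') - (z - Q * e) := by ring
      rw [this]
      exact norm_sub_le _ _
    rw [hq] at h3
    nlinarith
  · have h3 : ‖z - Q * e'‖ ≤ ‖z - Q * e‖ + ‖(Q : ℂ) * e - Q * e'‖ := by
      rw [e1]
      exact norm_add_le _ _
    rw [hq] at h3
    nlinarith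

/-- Points `m + s sqrt(-2)`. -/
noncomputable def cc (m : ℕ) (s : ℝ) : ℂ := (m : ℂ) + ((s * Real.sqrt 2 : ℝ) : ℂ) * Complex.I

theorem cc_dist (m n : ℕ) (s t R : ℝ) (hm : (m : ℝ) ≤ R) (hn : (n : ℝ) ≤ R)
    (hst : |s - t| ≤ 2) (h : m ≠ n ∨ 1 ≤ |s - t|) :
    1 ≤ ‖cc m s - cc n t‖ ∧ ‖cc m s - cc n t‖ ≤ R + 3 := by
  have hre : (cc m s - cc n t).re = m - n := by simp [cc]
  have him : (cc m s - cc n t).im = (s - t) * Real.sqrt 2 := by
    simp [cc]
    ring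
  have h2 : Real.sqrt 2 ≤ 3 / 2 := by
    rw [Real.sqrt_le_left (by norm_num)]
    norm_num
  have h1 : 1 ≤ Real.sqrt 2 := Real.one_le_sqrt.2 (by norm_num)
  constructor
  · rcases h with h | h
    · refine le_trans ?_ (Complex.abs_re_le_norm _)
      rw [hre]
      have h3 : (1 : ℤ) ≤ |(m : ℤ) - n| := Int.one_le_abs (by omega)
      exact_mod_cast h3
    · refine le_trans ?_ (Complex.abs_im_le_norm _)
      rw [him, abs_mul, abs_of_pos (by linarith : 0 < Real.sqrt 2)]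
      nlinarith
  · refine (Complex.norm_le_abs_re_add_abs_im _).trans ?_
    rw [hre, him, abs_mul, abs_of_pos (by linarith : 0 < Real.sqrt 2)]
    have h4 : |(m : ℝ) - n| ≤ R := by
      rw [abs_le]
      constructor
      · have : (0 : ℝ) ≤ m := Nat.cast_nonneg m
        linarith
      · have : (0 : ℝ) ≤ n := Nat.cast_nonneg n
        linarith
    nlinarith [abs_nonneg (s - t)]

theorem cen_inl {r1 r2 : ℕ} (i : Fin r1) : cen (r2 := r2) (Sum.inl i) = cc i 0 := by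
  simp [cen, cc]

theorem cen_inr {r1 r2 : ℕ} (k : Fin r2) : cen (r1 := r1) (Sum.inr k) = cc k 1 := by
  simp [cen, cc]

theorem hh_inl' (r1 r2 Q : ℕ) (z : ℂ) (i : Fin r1) :
    hh r1 r2 Q z (Sum.inl i) = z - Q * cc i 0 := by
  simp [hh, cc]

theorem hh_inr' (r1 r2 Q : ℕ) (z : ℂ) (k : Fin r2) :
    hh r1 r2 Q z (Sum.inr k) = (z - Q * cc k 1) * (z - Q * cc k (-1)) := by
  rw [hh_inr, cc, cc]
  push_cast
  ring

theorem hh_bound (r1 r2 : ℕ) {i j : Fin r1 ⊕ Fin r2} (hij : i ≠ j) {Q : ℕ} (hQ : 2 ≤ Q) {z : ℂ}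
    (hz : ‖z - Q * cen j‖ ≤ 1) :
    ((Q : ℝ) / 2) ^ (dg i) ≤ ‖hh r1 r2 Q z i‖ ∧
      ‖hh r1 r2 Q z i‖ ≤ ((Q : ℝ) * (((r1 : ℝ) + r2) + 3 + 1)) ^ (dg i) := by
  have hQ' : (2 : ℝ) ≤ Q := by exact_mod_cast hQ
  have hb1 : ∀ i : Fin r1, ((i : ℕ) : ℝ) ≤ (r1 : ℝ) + r2 := fun i => by
    have : ((i : ℕ) : ℝ) ≤ r1 := by exact_mod_cast i.2.le
    have : (0 : ℝ) ≤ r2 := Nat.cast_nonneg _
    linarith
  have hb2 : ∀ i : Fin r2, ((i : ℕ) : ℝ) ≤ (r1 : ℝ) + r2 := fun i => by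
    have : ((i : ℕ) : ℝ) ≤ r2 := by exact_mod_cast i.2.le
    have : (0 : ℝ) ≤ r1 := Nat.cast_nonneg _
    linarith
  have key : ∀ (m n : ℕ) (s t : ℝ), (m : ℝ) ≤ (r1 : ℝ) + r2 → (n : ℝ) ≤ (r1 : ℝ) + r2 →
      |s - t| ≤ 2 → (m ≠ n ∨ 1 ≤ |s - t|) → ‖z - Q * cc m s‖ ≤ 1 →
      (Q : ℝ) / 2 ≤ ‖z - Q * cc n t‖ ∧ ‖z - Q * cc n t‖ ≤ Q * (((r1 : ℝ) + r2) + 3 + 1) := by
    intro m n s t hm hn hst h hz
    obtain ⟨h1, h2⟩ := cc_dist m n s t _ hm hn hst h
    have := bound_aux (z := z) (Q := Q) hQ' h1 h2 (by exact_mod_cast hz)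
    exact_mod_cast this
  have two : ∀ {A B x y : ℝ}, 0 ≤ A → A ≤ x ∧ x ≤ B → A ≤ y ∧ y ≤ B →
      A ^ 2 ≤ x * y ∧ x * y ≤ B ^ 2 := by
    intro A B x y hA hx hy
    constructor
    · nlinarith [hx.1, hy.1]
    · nlinarith [hx.1, hy.1, hx.2, hy.2]
  have hQ0 : (0 : ℝ) ≤ (Q : ℝ) / 2 := by linarith
  rcases j with j | j <;> rcases i with i | i
  · rw [cen_inl] at hz
    rw [hh_inl', dg, pow_one, pow_one]
    refine key j i 0 0 (hb1 _) (hb1 _) (by norm_num) (Or.inl ?_) hz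
    intro h
    exact hij (by rw [Fin.ext h])
  · rw [cen_inl] at hz
    rw [hh_inr', dg, norm_mul]
    exact two hQ0 (key j i 0 1 (hb1 _) (hb2 _) (by norm_num) (Or.inr (by norm_num)) hz)
      (key j i 0 (-1) (hb1 _) (hb2 _) (by norm_num) (Or.inr (by norm_num)) hz)
  · rw [cen_inr] at hz
    rw [hh_inl', dg, pow_one, pow_one]
    exact key j i 1 0 (hb2 _) (hb1 _) (by norm_num) (Or.inr (by norm_num)) hz
  · rw [cen_inr] at hz
    rw [hh_inr', dg, norm_mul]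
    have hne : (j : ℕ) ≠ i := by
      intro h
      exact hij (by rw [Fin.ext h])
    exact two hQ0 (key j i 1 1 (hb2 _) (hb2 _) (by norm_num) (Or.inl hne) hz)
      (key j i 1 (-1) (hb2 _) (hb2 _) (by norm_num) (Or.inl hne) hz)

theorem log_bound (r1 r2 : ℕ) {i j : Fin r1 ⊕ Fin r2} (hij : i ≠ j) {Q : ℕ} (hQ : 2 ≤ Q) {z : ℂ}
    (hz : ‖z - Q * cen j‖ ≤ 1) :
    |Real.log ‖hh r1 r2 Q z i‖ - (dg i : ℝ) * Real.log Q| ≤
      (dg i : ℝ) * (Real.log 2 + Real.log (((r1 : ℝ) + r2) + 3 + 1)) := by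
  obtain ⟨h1, h2⟩ := hh_bound r1 r2 hij hQ hz
  have hQ' : (2 : ℝ) ≤ Q := by exact_mod_cast hQ
  have hM : (1 : ℝ) ≤ ((r1 : ℝ) + r2) + 3 + 1 := by
    have h3 : (0 : ℝ) ≤ r1 := Nat.cast_nonneg _
    have h4 : (0 : ℝ) ≤ r2 := Nat.cast_nonneg _
    linarith
  have hpos : 0 < ((Q : ℝ) / 2) ^ (dg i) := by positivity
  have h3 := Real.log_le_log hpos h1
  have h4 := Real.log_le_log (hpos.trans_le h1) h2
  rw [Real.log_pow, Real.log_div (by linarith) (by norm_num)] at h3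
  rw [Real.log_pow, Real.log_mul (by linarith) (by linarith)] at h4
  have h5 : 0 ≤ Real.log 2 := Real.log_nonneg (by norm_num)
  have h6 : 0 ≤ Real.log (((r1 : ℝ) + r2) + 3 + 1) := Real.log_nonneg hM
  have h7 : (0 : ℝ) ≤ dg i := Nat.cast_nonneg _
  rw [abs_le]
  constructor
  · nlinarith [mul_nonneg h7 h6]
  · nlinarith [mul_nonneg h7 h5]

/-- The logarithms of the roots of a nonzero polynomial are bounded. -/
theorem exists_log_bound (P : ℤ[X]) (hP : P ≠ 0) :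
    ∃ B : ℝ, ∀ x : ℂ, aeval x P = 0 → |Real.log ‖x‖| ≤ B := by
  have hfin : {x : ℂ | aeval x P = 0}.Finite := by
    have h1 : P.map (Int.castRingHom ℂ) ≠ 0 := by
      intro h
      exact hP ((Polynomial.map_eq_zero_iff (Int.castRingHom ℂ).injective_int).1 h)
    refine (finite_setOfPred_isRoot h1).subset fun x hx => ?_
    rw [Set.mem_ofPred_eq] at hx ⊢
    rw [IsRoot, eval_map, ← hx]
    rfl
  obtain ⟨B, hB⟩ := (hfin.image fun x => |Real.log ‖x‖|).bddAbove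
  exact ⟨B, fun x hx => hB ⟨x, hx, rfl⟩⟩

end GenUnits

open GenUnits

/-- The units are independent modulo constants. -/
theorem gen_transcendental (r1 r2 : ℕ) (hd : 1 ≤ r1 + 2 * r2)
    (u : Fin r1 ⊕ Fin r2 → (AdjoinRoot (genP r1 r2))ˣ)
    (hu : ∀ j, (u j : AdjoinRoot (genP r1 r2)) = AdjoinRoot.mk _ (genH r1 r2 j))
    (j0 : Fin r1 ⊕ Fin r2) (E : Fin r1 ⊕ Fin r2 → ℤ) (hE0 : E j0 = 0) (hE : E ≠ 0) :
    Transcendental ℤ ((∏ j, u j ^ E j : (AdjoinRoot (genP r1 r2))ˣ) : AdjoinRoot (genP r1 r2)) := by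
  rintro ⟨P0, hP0, hP⟩
  obtain ⟨B, hB⟩ := exists_log_bound P0 hP0
  set L : ℝ := Real.log 2 + Real.log (((r1 : ℝ) + r2) + 3 + 1) with hL
  have key : ∀ j, ∑ i, (E i - E j) * (dg i : ℤ) = 0 := by
    intro j
    set N : ℤ := ∑ i, (E i - E j) * (dg i : ℤ) with hN
    set B2 : ℝ := ∑ i, |((E i - E j : ℤ) : ℝ)| * ((dg i : ℝ) * L) with hB2
    have hmain : ∀ Q : ℕ, 2 ≤ Q → |(N : ℝ)| * Real.log Q ≤ B + B2 := by
      intro Q hQ
      obtain ⟨z, hz, hz'⟩ := exists_root r1 r2 hd Q j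
      let ψ : AdjoinRoot (genP r1 r2) →+* ℂ := AdjoinRoot.lift (phi r1 r2 Q) z hz
      have hψu : ∀ i, ψ (u i) = hh r1 r2 Q z i := by
        intro i
        rw [hu, ← eval₂_genH]
        exact AdjoinRoot.lift_mk _ _
      have hψ0 : ∀ i, hh r1 r2 Q z i ≠ 0 := by
        intro i
        rw [← hψu]
        exact ((u i).isUnit.map ψ).ne_zero
      have hprod : ∏ i, hh r1 r2 Q z i = 1 := by
        rw [eval₂_genP] at hz
        linear_combination hz
      have hw : ψ ((∏ j, u j ^ E j : (AdjoinRoot (genP r1 r2))ˣ) : AdjoinRoot (genP r1 r2)) =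
          ∏ i, hh r1 r2 Q z i ^ E i := by
        have h1 : ψ ((∏ j, u j ^ E j : (AdjoinRoot (genP r1 r2))ˣ) : AdjoinRoot (genP r1 r2)) =
            ((Units.map (ψ : AdjoinRoot (genP r1 r2) →* ℂ) (∏ j, u j ^ E j) : ℂˣ) : ℂ) := rfl
        rw [h1, map_prod, Units.coe_prod]
        refine Finset.prod_congr rfl fun i _ => ?_
        rw [map_zpow, Units.val_zpow_eq_zpow_val, Units.coe_map, MonoidHom.coe_coe, hψu]
      have hroot : aeval (∏ i, hh r1 r2 Q z i ^ E i) P0 = 0 := by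
        rw [← hw]
        have h1 := congrArg ψ hP
        rw [map_zero] at h1
        rw [← h1]
        exact Polynomial.aeval_algHom_apply ψ.toIntAlgHom _ P0
      have hlog := hB _ hroot
      have e1 : Real.log ‖∏ i, hh r1 r2 Q z i ^ E i‖ =
          ∑ i, (E i : ℝ) * Real.log ‖hh r1 r2 Q z i‖ := by
        rw [norm_prod, Real.log_prod fun i _ => norm_ne_zero_iff.2 (zpow_ne_zero _ (hψ0 i))]
        refine Finset.sum_congr rfl fun i _ => ?_
        rw [norm_zpow, Real.log_zpow]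
      have e2 : ∑ i, Real.log ‖hh r1 r2 Q z i‖ = 0 := by
        rw [← Real.log_prod fun i _ => by simpa using hψ0 i, ← norm_prod, hprod]
        simp
      have e3 : ∑ i, (E i : ℝ) * Real.log ‖hh r1 r2 Q z i‖ =
          ∑ i, ((E i - E j : ℤ) : ℝ) * Real.log ‖hh r1 r2 Q z i‖ := by
        have : ∑ i, ((E i - E j : ℤ) : ℝ) * Real.log ‖hh r1 r2 Q z i‖ =
            ∑ i, (E i : ℝ) * Real.log ‖hh r1 r2 Q z i‖ -
              (E j : ℝ) * ∑ i, Real.log ‖hh r1 r2 Q z i‖ := by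
          rw [Finset.mul_sum, ← Finset.sum_sub_distrib]
          refine Finset.sum_congr rfl fun i _ => ?_
          push_cast
          ring
        rw [this, e2]
        ring
      have e4 : |∑ i, ((E i - E j : ℤ) : ℝ) * Real.log ‖hh r1 r2 Q z i‖ -
          (N : ℝ) * Real.log Q| ≤ B2 := by
        have h1 : (N : ℝ) * Real.log Q =
            ∑ i, ((E i - E j : ℤ) : ℝ) * ((dg i : ℝ) * Real.log Q) := by
          rw [hN]
          push_cast
          rw [Finset.sum_mul]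
          refine Finset.sum_congr rfl fun i _ => by ring
        rw [h1, ← Finset.sum_sub_distrib]
        refine (Finset.abs_sum_le_sum_abs _ _).trans ?_
        refine Finset.sum_le_sum fun i _ => ?_
        rw [← mul_sub, abs_mul]
        by_cases hij : i = j
        · subst hij
          simp
        · exact mul_le_mul_of_nonneg_left (log_bound r1 r2 hij hQ hz') (abs_nonneg _)
      rw [e1, e3] at hlog
      have hlogQ : 0 ≤ Real.log Q := Real.log_natCast_nonneg Q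
      rw [← abs_of_nonneg hlogQ, ← abs_mul]
      have h5 : (N : ℝ) * Real.log Q =
          ∑ i, ((E i - E j : ℤ) : ℝ) * Real.log ‖hh r1 r2 Q z i‖ -
          (∑ i, ((E i - E j : ℤ) : ℝ) * Real.log ‖hh r1 r2 Q z i‖ -
            (N : ℝ) * Real.log Q) := by ring
      rw [h5]
      refine (abs_sub _ _).trans ?_
      linarith
    by_contra hne
    have h1 : (1 : ℝ) ≤ |(N : ℝ)| := by
      have : (1 : ℤ) ≤ |N| := Int.one_le_abs hne
      exact_mod_cast this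
    obtain ⟨Q, hQ⟩ := exists_nat_gt (Real.exp (B + B2))
    have h2 := hmain (Q + 2) (by omega)
    have h3 : B + B2 < Real.log ((Q + 2 : ℕ) : ℝ) := by
      rw [Real.lt_log_iff_exp_lt (by positivity)]
      push_cast
      linarith
    have h4 : 0 ≤ Real.log ((Q + 2 : ℕ) : ℝ) := Real.log_natCast_nonneg _
    nlinarith
  have hsum : ∑ i, E i * (dg i : ℤ) = 0 := by
    have := key j0
    rw [hE0] at this
    simpa using this
  apply hE
  funext j
  have h1 := key j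
  have h2 : ∑ i, (E i - E j) * (dg i : ℤ) = ∑ i, E i * (dg i : ℤ) - E j * (r1 + 2 * r2) := by
    have h3 : ((∑ i : Fin r1 ⊕ Fin r2, dg i : ℕ) : ℤ) = r1 + 2 * r2 := by
      rw [sum_dg]
      push_cast
      ring
    rw [← h3, Nat.cast_sum, Finset.mul_sum, ← Finset.sum_sub_distrib]
    refine Finset.sum_congr rfl fun i _ => by ring
  rw [h2, hsum, zero_sub, neg_eq_zero] at h1
  rcases mul_eq_zero.1 h1 with h | h
  · exact h
  · omega

end Pool.Agent.Work.MP_59f3ad_nt.Multi
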