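import Mathlib
import Pool.Agent.Work.MP_59f3ad_nt.Bd.B03
import Pool.Agent.Work.MP_59f3ad_nt.Bd.B04

/-!
The defect inequality: if `L` has `n` `p`-adically independent units then the `ℤ_p`-rank of the
group of locally trivial classes is at most the unit rank minus `n`.
-/

open NumberField IsDedekindDomain

namespace Pool.Agent.Work.MP_59f3ad_nt

universe u

theorem zpw_intCast_mul {F : Type*} [Field F] {p : ℕ} [Fact p.Prime] {n : ℕ} {ζ : F}
    (hζ : ζ ^ p ^ n = 1) (k : ℤ) (a : ℤ_[p]) :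
    zpw p n ζ ((k : ℤ_[p]) * a) = zpw p n ζ a ^ k := by
  obtain ⟨j, rfl | rfl⟩ := k.eq_nat_or_neg
  · rw [zpow_natCast, ← zpw_natCast_mul hζ]
    push_cast; rfl
  · rw [zpow_neg, zpow_natCast, ← zpw_natCast_mul hζ, ← zpw_neg hζ]
    congr 1
    push_cast; ring

theorem zpw_sum {F ι : Type*} [Field F] {p : ℕ} [Fact p.Prime] {n : ℕ} {ζ : F}
    (hζ : ζ ^ p ^ n = 1) (s : Finset ι) (f : ι → ℤ_[p]) :
    zpw p n ζ (∑ i ∈ s, f i) = ∏ i ∈ s, zpw p n ζ (f i) := by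
  classical
  induction s using Finset.induction_on with
  | empty => simpa using zpw_zero hζ
  | insert a s ha ih => rw [Finset.sum_insert ha, Finset.prod_insert ha, zpw_add hζ, ih]

/-- Units congruent to one modulo `q`: products of integral powers stay congruent to one. -/
theorem dvd_prod_zpow_sub_one {R ι : Type*} [CommRing R] (q : R) (s : Finset ι) (w : ι → Rˣ)
    (h : ∀ i ∈ s, q ∣ (w i : R) - 1) (e : ι → ℤ) (τ : ℤ) :
    q ∣ (((∏ i ∈ s, w i ^ e i) ^ τ : Rˣ) : R) - 1 := by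
  classical
  set I : Ideal R := Ideal.span {q} with hI
  have key : ∀ x : Rˣ, q ∣ (x : R) - 1 ↔ Units.map (Ideal.Quotient.mk I).toMonoidHom x = 1 := by
    intro x
    rw [← Ideal.mem_span_singleton, ← hI, ← Ideal.Quotient.eq, Units.ext_iff]
    rfl
  rw [key, map_zpow, map_prod]
  have h1 : ∏ i ∈ s, Units.map (Ideal.Quotient.mk I).toMonoidHom (w i ^ e i) = 1 := by
    refine Finset.prod_eq_one fun i hi => ?_
    rw [map_zpow, (key _).1 (h i hi), one_zpow]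
  rw [h1, one_zpow]

variable (L : Type u) [Field L] [NumberField L] (p : ℕ) [Fact p.Prime]

/-- Kummer data of a locally trivial cocycle together with a unit congruent to one. -/
theorem kummer_unit (S : Set (HeightOneSpectrum (𝓞 L)))
    (hSp : ∀ v : HeightOneSpectrum (𝓞 L), (p : 𝓞 L) ∈ v.asIdeal → v ∈ S) (T : ℕ)
    (hT : ∀ (n : ℕ) (u : (𝓞 L)ˣ),
      (∀ v : HeightOneSpectrum (𝓞 L), (p : 𝓞 L) ∈ v.asIdeal →
        ∃ η : v.adicCompletion L, η ^ (p ^ n) = algebraMap L (v.adicCompletion L) ((u : 𝓞 L) : L)) →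
      (p : 𝓞 L) ^ (n + 1) ∣ (u : 𝓞 L) ^ T - 1)
    (φ : GK L → ℤ_[p]) (hφ : φ ∈ ShaZ L p 1 S) (n : ℕ) (ζ : AlgebraicClosure L)
    (hζ : IsPrimitiveRoot ζ (p ^ n)) :
    ∃ (β : AlgebraicClosure L) (α : L) (u : (𝓞 L)ˣ) (γ : L), β ≠ 0 ∧
      (∀ g : GK L, g β = zpw p n ζ (φ g) * β) ∧
      algebraMap L (AlgebraicClosure L) α = β ^ p ^ n ∧ γ ≠ 0 ∧
      α ^ (classNumber L) = ((u : 𝓞 L) : L) * γ ^ (p ^ n) ∧
      (p : 𝓞 L) ^ (n + 1) ∣ ((u ^ T : (𝓞 L)ˣ) : 𝓞 L) - 1 := by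
  have hp : p.Prime := Fact.out
  obtain ⟨β, α, hβ0, hβ, hα, hβS, hloc⟩ := kummer_data L p S φ hφ n ζ hζ
  have hpn : p ^ n ≠ 0 := pow_ne_zero _ hp.ne_zero
  have hα0 : α ≠ 0 := by
    rintro rfl
    rw [map_zero] at hα
    exact hβ0 (pow_eq_zero_iff hpn |>.mp hα.symm)
  have hval : ∀ w : HeightOneSpectrum (𝓞 L), ∃ y : L,
      w.valuation L α = w.valuation L y ^ p ^ n := by
    intro w
    by_cases hw : w ∈ S
    · obtain ⟨η, hη⟩ := hloc w hw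
      obtain ⟨y, hy⟩ := w.valuation_surjective L (Valued.v η)
      refine ⟨y, ?_⟩
      rw [hy, ← map_pow, hη]
      exact (w.valuedAdicCompletion_eq_valuation' α).symm
    · exact valuation_pow_of_mem_maxUnram L S w hw _ β hβS α hα0 hα
  obtain ⟨u, γ, hγ0, hu⟩ := exists_unit_mul_pow L (p ^ n) hpn α hα0 hval
  refine ⟨β, α, u, γ, hβ0, hβ, hα, hγ0, hu, ?_⟩
  rw [Units.val_pow_eq_pow_val]
  refine hT n u fun v hv => ?_
  obtain ⟨η, hη⟩ := hloc v (hSp v hv)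
  refine ⟨η ^ (classNumber L) / algebraMap L _ γ, ?_⟩
  have h1 : algebraMap L (v.adicCompletion L) γ ≠ 0 := by
    rw [Ne, map_eq_zero]
    exact hγ0
  rw [div_pow, ← pow_mul, mul_comm (classNumber L), pow_mul, hη, ← map_pow, hu, map_mul, map_pow]
  field_simp

/-- Modulo `p^m`, some primitive combination of the cocycles is a coboundary. -/
theorem mod_coboundary_fam {n : ℕ}
    (u : Fin n → (𝓞 L)ˣ) (c : ℕ) (hu : PInd L p u c) (S : Set (HeightOneSpectrum (𝓞 L)))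
    (hSp : ∀ v : HeightOneSpectrum (𝓞 L), (p : 𝓞 L) ∈ v.asIdeal → v ∈ S) (T : ℕ)
    (hT : ∀ (n : ℕ) (u : (𝓞 L)ˣ),
      (∀ v : HeightOneSpectrum (𝓞 L), (p : 𝓞 L) ∈ v.asIdeal →
        ∃ η : v.adicCompletion L, η ^ (p ^ n) = algebraMap L (v.adicCompletion L) ((u : 𝓞 L) : L)) →
      (p : 𝓞 L) ^ (n + 1) ∣ (u : 𝓞 L) ^ T - 1)
    (k : ℕ) (φ : Fin k → GK L → ℤ_[p]) (hφ : ∀ i, φ i ∈ ShaZ L p 1 S)
    (hlt : Units.rank L < k + n) (m : ℕ) :
    ∃ (a : Fin k → ℤ_[p]) (x : ℤ_[p]), (∃ i, IsUnit (a i)) ∧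
      ∀ g, (p : ℤ_[p]) ^ m ∣ ∑ i, a i *
        (((classNumber L * T * Units.torsionOrder L : ℕ) : ℤ_[p]) * φ i g)
          - ((cyc L p g : ℤ_[p]) - 1) * x := by
  classical
  have hp : p.Prime := Fact.out
  set τ : ℕ := Units.torsionOrder L with hτ
  have hτ0 : τ ≠ 0 := Units.torsionOrder_ne_zero L
  set N : ℕ := m + (c + τ) with hN
  obtain ⟨ζ, hζ⟩ := (hasRoots L p N).exists_primitiveRoot
  have hζ1 : ζ ^ p ^ N = 1 := hζ.pow_eq_one
  have hpN : p ^ N ≠ 0 := pow_ne_zero _ hp.ne_zero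
  have hdata := fun i => kummer_unit L p S hSp T hT (φ i) (hφ i) N ζ hζ
  choose β α v γ hβ0 hβ hα hγ0 hv hvT using hdata
  -- a primitive relation
  obtain ⟨e, ⟨o, ho⟩, hrel⟩ := exists_unit_relation L p hp
    (Sum.elim (fun i => v i ^ T) u : Fin k ⊕ Fin n → (𝓞 L)ˣ) (by
      rw [Fintype.card_sum, Fintype.card_fin, Fintype.card_fin]; exact hlt)
  rw [Fintype.prod_sum_type] at hrel
  simp only [Sum.elim_inl, Sum.elim_inr] at hrel
  rw [← hτ] at hrel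
  set Pw : (𝓞 L)ˣ := ∏ i, (v i ^ T) ^ e (Sum.inl i) with hPw
  set Pu : (𝓞 L)ˣ := ∏ j, u j ^ e (Sum.inr j) with hPu
  have hrel2 : Pu ^ (τ : ℤ) = Pw ^ (-(τ : ℤ)) := by
    rw [zpow_neg, zpow_natCast, zpow_natCast]
    rw [mul_pow] at hrel
    exact eq_inv_of_mul_eq_one_right hrel
  have hcong : (p : 𝓞 L) ^ (N + 1) ∣ ((Pw ^ (-(τ : ℤ)) : (𝓞 L)ˣ) : 𝓞 L) - 1 :=
    dvd_prod_zpow_sub_one _ Finset.univ (fun i => v i ^ T) (fun i _ => hvT i) _ _
  have hPuE : Pu ^ (τ : ℤ) = ∏ j, u j ^ ((τ : ℤ) * e (Sum.inr j)) := by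
    rw [hPu, prod_zpow_gen]
    refine Finset.prod_congr rfl fun j _ => ?_
    rw [← zpow_mul, mul_comm]
  have hE : ∀ j, (p : ℤ) ^ (m + τ + 1) ∣ (τ : ℤ) * e (Sum.inr j) := by
    refine hu (m + τ + 1) (fun j => (τ : ℤ) * e (Sum.inr j)) ?_
    rw [← hPuE, hrel2]
    have e1 : m + τ + 1 + c = N + 1 := by omega
    rw [e1]
    exact hcong
  have hpe : ∀ j, (p : ℤ) ∣ e (Sum.inr j) := by
    intro j
    by_contra hnd
    have hcop : IsCoprime ((p : ℤ) ^ (m + τ + 1)) (e (Sum.inr j)) := by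
      refine IsCoprime.pow_left ?_
      exact (Nat.prime_iff_prime_int.1 hp).coprime_iff_not_dvd.2 hnd
    have h1 : (p : ℤ) ^ (m + τ + 1) ∣ (τ : ℤ) := hcop.dvd_of_dvd_mul_right (hE j)
    have h2 : p ^ (m + τ + 1) ∣ τ := by exact_mod_cast h1
    have h3 := Nat.le_of_dvd (Nat.pos_of_ne_zero hτ0) h2
    have h4 : τ < p ^ (m + τ + 1) :=
      (Nat.lt_pow_self hp.one_lt).trans_le (Nat.pow_le_pow_right hp.pos (by omega))
    omega
  -- the primitive index is among the cocycles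
  obtain ⟨i0, hi0⟩ : ∃ i0, ¬ (p : ℤ) ∣ e (Sum.inl i0) := by
    rcases o with i | j
    · exact ⟨i, ho⟩
    · exact absurd (hpe j) ho
  have hEm : ∀ j, (p : ℤ) ^ m ∣ (τ : ℤ) * e (Sum.inr j) := fun j =>
    (pow_dvd_pow _ (by omega)).trans (hE j)
  choose f hf using hEm
  set y : (𝓞 L)ˣ := ∏ j, u j ^ (-(f j)) with hy
  have hyPw : Pw ^ (τ : ℤ) = y ^ (p ^ m) := by
    have h1 : Pu ^ (τ : ℤ) = (y⁻¹) ^ (p ^ m) := by
      rw [hPuE, hy]
      have h2 : (∏ j, u j ^ (-(f j)))⁻¹ = ∏ j, u j ^ (f j) := by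
        rw [← Finset.prod_inv_distrib]
        refine Finset.prod_congr rfl fun j _ => ?_
        rw [zpow_neg, inv_inv]
      rw [h2]
      have h3 := prod_zpow_gen Finset.univ (fun j => u j ^ f j) ((p ^ m : ℕ) : ℤ)
      rw [zpow_natCast] at h3
      rw [h3]
      refine Finset.prod_congr rfl fun j _ => ?_
      rw [← zpow_mul, hf j]
      congr 1
      push_cast; ring
    rw [h1, zpow_neg, inv_pow] at hrel2
    exact (inv_injective hrel2).symm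
  -- the element `δ`
  set h' : ℕ := classNumber L with hh'
  set T' : ℕ := h' * T * τ with hT'
  set δ : L := ((y : 𝓞 L) : L) * (∏ i, γ i ^ ((T * τ : ℕ) * e (Sum.inl i))) ^ (p ^ (c + τ)) with hδ
  have hδ0 : δ ≠ 0 := by
    refine mul_ne_zero ?_ (pow_ne_zero _ ?_)
    · intro h0
      exact y.ne_zero (RingOfIntegers.ext h0)
    · exact Finset.prod_ne_zero_iff.2 fun i _ => zpow_ne_zero _ (hγ0 i)
  have hαδ : ∏ i, α i ^ ((T' : ℤ) * e (Sum.inl i)) = δ ^ p ^ m := by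
    have h1 : ∀ i, α i ^ ((T' : ℤ) * e (Sum.inl i))
        = (((v i : 𝓞 L) : L) ^ T) ^ ((τ : ℤ) * e (Sum.inl i))
          * (γ i ^ ((T * τ : ℕ) * e (Sum.inl i))) ^ (p ^ N) := by
      intro i
      have e1 : (T' : ℤ) * e (Sum.inl i) = (h' : ℤ) * (((T * τ : ℕ) : ℤ) * e (Sum.inl i)) := by
        rw [hT']; push_cast; ring
      rw [e1, zpow_mul, zpow_natCast, hv i, mul_zpow]
      congr 1
      · rw [← zpow_natCast (((v i : 𝓞 L) : L)) T, ← zpow_mul]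
        congr 1
        push_cast; ring
      · rw [← zpow_natCast (γ i) (p ^ N), ← zpow_mul, ← zpow_natCast (γ i ^ _) (p ^ N), ← zpow_mul]
        congr 1
        ring
    have h2 : ∏ i, (((v i : 𝓞 L) : L) ^ T) ^ ((τ : ℤ) * e (Sum.inl i))
        = ((y : 𝓞 L) : L) ^ (p ^ m) := by
      have h3 : Pw ^ (τ : ℤ) = ∏ i, (v i ^ T) ^ ((τ : ℤ) * e (Sum.inl i)) := by
        rw [hPw, prod_zpow_gen]
        refine Finset.prod_congr rfl fun j _ => ?_
        rw [← zpow_mul, mul_comm]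
      let F : (𝓞 L)ˣ →* L := (algebraMap (𝓞 L) L).toMonoidHom.comp (Units.coeHom (𝓞 L))
      have hFz : ∀ (x : (𝓞 L)ˣ) (z : ℤ), F (x ^ z) = (F x) ^ z := by
        intro x z
        refine map_zpow' F (fun a => ?_) x z
        refine eq_inv_of_mul_eq_one_left ?_
        rw [← map_mul, inv_mul_cancel, map_one]
      have h4 : F (Pw ^ (τ : ℤ)) = F (y ^ (p ^ m)) := by rw [hyPw]
      rw [h3, map_prod, map_pow] at h4
      have h5 : ∀ i, F ((v i ^ T) ^ ((τ : ℤ) * e (Sum.inl i)))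
          = (((v i : 𝓞 L) : L) ^ T) ^ ((τ : ℤ) * e (Sum.inl i)) := by
        intro i
        rw [hFz, map_pow]
        rfl
      simp only [h5] at h4
      exact h4
    calc ∏ i, α i ^ ((T' : ℤ) * e (Sum.inl i))
        = ∏ i, ((((v i : 𝓞 L) : L) ^ T) ^ ((τ : ℤ) * e (Sum.inl i))
          * (γ i ^ ((T * τ : ℕ) * e (Sum.inl i))) ^ (p ^ N)) :=
          Finset.prod_congr rfl fun i _ => h1 i
      _ = ((y : 𝓞 L) : L) ^ (p ^ m) * (∏ i, γ i ^ ((T * τ : ℕ) * e (Sum.inl i))) ^ (p ^ N) := by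
          rw [Finset.prod_mul_distrib, h2, Finset.prod_pow]
      _ = δ ^ p ^ m := by
          rw [hδ, mul_pow, ← pow_mul]
          congr 2
          rw [hN, pow_add]; ring
  -- the element `b`
  set c' : ℕ := c + τ with hc'
  set ζ' : AlgebraicClosure L := ζ ^ p ^ c' with hζ'
  have hζ'prim : IsPrimitiveRoot ζ' (p ^ m) := by
    refine hζ.pow (Nat.pos_of_ne_zero hpN) ?_
    rw [hN, pow_add, mul_comm]
  set Bt : AlgebraicClosure L := ∏ i, β i ^ ((T' : ℤ) * e (Sum.inl i)) with hBt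
  have hBt0 : Bt ≠ 0 := Finset.prod_ne_zero_iff.2 fun i _ => zpow_ne_zero _ (hβ0 i)
  set b : AlgebraicClosure L := Bt ^ p ^ c' with hb
  set δ' : AlgebraicClosure L := algebraMap L (AlgebraicClosure L) δ with hδ'
  have hδ'0 : δ' ≠ 0 := by
    rw [hδ', Ne, map_eq_zero]
    exact hδ0
  have hbδ : b ^ p ^ m = δ' ^ p ^ m := by
    have h1 := congrArg (algebraMap L (AlgebraicClosure L)) hαδ
    rw [map_prod, map_pow] at h1
    have h2 : ∏ i, algebraMap L (AlgebraicClosure L) (α i ^ ((T' : ℤ) * e (Sum.inl i)))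
        = Bt ^ p ^ N := by
      rw [hBt, ← Finset.prod_pow]
      refine Finset.prod_congr rfl fun i _ => ?_
      rw [map_zpow₀, hα i, ← zpow_natCast (β i) (p ^ N), ← zpow_mul,
        ← zpow_natCast (β i ^ _) (p ^ N), ← zpow_mul]
      congr 1
      ring
    rw [h2] at h1
    rw [← h1, hb, ← pow_mul]
    congr 1
    rw [hN, pow_add]
    ring
  have hξ : (b / δ') ^ p ^ m = 1 := by
    rw [div_pow, hbδ, div_self (pow_ne_zero _ hδ'0)]
  have : NeZero (p ^ m) := ⟨pow_ne_zero _ hp.ne_zero⟩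
  obtain ⟨i, hi, hξi⟩ := hζ'prim.eq_pow_of_pow_eq_one hξ
  refine ⟨fun i => ((e (Sum.inl i) : ℤ) : ℤ_[p]), (i : ℤ_[p]), ⟨i0, ?_⟩, fun g => ?_⟩
  · rw [PadicInt.isUnit_iff]
    by_contra hne
    have h1 : ‖((e (Sum.inl i0) : ℤ) : ℤ_[p])‖ < 1 :=
      lt_of_le_of_ne (PadicInt.norm_le_one _) hne
    exact hi0 ((PadicInt.norm_int_lt_one_iff_dvd _).1 h1)
  -- compute `g b / b` in two ways
  set Sg : ℤ_[p] := ∑ i, ((T' : ℤ) * e (Sum.inl i) : ℤ) * φ i g with hSg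
  have e0 : g Bt = zpw p N ζ Sg * Bt := by
    rw [hBt, map_prod, hSg, zpw_sum hζ1, ← Finset.prod_mul_distrib]
    refine Finset.prod_congr rfl fun i _ => ?_
    rw [map_zpow₀, hβ i g, mul_zpow, zpw_intCast_mul hζ1]
  have e1 : g b = zpw p N ζ (((p ^ c' : ℕ) : ℤ_[p]) * Sg) * b := by
    rw [hb, map_pow, e0, mul_pow, zpw_natCast_mul hζ1]
  have e3 : b = zpw p N ζ ((p ^ c' * i : ℕ) : ℤ_[p]) * δ' := by
    rw [zpw_natCast hζ1, pow_mul, ← hζ', hξi, div_mul_cancel₀ _ hδ'0]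
  have e2 : g b = zpw p N ζ ((cyc L p g : ℤ_[p]) * ((p ^ c' * i : ℕ) : ℤ_[p])) * δ' := by
    rw [e3, map_mul, zpw_galois L p N ζ hζ1, hδ', g.commutes]
  have e4 : zpw p N ζ (((p ^ c' : ℕ) : ℤ_[p]) * Sg) *
      zpw p N ζ ((p ^ c' * i : ℕ) : ℤ_[p]) =
      zpw p N ζ ((cyc L p g : ℤ_[p]) * ((p ^ c' * i : ℕ) : ℤ_[p])) := by
    have h1 := e1.symm.trans e2
    nth_rewrite 1 [e3] at h1
    rw [← mul_assoc] at h1
    exact mul_right_cancel₀ hδ'0 h1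
  have e5 : zpw p N ζ ((p : ℤ_[p]) ^ c' *
      (Sg - ((cyc L p g : ℤ_[p]) - 1) * (i : ℤ_[p]))) = 1 := by
    have h1 : (p : ℤ_[p]) ^ c' *
      (Sg - ((cyc L p g : ℤ_[p]) - 1) * (i : ℤ_[p])) =
      (((p ^ c' : ℕ) : ℤ_[p]) * Sg + ((p ^ c' * i : ℕ) : ℤ_[p])) +
        -((cyc L p g : ℤ_[p]) * ((p ^ c' * i : ℕ) : ℤ_[p])) := by
      push_cast
      ring
    rw [h1, zpw_add hζ1, zpw_add hζ1, e4, zpw_neg hζ1,
      mul_inv_cancel₀ (zpw_ne_zero hζ1 _)]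
  rw [zpw_eq_one_iff hζ, hN, pow_add, mul_comm ((p : ℤ_[p]) ^ m)] at e5
  have e6 := (mul_dvd_mul_iff_left (pow_ne_zero c' (by exact_mod_cast hp.ne_zero :
    (p : ℤ_[p]) ≠ 0))).mp e5
  have e7 : ∑ i, ((e (Sum.inl i) : ℤ) : ℤ_[p]) * (((T' : ℕ) : ℤ_[p]) * φ i g) = Sg := by
    rw [hSg]
    refine Finset.sum_congr rfl fun i _ => ?_
    push_cast; ring
  rw [e7]
  exact e6

/-- **Defect inequality.** -/
theorem sha_rank_le (L : Type u) [Field L] [NumberField L] (p : ℕ) [Fact p.Prime] {n : ℕ}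
    (u : Fin n → (𝓞 L)ˣ) (c : ℕ) (hu : PInd L p u c) (S : Set (HeightOneSpectrum (𝓞 L)))
    (hSp : ∀ v : HeightOneSpectrum (𝓞 L), (p : 𝓞 L) ∈ v.asIdeal → v ∈ S)
    (k : ℕ) (φ : Fin k → GK L → ℤ_[p]) (hφ : ∀ i, φ i ∈ ShaZ L p 1 S)
    (hind : ∀ a : Fin k → ℤ_[p], (fun g => ∑ i, a i * φ i g) ∈ B1 L p 1 → a = 0) :
    k + n ≤ Units.rank L := by
  by_contra hcon
  push Not at hcon
  obtain ⟨T, hT0, hT⟩ := exists_local_exponent L p Fact.out
  obtain ⟨a, x, ⟨i0, hi0⟩, hax⟩ := exists_coboundary_of_forall_mod_fam (GK L) p k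
    (fun i g => ((classNumber L * T * Units.torsionOrder L : ℕ) : ℤ_[p]) * φ i g)
    (fun g => (cyc L p g : ℤ_[p]) - 1)
    (mod_coboundary_fam L p u c hu S hSp T hT k φ hφ hcon)
  have hM : ((classNumber L * T * Units.torsionOrder L : ℕ) : ℤ_[p]) ≠ 0 := by
    exact_mod_cast mul_ne_zero (mul_ne_zero (classNumber_ne_zero L) hT0)
      (Units.torsionOrder_ne_zero L)
  have h1 := hind (fun i => ((classNumber L * T * Units.torsionOrder L : ℕ) : ℤ_[p]) * a i)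
    ⟨x, fun g => by
      rw [twist_one_eq, ← hax g]
      refine Finset.sum_congr rfl fun i _ => ?_
      ring⟩
  have h2 := congrFun h1 i0
  rw [Pi.zero_apply] at h2
  rcases mul_eq_zero.1 h2 with h3 | h3
  · exact hM h3
  · rw [h3] at hi0
    exact not_isUnit_zero hi0

end Pool.Agent.Work.MP_59f3ad_nt
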