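import Mathlib
import Pool.Agent.Work.MP_59f3ad_nt.Bd.B03
import Pool.Agent.Work.MP_59f3ad_nt.Bd.B02

/-!
For every prime `p`, all but finitely many members of the family satisfy the Leopoldt property.
-/

open Polynomial NumberField

namespace Pool.Agent.Work.MP_59f3ad_nt

universe u

variable {r1 r2 : ℕ}

/-- The statement of the complex-analytic part. -/
def ComplexPart (a : Fin r1 → ℤ) (b : Fin r2 → ℤ) (j0 : Fin r1 ⊕ Fin r2) : Prop :=
  ∃ B : ℝ, ∀ Q1 : ℝ, B ≤ Q1 → ∀ e κ : ℂ, e ≠ 0 → κ ≠ 0 →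
      ∃ ξ : Fin r1 ⊕ Fin r2 → PowerSeries ℂ,
        (∀ j, (genF a b (PowerSeries.C (Q1 : ℂ) + PowerSeries.C e * PowerSeries.X)).eval (ξ j)
          = 0) ∧
        ∀ y : Fin r1 ⊕ Fin r2 → Fin r1 ⊕ Fin r2 → PowerSeries ℂ,
          (∀ l j, PowerSeries.C κ * PowerSeries.derivative ℂ
              ((genH a b (PowerSeries.C (Q1 : ℂ) + PowerSeries.C e * PowerSeries.X) l).eval (ξ j)) =
            (genH a b (PowerSeries.C (Q1 : ℂ) + PowerSeries.C e * PowerSeries.X) l).eval (ξ j) *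
              PowerSeries.derivative ℂ (y l j)) →
          (Matrix.of fun l j : {j // j ≠ j0} => y l j).det ≠ 0

/-- Finiteness in a residue class. -/
theorem finite_exceptions_class (p : ℕ) (hp : p.Prime) (a : Fin r1 → ℤ) (b : Fin r2 → ℤ)
    (ha : Function.Injective a) (hb : Function.Injective b) (hd : 1 ≤ r1 + 2 * r2) (Q1 : ℤ)
    (j0 : Fin r1 ⊕ Fin r2)
    (hC : ∀ e κ : ℂ, e ≠ 0 → κ ≠ 0 →
      ∃ ξ : Fin r1 ⊕ Fin r2 → PowerSeries ℂ,
        (∀ j, (genF a b (PowerSeries.C (Q1 : ℂ) + PowerSeries.C e * PowerSeries.X)).eval (ξ j)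
          = 0) ∧
        ∀ y : Fin r1 ⊕ Fin r2 → Fin r1 ⊕ Fin r2 → PowerSeries ℂ,
          (∀ l j, PowerSeries.C κ * PowerSeries.derivative ℂ
              ((genH a b (PowerSeries.C (Q1 : ℂ) + PowerSeries.C e * PowerSeries.X) l).eval (ξ j)) =
            (genH a b (PowerSeries.C (Q1 : ℂ) + PowerSeries.C e * PowerSeries.X) l).eval (ξ j) *
              PowerSeries.derivative ℂ (y l j)) →
          (Matrix.of fun l j : {j // j ≠ j0} => y l j).det ≠ 0) :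
    ∃ Z : Set ℤ, Z.Finite ∧ ∀ t : ℤ, t ∉ Z → 4 ≤ |Q1 + p * t| →
      ∀ (K : Type u) [Field K] [NumberField K] (x : 𝓞 K), Module.finrank ℚ K = r1 + 2 * r2 →
      aeval x (famF a b (Q1 + p * t)) = 0 → ∃ c, SLeo K p c := by
  have : Fact p.Prime := ⟨hp⟩
  obtain ⟨M, hM, V, hV1, hV2, hV3⟩ := exists_V p hp a b Q1 hd
  obtain ⟨φ, hφ⟩ := exists_minor p a b hd Q1 j0 hC M hM V hV1 hV2 hV3
  refine ⟨_, finite_zeros p hp (minorD V j0 φ) (fun N k => ?_) hφ, fun t ht hQ4 K _ _ x hfin hx =>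
    ?_⟩
  · exact (C_dvd_iff_dvd_coeff _ _).mp (minorD_congr_add p V hV3 j0 φ N 1) k
  · rw [Set.mem_setOf_eq, not_forall] at ht
    obtain ⟨N0, hN0⟩ := ht
    exact sleo_of_minor p hp a b ha hb hd Q1 t hQ4 M V hV1 hV2 hV3 j0 φ N0 hN0 x hfin hx

theorem finite_exceptions_of (p : ℕ) (hp : p.Prime) (a : Fin r1 → ℤ) (b : Fin r2 → ℤ)
    (ha : Function.Injective a) (hb : Function.Injective b) (hd : 1 ≤ r1 + 2 * r2)
    (j0 : Fin r1 ⊕ Fin r2) (hC : ComplexPart a b j0) :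
    ∃ Z : Set ℤ, Z.Finite ∧ ∀ Q : ℤ, Q ∉ Z → 4 ≤ |Q| ∧
      ∀ (K : Type u) [Field K] [NumberField K] (x : 𝓞 K), Module.finrank ℚ K = r1 + 2 * r2 →
      aeval x (famF a b Q) = 0 → ∃ c, SLeo K p c := by
  obtain ⟨B, hB⟩ := hC
  set n : ℕ := ⌈B⌉₊ with hn
  have hpos : (0 : ℤ) < p := by exact_mod_cast hp.pos
  set Q1 : ℤ → ℤ := fun r => |r| + p * n with hQ1
  have hBQ : ∀ r, B ≤ ((Q1 r : ℤ) : ℝ) := by
    intro r
    have h1 : B ≤ n := Nat.le_ceil B
    have h2 : (n : ℤ) ≤ Q1 r := by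
      have h3 : (0 : ℤ) ≤ |r| := abs_nonneg r
      have h4 : (1 : ℤ) * n ≤ p * n := mul_le_mul_of_nonneg_right (by omega) (by omega)
      simp only [hQ1]
      linarith
    exact h1.trans (by exact_mod_cast h2)
  have hcl : ∀ r : ℤ, ∃ Z : Set ℤ, Z.Finite ∧ ∀ t : ℤ, t ∉ Z → 4 ≤ |Q1 r + p * t| →
      ∀ (K : Type u) [Field K] [NumberField K] (x : 𝓞 K), Module.finrank ℚ K = r1 + 2 * r2 →
      aeval x (famF a b (Q1 r + p * t)) = 0 → ∃ c, SLeo K p c := by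
    intro r
    refine finite_exceptions_class p hp a b ha hb hd (Q1 r) j0 fun e κ he hκ => ?_
    have h1 := hB (Q1 r) (hBQ r) e κ he hκ
    simpa only [Complex.ofReal_intCast] using h1
  choose Z hZ hZ' using hcl
  refine ⟨Set.Icc (-4) 4 ∪ ⋃ r ∈ Finset.Ico (0 : ℤ) p, (fun t => Q1 r + p * t) '' Z r, ?_, ?_⟩
  · refine (Set.finite_Icc _ _).union ?_
    exact Set.Finite.biUnion (Finset.finite_toSet _) fun r _ => (hZ r).image _
  · intro Q hQ
    rw [Set.mem_union, not_or] at hQ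
    obtain ⟨hQ0, hQ⟩ := hQ
    have hQ4 : 4 ≤ |Q| := by
      by_contra hcon
      apply hQ0
      rw [not_le, abs_lt] at hcon
      exact ⟨by linarith [hcon.1], by linarith [hcon.2]⟩
    refine ⟨hQ4, ?_⟩
    set r := Q % p with hr
    have hr0 : 0 ≤ r := Int.emod_nonneg _ hpos.ne'
    have hrp : r < p := Int.emod_lt_of_pos _ hpos
    have h1 : Q = Q1 r + p * (Q / p - n) := by
      have h2 := Int.emod_add_mul_ediv Q p
      simp only [hQ1, abs_of_nonneg hr0]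
      rw [← hr] at h2
      linarith
    have h2 : Q / p - n ∉ Z r := by
      intro h3
      apply hQ
      rw [Set.mem_iUnion₂]
      exact ⟨r, by simp [hr0, hrp], _, h3, h1.symm⟩
    have h3 := hZ' r _ h2
    rw [← h1] at h3
    exact h3 hQ4

end Pool.Agent.Work.MP_59f3ad_nt
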