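import Mathlib
import Pool.Agent.Work.MP_59f3ad_nt.Gen

/-!
# Analytic roots of the family near `Q = ∞`
-/

open Polynomial Filter Topology

namespace Pool.Agent.Work.MP_59f3ad_nt.CP

variable {r1 r2 : ℕ}

/-- The degrees. -/
def dg (l : Fin r1 ⊕ Fin r2) : ℕ := Sum.elim (fun _ => 1) (fun _ => 2) l

theorem dg_pos (l : Fin r1 ⊕ Fin r2) : 0 < dg l := by
  rcases l with i | k <;> simp [dg]

variable (a : Fin r1 → ℤ) (b : Fin r2 → ℤ)

/-- The polynomial functions at `q = 1`. -/
noncomputable def P (l : Fin r1 ⊕ Fin r2) (w : ℂ) : ℂ := (genH a b (1 : ℂ) l).eval w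

theorem P_inl (i : Fin r1) (w : ℂ) : P a b (Sum.inl i) w = w - a i := by simp [P, genH]

theorem P_inr (k : Fin r2) (w : ℂ) : P a b (Sum.inr k) w = (w - b k) ^ 2 + 2 := by simp [P, genH]

theorem eval_genH (l : Fin r1 ⊕ Fin r2) (q w : ℂ) :
    (genH a b q l).eval (q * w) = q ^ dg l * P a b l w := by
  rcases l with i | k
  · rw [P_inl]
    simp [genH, dg]
    ring
  · rw [P_inr]
    simp [genH, dg]
    ring

theorem differentiable_P (l : Fin r1 ⊕ Fin r2) : Differentiable ℂ (P a b l) :=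
  (genH a b (1 : ℂ) l).differentiable

/-- The roots at infinity. -/
noncomputable def zr (j : Fin r1 ⊕ Fin r2) : ℂ :=
  Sum.elim (fun i => (a i : ℂ)) (fun k => (b k : ℂ) + Complex.I * (Real.sqrt 2 : ℝ)) j

theorem sqrt_two_sq : ((Real.sqrt 2 : ℝ) : ℂ) ^ 2 = 2 := by
  rw [← Complex.ofReal_pow, Real.sq_sqrt (by norm_num)]
  norm_num

theorem P_zr (j : Fin r1 ⊕ Fin r2) : P a b j (zr a b j) = 0 := by
  rcases j with i | k
  · rw [P_inl]
    simp [zr]
  · rw [P_inr]
    simp only [zr, Sum.elim_inr, add_sub_cancel_left, mul_pow, Complex.I_sq, sqrt_two_sq]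
    ring

theorem P_zr_ne (ha : Function.Injective a) (hb : Function.Injective b)
    {l j : Fin r1 ⊕ Fin r2} (h : l ≠ j) : P a b l (zr a b j) ≠ 0 := by
  have hs : (0 : ℝ) < Real.sqrt 2 := Real.sqrt_pos.2 (by norm_num)
  rcases l with i | k <;> rcases j with i' | k'
  · rw [P_inl]
    simp only [zr, Sum.elim_inl]
    rw [sub_ne_zero]
    intro h1
    exact h (congrArg Sum.inl (ha (by exact_mod_cast h1.symm)))
  · rw [P_inl]
    simp only [zr, Sum.elim_inr]
    intro h1
    have := congrArg Complex.im h1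
    simp at this
  · rw [P_inr]
    simp only [zr, Sum.elim_inl]
    intro h1
    have h2 : (((a i' - b k : ℤ) : ℝ) ^ 2 + 2 : ℝ) = 0 := by
      have h3 : ((((a i' - b k : ℤ) : ℝ) ^ 2 + 2 : ℝ) : ℂ) = 0 := by
        push_cast
        exact h1
      exact_mod_cast h3
    have := sq_nonneg ((a i' - b k : ℤ) : ℝ)
    linarith
  · rw [P_inr]
    simp only [zr, Sum.elim_inr]
    have hbk : (b k' : ℂ) - b k ≠ 0 := by
      rw [sub_ne_zero]
      intro h1
      exact h (congrArg Sum.inr (hb (by exact_mod_cast h1.symm)))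
    have h1 : ((b k' : ℂ) + Complex.I * (Real.sqrt 2 : ℝ) - b k) ^ 2 + 2 =
        ((b k' : ℂ) - b k) * ((b k' : ℂ) - b k + 2 * Complex.I * (Real.sqrt 2 : ℝ)) := by
      have h2 : Complex.I ^ 2 * ((Real.sqrt 2 : ℝ) : ℂ) ^ 2 = -2 := by
        rw [Complex.I_sq, sqrt_two_sq]
        ring
      linear_combination h2
    rw [h1]
    refine mul_ne_zero hbk ?_
    intro h2
    have := congrArg Complex.im h2
    simp at this

theorem deriv_P_zr (j : Fin r1 ⊕ Fin r2) : deriv (P a b j) (zr a b j) ≠ 0 := by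
  rcases j with i | k
  · have h1 : P a b (Sum.inl i) = fun w : ℂ => w - (a i : ℂ) := funext fun w => P_inl a b i w
    have h2 : HasDerivAt (fun w : ℂ => w - (a i : ℂ)) 1 (zr a b (Sum.inl i)) :=
      (hasDerivAt_id _).sub_const _
    rw [h1, h2.deriv]
    exact one_ne_zero
  · have h1 : P a b (Sum.inr k) = fun w : ℂ => (w - (b k : ℂ)) ^ 2 + 2 := funext fun w => P_inr a b k w
    have h2 : HasDerivAt (fun w : ℂ => (w - b k) ^ 2 + 2)
        (2 * (zr a b (Sum.inr k) - b k)) (zr a b (Sum.inr k)) := by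
      have := (((hasDerivAt_id (zr a b (Sum.inr k))).sub_const (b k : ℂ)).pow 2).add_const (2 : ℂ)
      simpa using this
    rw [h1, h2.deriv]
    simp [zr]

/-- The product of the `P l`. -/
noncomputable def A (w : ℂ) : ℂ := ∏ l, P a b l w

theorem differentiable_A : Differentiable ℂ (A a b) := by
  unfold A
  exact Differentiable.fun_finsetProd fun l _ => differentiable_P a b l

theorem A_eq (j : Fin r1 ⊕ Fin r2) (w : ℂ) :
    A a b w = P a b j w * ∏ l ∈ Finset.univ.erase j, P a b l w :=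
  (Finset.mul_prod_erase Finset.univ (fun l => P a b l w) (Finset.mem_univ j)).symm

theorem A_zr (j : Fin r1 ⊕ Fin r2) : A a b (zr a b j) = 0 := by
  rw [A_eq a b j, P_zr, zero_mul]

theorem deriv_A_zr (ha : Function.Injective a) (hb : Function.Injective b)
    (j : Fin r1 ⊕ Fin r2) : deriv (A a b) (zr a b j) ≠ 0 := by
  have h1 : A a b = fun w => P a b j w * ∏ l ∈ Finset.univ.erase j, P a b l w :=
    funext fun w => A_eq a b j w
  have h2 : Differentiable ℂ fun w => ∏ l ∈ Finset.univ.erase j, P a b l w :=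
    Differentiable.fun_finsetProd fun l _ => differentiable_P a b l
  rw [h1, deriv_fun_mul (differentiable_P a b j _) (h2 _), P_zr, zero_mul, add_zero]
  refine mul_ne_zero (deriv_P_zr a b j) (Finset.prod_ne_zero_iff.2 fun l hl => ?_)
  exact P_zr_ne a b ha hb (Finset.ne_of_mem_erase hl)

/-- The local inverse. -/
theorem exists_W (ha : Function.Injective a) (hb : Function.Injective b)
    (j : Fin r1 ⊕ Fin r2) : ∃ W : ℂ → ℂ, ∀ᶠ t in 𝓝 (0 : ℂ), AnalyticAt ℂ W t ∧
      A a b (W t) = t ∧ ∀ l, l ≠ j → P a b l (W t) ≠ 0 := by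
  have hA : AnalyticAt ℂ (A a b) (zr a b j) := (differentiable_A a b).analyticAt _
  have hd := deriv_A_zr a b ha hb j
  let W := hA.hasStrictDerivAt.localInverse _ _ _ hd
  have hW : AnalyticAt ℂ W (A a b (zr a b j)) := hA.analyticAt_localInverse hd
  have hW0 : W (A a b (zr a b j)) = zr a b j := HasStrictFDerivAt.localInverse_apply_image ..
  have hWr : ∀ᶠ t in 𝓝 (A a b (zr a b j)), A a b (W t) = t :=
    HasStrictDerivAt.eventually_right_inverse ..
  rw [A_zr] at hW hW0 hWr
  refine ⟨W, ?_⟩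
  have hne : ∀ᶠ t in 𝓝 (0 : ℂ), ∀ l, l ≠ j → P a b l (W t) ≠ 0 := by
    rw [eventually_all]
    intro l
    by_cases hl : l = j
    · exact Eventually.of_forall fun t h => absurd hl h
    · have h1 : ContinuousAt (fun t => P a b l (W t)) 0 :=
        (differentiable_P a b l).continuous.continuousAt.comp hW.continuousAt
      have h2 : P a b l (W 0) ≠ 0 := by
        rw [hW0]
        exact P_zr_ne a b ha hb hl
      filter_upwards [h1.eventually_ne h2] with t ht _
      exact ht
  filter_upwards [hW.eventually_analyticAt, hWr, hne] with t h1 h2 h3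
  exact ⟨h1, h2, h3⟩

/-- The analytic data on a disc. -/
theorem exists_data (ha : Function.Injective a) (hb : Function.Injective b) :
    ∃ δ : ℝ, 0 < δ ∧ ∃ (W : Fin r1 ⊕ Fin r2 → ℂ → ℂ) (h : Fin r1 ⊕ Fin r2 → Fin r1 ⊕ Fin r2 → ℂ → ℂ),
      (∀ j, ∀ t ∈ Metric.ball (0 : ℂ) δ, DifferentiableAt ℂ (W j) t) ∧
      (∀ j, ∀ t ∈ Metric.ball (0 : ℂ) δ, A a b (W j t) = t) ∧
      (∀ l j, l ≠ j → ∀ t ∈ Metric.ball (0 : ℂ) δ, ∃ g : ℂ, HasDerivAt (h l j) g t ∧
        HasDerivAt (fun t => P a b l (W j t)) (P a b l (W j t) * g) t) := by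
  choose W hW using exists_W a b ha hb
  have hall := eventually_all.2 hW
  obtain ⟨δ, hδ, hball⟩ := Metric.eventually_nhds_iff_ball.1 hall
  have hprim : ∀ l j : Fin r1 ⊕ Fin r2, ∃ h : ℂ → ℂ, l ≠ j → ∀ t ∈ Metric.ball (0 : ℂ) δ,
      HasDerivAt h (deriv (fun t => P a b l (W j t)) t / P a b l (W j t)) t := by
    intro l j
    by_cases hl : l = j
    · exact ⟨0, fun h => absurd hl h⟩
    have hc : DifferentiableOn ℂ (fun t => P a b l (W j t)) (Metric.ball 0 δ) := by
      intro t ht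
      exact ((differentiable_P a b l _).comp t
        (hball t ht j).1.differentiableAt).differentiableWithinAt
    have hd : DifferentiableOn ℂ (fun t => deriv (fun t => P a b l (W j t)) t / P a b l (W j t))
        (Metric.ball 0 δ) :=
      (hc.deriv Metric.isOpen_ball).div hc fun t ht => (hball t ht j).2.2 l hl
    obtain ⟨h, hh⟩ := hd.isExactOn_ball
    exact ⟨h, fun _ t ht => hh t ht⟩
  choose h hh using hprim
  refine ⟨δ, hδ, W, h, fun j t ht => (hball t ht j).1.differentiableAt,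
    fun j t ht => (hball t ht j).2.1, fun l j hlj t ht => ⟨_, hh l j hlj t ht, ?_⟩⟩
  rw [mul_div_cancel₀ _ ((hball t ht j).2.2 l hlj)]
  exact ((differentiable_P a b l _).comp t (hball t ht j).1.differentiableAt).hasDerivAt

end Pool.Agent.Work.MP_59f3ad_nt.CP
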