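import Mathlib

/-!
# The Taylor series map on functions analytic at `0`
-/

open Filter Topology

namespace Pool.Agent.Work.MP_59f3ad_nt.Taylor

/-- The ring of the functions analytic at `0`. -/
def An : Subring (ℂ → ℂ) where
  carrier := {f | AnalyticAt ℂ f 0}
  mul_mem' := fun ha hb => AnalyticAt.mul ha hb
  one_mem' := analyticAt_const
  add_mem' := fun ha hb => AnalyticAt.add ha hb
  zero_mem' := analyticAt_const
  neg_mem' := fun ha => AnalyticAt.neg ha

/-- The Taylor series at `0`. -/
noncomputable def tay (f : ℂ → ℂ) : PowerSeries ℂ :=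
  PowerSeries.mk fun n => iteratedDeriv n f 0 / n.factorial

theorem coeff_tay (f : ℂ → ℂ) (n : ℕ) :
    PowerSeries.coeff n (tay f) = iteratedDeriv n f 0 / n.factorial := PowerSeries.coeff_mk _ _

theorem tay_congr {f g : ℂ → ℂ} (h : f =ᶠ[𝓝 0] g) : tay f = tay g := by
  ext n
  rw [coeff_tay, coeff_tay, h.iteratedDeriv_eq]

theorem derivative_tay (f : ℂ → ℂ) : PowerSeries.derivative ℂ (tay f) = tay (deriv f) := by
  ext n
  rw [PowerSeries.coeff_derivative, coeff_tay, coeff_tay, iteratedDeriv_succ', Nat.factorial_succ]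
  push_cast
  have h1 : (n.factorial : ℂ) ≠ 0 := Nat.cast_ne_zero.2 n.factorial_ne_zero
  have h2 : (n : ℂ) + 1 ≠ 0 := by exact_mod_cast n.succ_ne_zero
  field_simp

theorem constantCoeff_tay (f : ℂ → ℂ) : PowerSeries.constantCoeff (tay f) = f 0 := by
  rw [← PowerSeries.coeff_zero_eq_constantCoeff_apply, coeff_tay]
  simp

theorem tay_add {f g : ℂ → ℂ} (hf : AnalyticAt ℂ f 0) (hg : AnalyticAt ℂ g 0) :
    tay (f + g) = tay f + tay g := by
  ext n
  rw [map_add, coeff_tay, coeff_tay, coeff_tay, iteratedDeriv_add hf.contDiffAt hg.contDiffAt,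
    add_div]

theorem tay_const (c : ℂ) : tay (fun _ => c) = PowerSeries.C c := by
  ext n
  rw [coeff_tay, iteratedDeriv_const, PowerSeries.coeff_C]
  split_ifs with h
  · simp [h]
  · simp

theorem coeff_succ_eq (F : PowerSeries ℂ) (n : ℕ) :
    PowerSeries.coeff (n + 1) F = PowerSeries.coeff n (PowerSeries.derivative ℂ F) / (n + 1) := by
  rw [PowerSeries.coeff_derivative]
  have h2 : (n : ℂ) + 1 ≠ 0 := by exact_mod_cast n.succ_ne_zero
  field_simp

theorem tay_mul_aux (n : ℕ) : ∀ {f g : ℂ → ℂ}, AnalyticAt ℂ f 0 → AnalyticAt ℂ g 0 →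
    PowerSeries.coeff n (tay (f * g)) = PowerSeries.coeff n (tay f * tay g) := by
  induction n with
  | zero =>
    intro f g hf hg
    rw [PowerSeries.coeff_zero_eq_constantCoeff_apply, PowerSeries.coeff_zero_eq_constantCoeff_apply,
      map_mul, constantCoeff_tay, constantCoeff_tay, constantCoeff_tay, Pi.mul_apply]
  | succ n ih =>
    intro f g hf hg
    rw [coeff_succ_eq, coeff_succ_eq (tay f * tay g), derivative_tay]
    have h1 : deriv (f * g) =ᶠ[𝓝 0] deriv f * g + f * deriv g := by
      filter_upwards [hf.eventually_analyticAt, hg.eventually_analyticAt] with z hz hz'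
      rw [deriv_mul hz.differentiableAt hz'.differentiableAt]
      rfl
    rw [tay_congr h1, tay_add (hf.deriv.mul hg) (hf.mul hg.deriv), map_add, ih hf.deriv hg,
      ih hf hg.deriv, Derivation.leibniz, smul_eq_mul, smul_eq_mul, derivative_tay, derivative_tay,
      map_add, mul_comm (tay (deriv f)) (tay g), add_comm]

theorem tay_mul {f g : ℂ → ℂ} (hf : AnalyticAt ℂ f 0) (hg : AnalyticAt ℂ g 0) :
    tay (f * g) = tay f * tay g := by
  ext n
  exact tay_mul_aux n hf hg

/-- The Taylor series, as a ring homomorphism. -/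
noncomputable def T : An →+* PowerSeries ℂ where
  toFun := fun f => tay f
  map_one' := by
    change tay (fun _ => 1) = 1
    rw [tay_const, map_one]
  map_mul' := fun f g => tay_mul f.2 g.2
  map_zero' := by
    change tay (fun _ => 0) = 0
    rw [tay_const, map_zero]
  map_add' := fun f g => tay_add f.2 g.2

theorem T_apply (f : An) : T f = tay f := rfl

theorem eventually_eq_zero {f : ℂ → ℂ} (hf : AnalyticAt ℂ f 0) (h : tay f = 0) :
    ∀ᶠ z in 𝓝 0, f z = 0 := by
  have h1 := hf.hasFPowerSeriesAt
  have h2 : (FormalMultilinearSeries.ofScalars ℂ (fun n ↦ iteratedDeriv n f 0 / n.factorial)) =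
      0 := by
    have h3 : (fun n : ℕ ↦ iteratedDeriv n f 0 / (n.factorial : ℂ)) = fun _ => 0 := by
      funext n
      rw [← coeff_tay, h, map_zero]
    rw [h3]
    ext n
    simp [FormalMultilinearSeries.ofScalars]
  rw [h2] at h1
  exact h1.eventually_eq_zero

theorem T_eq_zero {f : An} (h : ∀ᶠ z in 𝓝 0, (f : ℂ → ℂ) z = 0) : T f = 0 := by
  rw [T_apply, tay_congr (g := fun _ => 0) h, tay_const, map_zero]

/-- The evaluation at a point. -/
def ev (z : ℂ) : An →+* ℂ := (Pi.evalRingHom (fun _ : ℂ => ℂ) z).comp An.subtype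

theorem ev_apply (z : ℂ) (f : An) : ev z f = (f : ℂ → ℂ) z := rfl

/-- The function `s ↦ q + e s`. -/
noncomputable def lin (q e : ℂ) : An :=
  ⟨fun s => q + e * s, analyticAt_const.add (analyticAt_const.mul analyticAt_id)⟩

theorem T_lin (q e : ℂ) : T (lin q e) = PowerSeries.C q + PowerSeries.C e * PowerSeries.X := by
  apply PowerSeries.derivative.ext
  · rw [T_apply, derivative_tay]
    have : deriv (lin q e : ℂ → ℂ) = fun _ => e := by
      funext s
      change deriv (fun s => q + e * s) s = e
      rw [deriv_const_add, deriv_const_mul _ differentiableAt_id, deriv_id'', mul_one]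
    rw [this, tay_const, map_add, PowerSeries.derivative_C, zero_add, Derivation.leibniz,
      PowerSeries.derivative_C, PowerSeries.derivative_X]
    simp
  · rw [T_apply, constantCoeff_tay]
    simp [lin]

end Pool.Agent.Work.MP_59f3ad_nt.Taylor
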