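import Mathlib
import Pool.Agent.Work.MP_59f3ad_nt.ComplexData
import Pool.Agent.Work.MP_59f3ad_nt.Taylor

/-!
# The determinant of logarithms does not vanish
-/

open Polynomial Filter Topology

namespace Pool.Agent.Work.MP_59f3ad_nt

namespace CP

variable {r1 r2 : ℕ} (a : Fin r1 → ℤ) (b : Fin r2 → ℤ)

/-- The degree of the family. -/
def dd (r1 r2 : ℕ) : ℕ := ∑ l : Fin r1 ⊕ Fin r2, dg l

/-- The analytic data. -/
structure Dat (δ : ℝ) (W : Fin r1 ⊕ Fin r2 → ℂ → ℂ)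
    (h : Fin r1 ⊕ Fin r2 → Fin r1 ⊕ Fin r2 → ℂ → ℂ) : Prop where
  pos : 0 < δ
  W_diff : ∀ j, ∀ t ∈ Metric.ball (0 : ℂ) δ, DifferentiableAt ℂ (W j) t
  A_W : ∀ j, ∀ t ∈ Metric.ball (0 : ℂ) δ, A a b (W j t) = t
  h_P : ∀ l j, l ≠ j → ∀ t ∈ Metric.ball (0 : ℂ) δ, ∃ g : ℂ, HasDerivAt (h l j) g t ∧
        HasDerivAt (fun t => P a b l (W j t)) (P a b l (W j t) * g) t

/-- The parameter at infinity. -/
noncomputable def tau (r1 r2 : ℕ) (Q : ℂ) : ℂ := (Q ^ dd r1 r2)⁻¹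

/-- The half plane where everything is analytic. -/
def Dom (δ : ℝ) : Set ℂ := {Q : ℂ | max 1 (1 / δ) < Q.re}

theorem isOpen_Dom (δ : ℝ) : IsOpen (Dom δ) := isOpen_lt continuous_const Complex.continuous_re

theorem isPreconnected_Dom (δ : ℝ) : IsPreconnected (Dom δ) :=
  (convex_halfSpace_re_gt _).isPreconnected

theorem re_pos_of_mem {δ : ℝ} {Q : ℂ} (hQ : Q ∈ Dom δ) : 0 < Q.re := by
  have h1 : max 1 (1 / δ) < Q.re := hQ
  have := le_max_left 1 (1 / δ)
  linarith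

theorem ne_zero_of_mem {δ : ℝ} {Q : ℂ} (hQ : Q ∈ Dom δ) : Q ≠ 0 := by
  rintro rfl
  exact lt_irrefl _ (re_pos_of_mem hQ)

theorem dd_pos (j : Fin r1 ⊕ Fin r2) : 0 < dd r1 r2 :=
  Finset.sum_pos (fun l _ => dg_pos l) ⟨j, Finset.mem_univ j⟩

theorem tau_mem (j : Fin r1 ⊕ Fin r2) {δ : ℝ} (hδ : 0 < δ) {Q : ℂ} (hQ : Q ∈ Dom δ) :
    tau r1 r2 Q ∈ Metric.ball (0 : ℂ) δ := by
  have h1 : max 1 (1 / δ) < Q.re := hQ
  have h2 : Q.re ≤ ‖Q‖ := Complex.re_le_norm Q
  have h3 : 1 < ‖Q‖ := lt_of_le_of_lt (le_max_left _ _) (h1.trans_le h2)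
  have h4 : 1 / δ < ‖Q‖ := lt_of_le_of_lt (le_max_right _ _) (h1.trans_le h2)
  rw [mem_ball_zero_iff, tau, norm_inv, norm_pow]
  have h5 : ‖Q‖ ≤ ‖Q‖ ^ dd r1 r2 := le_self_pow₀ h3.le (dd_pos j).ne'
  have h6 : 1 / δ < ‖Q‖ ^ dd r1 r2 := h4.trans_le h5
  rw [inv_eq_one_div]
  exact (one_div_lt hδ (by linarith)).1 h6

theorem exists_deriv_tau {Q : ℂ} (hQ : Q ≠ 0) : ∃ g, HasDerivAt (tau r1 r2) g Q :=
  ⟨_, ((hasDerivAt_pow (dd r1 r2) Q).inv (pow_ne_zero _ hQ))⟩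

/-- The roots. -/
noncomputable def xr (W : Fin r1 ⊕ Fin r2 → ℂ → ℂ) (j : Fin r1 ⊕ Fin r2) (Q : ℂ) : ℂ :=
  Q * W j (tau r1 r2 Q)

/-- The values of the factors at the roots. -/
noncomputable def E (W : Fin r1 ⊕ Fin r2 → ℂ → ℂ) (l j : Fin r1 ⊕ Fin r2) (Q : ℂ) : ℂ :=
  (genH a b Q l).eval (xr W j Q)

/-- The logarithms for `l ≠ j`. -/
noncomputable def G0 (h : Fin r1 ⊕ Fin r2 → Fin r1 ⊕ Fin r2 → ℂ → ℂ)
    (l j : Fin r1 ⊕ Fin r2) (Q : ℂ) : ℂ :=
  dg l * Complex.log Q + h l j (tau r1 r2 Q)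

/-- The logarithms. -/
noncomputable def G (h : Fin r1 ⊕ Fin r2 → Fin r1 ⊕ Fin r2 → ℂ → ℂ)
    (l j : Fin r1 ⊕ Fin r2) (Q : ℂ) : ℂ :=
  if l = j then -∑ l' ∈ Finset.univ.erase j, G0 h l' j Q else G0 h l j Q

variable {a b} {δ : ℝ} {W : Fin r1 ⊕ Fin r2 → ℂ → ℂ}
  {h : Fin r1 ⊕ Fin r2 → Fin r1 ⊕ Fin r2 → ℂ → ℂ}

theorem E_eq (l j : Fin r1 ⊕ Fin r2) (Q : ℂ) :
    E a b W l j Q = Q ^ dg l * P a b l (W j (tau r1 r2 Q)) := eval_genH a b l Q _

theorem prod_E (D : Dat a b δ W h) (j : Fin r1 ⊕ Fin r2) {Q : ℂ} (hQ : Q ∈ Dom δ) :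
    ∏ l, E a b W l j Q = 1 := by
  simp_rw [E_eq, Finset.prod_mul_distrib, Finset.prod_pow_eq_pow_sum]
  have h1 : ∏ l, P a b l (W j (tau r1 r2 Q)) = tau r1 r2 Q := D.A_W j _ (tau_mem j D.pos hQ)
  rw [h1]
  exact mul_inv_cancel₀ (pow_ne_zero _ (ne_zero_of_mem hQ))

theorem E_ne_zero (D : Dat a b δ W h) (l j : Fin r1 ⊕ Fin r2) {Q : ℂ} (hQ : Q ∈ Dom δ) :
    E a b W l j Q ≠ 0 := by
  intro h0
  have := prod_E D j hQ
  rw [Finset.prod_eq_zero (Finset.mem_univ l) h0] at this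
  exact zero_ne_one this

theorem hasDerivAt_G0 (D : Dat a b δ W h) {l j : Fin r1 ⊕ Fin r2} (hlj : l ≠ j) {Q : ℂ}
    (hQ : Q ∈ Dom δ) : ∃ g, HasDerivAt (G0 h l j) g Q ∧
      HasDerivAt (E a b W l j) (E a b W l j Q * g) Q := by
  have hQ0 := ne_zero_of_mem hQ
  obtain ⟨g, hg, hg'⟩ := D.h_P l j hlj _ (tau_mem j D.pos hQ)
  obtain ⟨t', ht'⟩ := exists_deriv_tau (r1 := r1) (r2 := r2) hQ0
  have hlog : HasDerivAt Complex.log Q⁻¹ Q :=
    Complex.hasDerivAt_log (Or.inl (re_pos_of_mem hQ))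
  refine ⟨dg l * Q⁻¹ + g * t', (hlog.const_mul _).add (hg.comp Q ht'), ?_⟩
  have h1 : E a b W l j = fun Q => Q ^ dg l * P a b l (W j (tau r1 r2 Q)) :=
    funext fun Q => E_eq l j Q
  have h2 := (hasDerivAt_pow (dg l) Q).mul (hg'.comp Q ht')
  rw [h1]
  refine h2.congr_deriv ?_
  have h3 : (Q ^ dg l : ℂ) = Q ^ (dg l - 1) * Q := by
    rw [← pow_succ, Nat.sub_add_cancel (dg_pos l)]
  simp only [Function.comp_apply]
  rw [h3]
  field_simp

theorem hasDerivAt_G (D : Dat a b δ W h) (l j : Fin r1 ⊕ Fin r2) {Q : ℂ}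
    (hQ : Q ∈ Dom δ) : ∃ g, HasDerivAt (G h l j) g Q ∧
      HasDerivAt (E a b W l j) (E a b W l j Q * g) Q := by
  by_cases hlj : l = j
  · subst hlj
    have hex : ∀ l', ∃ g, l' ≠ l → HasDerivAt (G0 h l' l) g Q ∧
        HasDerivAt (E a b W l' l) (E a b W l' l Q * g) Q := by
      intro l'
      by_cases h' : l' = l
      · exact ⟨0, fun h => absurd h' h⟩
      · obtain ⟨g, hg⟩ := hasDerivAt_G0 D h' hQ
        exact ⟨g, fun _ => hg⟩
    choose g hg using hex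
    have hG : G h l l = fun Q => -∑ l' ∈ Finset.univ.erase l, G0 h l' l Q := by
      funext Q
      simp [G]
    refine ⟨-∑ l' ∈ Finset.univ.erase l, g l', ?_, ?_⟩
    · rw [hG]
      exact (HasDerivAt.fun_sum fun l' hl' => (hg l' (Finset.ne_of_mem_erase hl')).1).neg
    · let F : ℂ → ℂ := fun Q => ∏ l' ∈ Finset.univ.erase l, E a b W l' l Q
      have hF : HasDerivAt F (F Q * ∑ l' ∈ Finset.univ.erase l, g l') Q := by
        refine (HasDerivAt.fun_finsetProd fun l' hl' =>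
          (hg l' (Finset.ne_of_mem_erase hl')).2).congr_deriv ?_
        rw [Finset.mul_sum]
        refine Finset.sum_congr rfl fun l' hl' => ?_
        rw [smul_eq_mul, ← mul_assoc, Finset.prod_erase_mul _ _ hl']
      have hFE : ∀ Q ∈ Dom δ, E a b W l l Q * F Q = 1 := by
        intro Q hQ
        rw [← prod_E D l hQ]
        exact Finset.mul_prod_erase Finset.univ (fun l' => E a b W l' l Q) (Finset.mem_univ l)
      have hFne : F Q ≠ 0 := right_ne_zero_of_mul_eq_one (hFE Q hQ)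
      have hEF : E a b W l l =ᶠ[𝓝 Q] fun Q => (F Q)⁻¹ := by
        filter_upwards [(isOpen_Dom δ).mem_nhds hQ] with Q' hQ'
        exact eq_inv_of_mul_eq_one_left (hFE Q' hQ')
      have h1 := hF.inv hFne
      have h2 : HasDerivAt (E a b W l l) (-(F Q * ∑ l' ∈ Finset.univ.erase l, g l') / F Q ^ 2) Q :=
        h1.congr_of_eventuallyEq hEF
      refine h2.congr_deriv ?_
      rw [hEF.eq_of_nhds]
      field_simp
  · obtain ⟨g, hg, hg'⟩ := hasDerivAt_G0 D hlj hQ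
    have hG : G h l j = G0 h l j := by
      funext Q
      simp [G, hlj]
    exact ⟨g, by rw [hG]; exact hg, hg'⟩

theorem analyticOnNhd_G (D : Dat a b δ W h) (l j : Fin r1 ⊕ Fin r2) :
    AnalyticOnNhd ℂ (G h l j) (Dom δ) := by
  refine DifferentiableOn.analyticOnNhd (fun Q hQ => ?_) (isOpen_Dom δ)
  obtain ⟨g, hg, -⟩ := hasDerivAt_G D l j hQ
  exact hg.differentiableAt.differentiableWithinAt

theorem analyticOnNhd_xr (D : Dat a b δ W h) (j : Fin r1 ⊕ Fin r2) :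
    AnalyticOnNhd ℂ (xr W j) (Dom δ) := by
  refine DifferentiableOn.analyticOnNhd (fun Q hQ => ?_) (isOpen_Dom δ)
  obtain ⟨t', ht'⟩ := exists_deriv_tau (r1 := r1) (r2 := r2) (ne_zero_of_mem hQ)
  exact (differentiableAt_id.mul ((D.W_diff j _ (tau_mem j D.pos hQ)).comp Q
    ht'.differentiableAt)).differentiableWithinAt

/-- The leading coefficients. -/
noncomputable def leadG (l j : Fin r1 ⊕ Fin r2) : ℂ :=
  if l = j then -∑ l' ∈ Finset.univ.erase j, (dg l' : ℂ) else dg l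

theorem leadG_eq (l j : Fin r1 ⊕ Fin r2) :
    leadG l j = (dg l : ℂ) - if l = j then (dd r1 r2 : ℂ) else 0 := by
  unfold leadG dd
  split_ifs with h
  · subst h
    have := Finset.add_sum_erase Finset.univ (fun l' : Fin r1 ⊕ Fin r2 => (dg l' : ℂ))
      (Finset.mem_univ l)
    push_cast
    rw [← this]
    ring
  · ring

theorem tendsto_tau (j : Fin r1 ⊕ Fin r2) :
    Tendsto (fun R : ℝ => tau r1 r2 (R : ℂ)) atTop (𝓝 0) := by
  have h1 : Tendsto (fun R : ℝ => (R ^ dd r1 r2)⁻¹) atTop (𝓝 0) :=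
    tendsto_inv_atTop_zero.comp (tendsto_pow_atTop (dd_pos j).ne')
  have h2 := (Complex.continuous_ofReal.tendsto 0).comp h1
  simp only [Complex.ofReal_zero] at h2
  refine h2.congr fun R => ?_
  simp [tau]

theorem tendsto_G0 (D : Dat a b δ W h) {l j : Fin r1 ⊕ Fin r2} (hlj : l ≠ j) :
    Tendsto (fun R : ℝ => G0 h l j (R : ℂ) / (Real.log R : ℂ)) atTop (𝓝 (dg l : ℂ)) := by
  have hlog : Tendsto (fun R : ℝ => ((Real.log R : ℝ) : ℂ)⁻¹) atTop (𝓝 0) := by
    have h1 : Tendsto (fun R : ℝ => (Real.log R)⁻¹) atTop (𝓝 0) :=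
      tendsto_inv_atTop_zero.comp Real.tendsto_log_atTop
    have h2 := (Complex.continuous_ofReal.tendsto 0).comp h1
    simp only [Complex.ofReal_zero] at h2
    refine h2.congr fun R => ?_
    simp
  have hh : Tendsto (fun R : ℝ => h l j (tau r1 r2 (R : ℂ))) atTop (𝓝 (h l j 0)) := by
    obtain ⟨g, hg, -⟩ := D.h_P l j hlj 0 (Metric.mem_ball_self D.pos)
    exact hg.continuousAt.tendsto.comp (tendsto_tau j)
  have h3 : Tendsto (fun R : ℝ => (dg l : ℂ) + h l j (tau r1 r2 (R : ℂ)) *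
      ((Real.log R : ℝ) : ℂ)⁻¹) atTop (𝓝 ((dg l : ℂ) + h l j 0 * 0)) :=
    tendsto_const_nhds.add (hh.mul hlog)
  rw [mul_zero, add_zero] at h3
  refine h3.congr' ?_
  filter_upwards [eventually_gt_atTop 1] with R hR
  have h4 : Complex.log (R : ℂ) = ((Real.log R : ℝ) : ℂ) :=
    (Complex.ofReal_log (by linarith)).symm
  have h5 : ((Real.log R : ℝ) : ℂ) ≠ 0 := by
    rw [Complex.ofReal_ne_zero]
    exact (Real.log_pos hR).ne'
  rw [G0, h4]
  field_simp

theorem tendsto_G (D : Dat a b δ W h) (l j : Fin r1 ⊕ Fin r2) :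
    Tendsto (fun R : ℝ => G h l j (R : ℂ) / (Real.log R : ℂ)) atTop (𝓝 (leadG l j)) := by
  by_cases hlj : l = j
  · subst hlj
    have h1 : Tendsto (fun R : ℝ => -∑ l' ∈ Finset.univ.erase l,
        G0 h l' l (R : ℂ) / (Real.log R : ℂ)) atTop
        (𝓝 (-∑ l' ∈ Finset.univ.erase l, (dg l' : ℂ))) :=
      (tendsto_finsetSum _ fun l' hl' => tendsto_G0 D (Finset.ne_of_mem_erase hl')).neg
    have h2 : leadG l l = -∑ l' ∈ Finset.univ.erase l, (dg l' : ℂ) := by simp [leadG]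
    rw [h2]
    refine h1.congr fun R => ?_
    simp only [G, if_true]
    rw [neg_div, Finset.sum_div]
  · have h2 : leadG l j = (dg l : ℂ) := by simp [leadG, hlj]
    rw [h2]
    refine (tendsto_G0 D hlj).congr fun R => ?_
    simp only [G, if_neg hlj]

/-- The determinant of the leading coefficients is not zero. -/
theorem det_leadG_ne_zero (j0 : Fin r1 ⊕ Fin r2) :
    (Matrix.of fun l j : {j : Fin r1 ⊕ Fin r2 // j ≠ j0} => leadG l.1 j.1).det ≠ 0 := by
  intro h0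
  obtain ⟨v, hv, hMv⟩ := Matrix.exists_mulVec_eq_zero_iff.2 h0
  apply hv
  have hd : (dd r1 r2 : ℂ) ≠ 0 := Nat.cast_ne_zero.2 (dd_pos j0).ne'
  have h1 : ∀ l : {j : Fin r1 ⊕ Fin r2 // j ≠ j0},
      (dg l.1 : ℂ) * ∑ j, v j - (dd r1 r2 : ℂ) * v l = 0 := by
    intro l
    have h2 := congrFun hMv l
    simp only [Matrix.mulVec, dotProduct, Matrix.of_apply, leadG_eq, Pi.zero_apply] at h2
    rw [← h2, Finset.mul_sum]
    simp_rw [sub_mul, Finset.sum_sub_distrib]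
    congr 1
    rw [Finset.sum_eq_single l]
    · simp
    · intro j _ hj
      have : l.1 ≠ j.1 := fun h => hj (Subtype.ext h.symm)
      simp [this]
    · intro h
      exact absurd (Finset.mem_univ _) h
  have h3 : (dd r1 r2 : ℂ) = dg j0 + ∑ l : {j : Fin r1 ⊕ Fin r2 // j ≠ j0}, (dg l.1 : ℂ) := by
    have h4 := Finset.add_sum_erase Finset.univ (fun l' : Fin r1 ⊕ Fin r2 => (dg l' : ℂ))
      (Finset.mem_univ j0)
    unfold dd
    push_cast
    rw [← h4]
    congr 1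
    rw [← Finset.sum_subtype (Finset.univ.erase j0) (p := fun j => j ≠ j0) (by simp)
      (fun l' : Fin r1 ⊕ Fin r2 => (dg l' : ℂ))]
  have h5 : ∑ j, v j = 0 := by
    have h6 := Finset.sum_congr rfl fun l (_ : l ∈ Finset.univ) => h1 l
    rw [Finset.sum_sub_distrib, ← Finset.sum_mul, ← Finset.mul_sum, Finset.sum_const_zero,
      h3] at h6
    have h7 : (dg j0 : ℂ) * ∑ j, v j = 0 := by linear_combination -h6
    exact (mul_eq_zero.1 h7).resolve_left (Nat.cast_ne_zero.2 (dg_pos j0).ne')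
  funext l
  have h6 := h1 l
  rw [h5, mul_zero, zero_sub, neg_eq_zero] at h6
  exact (mul_eq_zero.1 h6).resolve_left hd

/-- The determinant of the logarithms (with arbitrary constants) is not locally zero. -/
theorem det_not_locally_zero (D : Dat a b δ W h) (j0 : Fin r1 ⊕ Fin r2) {κ : ℂ} (hκ : κ ≠ 0)
    (c : Fin r1 ⊕ Fin r2 → Fin r1 ⊕ Fin r2 → ℂ) {Q1 : ℂ} (hQ1 : Q1 ∈ Dom δ)
    (h0 : ∀ᶠ Q in 𝓝 Q1, (Matrix.of fun l j : {j : Fin r1 ⊕ Fin r2 // j ≠ j0} =>
      c l.1 j.1 + κ * G h l.1 j.1 Q).det = 0) : False := by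
  let F : ℂ → ℂ := fun Q => (Matrix.of fun l j : {j : Fin r1 ⊕ Fin r2 // j ≠ j0} =>
      c l.1 j.1 + κ * G h l.1 j.1 Q).det
  have hF : AnalyticOnNhd ℂ F (Dom δ) := by
    intro Q hQ
    simp only [F, Matrix.det_apply]
    refine Finset.analyticAt_fun_sum _ fun σ _ => ?_
    refine AnalyticAt.const_smul ?_
    refine Finset.analyticAt_fun_prod _ fun i _ => ?_
    exact analyticAt_const.add (analyticAt_const.mul (analyticOnNhd_G D _ _ Q hQ))
  have hF0 := hF.eqOn_zero_of_preconnected_of_eventuallyEq_zero (isPreconnected_Dom δ) hQ1 h0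
  -- the limit
  have hlim : Tendsto (fun R : ℝ => (Matrix.of fun l j : {j : Fin r1 ⊕ Fin r2 // j ≠ j0} =>
      (c l.1 j.1 + κ * G h l.1 j.1 (R : ℂ)) / (Real.log R : ℂ)).det) atTop
      (𝓝 (Matrix.of fun l j : {j : Fin r1 ⊕ Fin r2 // j ≠ j0} => κ * leadG l.1 j.1).det) := by
    have hlog : Tendsto (fun R : ℝ => ((Real.log R : ℝ) : ℂ)⁻¹) atTop (𝓝 0) := by
      have h1 : Tendsto (fun R : ℝ => (Real.log R)⁻¹) atTop (𝓝 0) :=
        tendsto_inv_atTop_zero.comp Real.tendsto_log_atTop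
      have h2 := (Complex.continuous_ofReal.tendsto 0).comp h1
      simp only [Complex.ofReal_zero] at h2
      refine h2.congr fun R => ?_
      simp
    have hM : Tendsto (fun R : ℝ => (Matrix.of fun l j : {j : Fin r1 ⊕ Fin r2 // j ≠ j0} =>
        (c l.1 j.1 + κ * G h l.1 j.1 (R : ℂ)) / (Real.log R : ℂ))) atTop
        (𝓝 (Matrix.of fun l j : {j : Fin r1 ⊕ Fin r2 // j ≠ j0} => κ * leadG l.1 j.1)) := by
      refine tendsto_pi_nhds.2 fun l => tendsto_pi_nhds.2 fun j => ?_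
      have h1 : Tendsto (fun R : ℝ => c l.1 j.1 * ((Real.log R : ℝ) : ℂ)⁻¹ +
          κ * (G h l.1 j.1 (R : ℂ) / (Real.log R : ℂ))) atTop
          (𝓝 (c l.1 j.1 * 0 + κ * leadG l.1 j.1)) :=
        (tendsto_const_nhds.mul hlog).add (tendsto_const_nhds.mul (tendsto_G D _ _))
      rw [mul_zero, zero_add] at h1
      refine h1.congr fun R => ?_
      simp only [Matrix.of_apply]
      ring
    exact (Continuous.matrix_det continuous_id).continuousAt.tendsto.comp hM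
  have hzero : ∀ᶠ R : ℝ in atTop, (Matrix.of fun l j : {j : Fin r1 ⊕ Fin r2 // j ≠ j0} =>
      (c l.1 j.1 + κ * G h l.1 j.1 (R : ℂ)) / (Real.log R : ℂ)).det = 0 := by
    filter_upwards [eventually_gt_atTop (max 1 (1 / δ))] with R hR
    have hRD : (R : ℂ) ∈ Dom δ := by
      change max 1 (1 / δ) < (R : ℂ).re
      rwa [Complex.ofReal_re]
    have h1 : (Matrix.of fun l j : {j : Fin r1 ⊕ Fin r2 // j ≠ j0} =>
        (c l.1 j.1 + κ * G h l.1 j.1 (R : ℂ)) / (Real.log R : ℂ)) =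
        ((Real.log R : ℝ) : ℂ)⁻¹ • (Matrix.of fun l j : {j : Fin r1 ⊕ Fin r2 // j ≠ j0} =>
        (c l.1 j.1 + κ * G h l.1 j.1 (R : ℂ))) := by
      ext l j
      simp only [Matrix.of_apply, Matrix.smul_apply, smul_eq_mul]
      ring
    rw [h1, Matrix.det_smul]
    have h2 : F R = 0 := hF0 hRD
    have h3 : (Matrix.of fun l j : {j : Fin r1 ⊕ Fin r2 // j ≠ j0} =>
        (c l.1 j.1 + κ * G h l.1 j.1 (R : ℂ))).det = 0 := h2
    rw [h3, mul_zero]
  have h4 : (Matrix.of fun l j : {j : Fin r1 ⊕ Fin r2 // j ≠ j0} => κ * leadG l.1 j.1).det = 0 :=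
    tendsto_nhds_unique (hlim.congr' hzero) tendsto_const_nhds
  have h5 : (Matrix.of fun l j : {j : Fin r1 ⊕ Fin r2 // j ≠ j0} => κ * leadG l.1 j.1) =
      κ • (Matrix.of fun l j : {j : Fin r1 ⊕ Fin r2 // j ≠ j0} => leadG l.1 j.1) := by
    ext l j
    simp
  rw [h5, Matrix.det_smul] at h4
  exact mul_ne_zero (pow_ne_zero _ hκ) (det_leadG_ne_zero j0) h4

end CP

open CP Taylor

theorem complex_part (r1 r2 : ℕ) (a : Fin r1 → ℤ) (b : Fin r2 → ℤ) (ha : Function.Injective a)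
    (hb : Function.Injective b) (j0 : Fin r1 ⊕ Fin r2) :
    ∃ B : ℝ, ∀ Q1 : ℝ, B ≤ Q1 → ∀ e κ : ℂ, e ≠ 0 → κ ≠ 0 →
      ∃ ξ : Fin r1 ⊕ Fin r2 → PowerSeries ℂ,
        (∀ j, (genF a b (PowerSeries.C (Q1 : ℂ) + PowerSeries.C e * PowerSeries.X)).eval (ξ j) = 0) ∧
        ∀ y : Fin r1 ⊕ Fin r2 → Fin r1 ⊕ Fin r2 → PowerSeries ℂ,
          (∀ l j, PowerSeries.C κ * PowerSeries.derivative ℂ
              ((genH a b (PowerSeries.C (Q1 : ℂ) + PowerSeries.C e * PowerSeries.X) l).eval (ξ j)) =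
            (genH a b (PowerSeries.C (Q1 : ℂ) + PowerSeries.C e * PowerSeries.X) l).eval (ξ j) *
              PowerSeries.derivative ℂ (y l j)) →
          (Matrix.of fun l j : {j : Fin r1 ⊕ Fin r2 // j ≠ j0} => y l j).det ≠ 0 := by
  obtain ⟨δ, hδ, W, h, h1, h2, h3⟩ := exists_data a b ha hb
  have D : Dat a b δ W h := ⟨hδ, h1, h2, h3⟩
  refine ⟨max 1 (1 / δ) + 1, fun Q1 hQ1 e κ he hκ => ?_⟩
  have hQ1D : (Q1 : ℂ) ∈ Dom δ := by
    change max 1 (1 / δ) < (Q1 : ℂ).re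
    rw [Complex.ofReal_re]
    linarith
  -- composition with the line
  let L : ℂ → ℂ := fun s => (Q1 : ℂ) + e * s
  have hL : AnalyticAt ℂ L 0 := (lin (Q1 : ℂ) e).2
  have hL0 : L 0 = Q1 := by simp [L]
  have hcomp : ∀ {f : ℂ → ℂ}, AnalyticOnNhd ℂ f (Dom δ) → AnalyticAt ℂ (fun s => f (L s)) 0 := by
    intro f hf
    exact AnalyticAt.fun_comp (by rw [hL0]; exact hf _ hQ1D) hL
  have hLD : ∀ᶠ s in 𝓝 (0 : ℂ), L s ∈ Dom δ :=
    hL.continuousAt.eventually_mem (by rw [hL0]; exact (isOpen_Dom δ).mem_nhds hQ1D)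
  have hLder : ∀ s, HasDerivAt L e s := by
    intro s
    exact (((hasDerivAt_id s).const_mul e).const_add (Q1 : ℂ)).congr_deriv (mul_one e)
  let X : Fin r1 ⊕ Fin r2 → An := fun j => ⟨fun s => xr W j (L s), hcomp (analyticOnNhd_xr D j)⟩
  rw [← T_lin]
  have hgenH : ∀ l j, (genH a b (T (lin (Q1 : ℂ) e)) l).eval (T (X j)) =
      tay (fun s => E a b W l j (L s)) := by
    intro l j
    rw [← genH_map, Polynomial.eval_map_apply, T_apply]
    congr 1
    funext s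
    rw [← ev_apply, ← Polynomial.eval_map_apply, genH_map]
    rfl
  have hE : ∀ l j, AnalyticOnNhd ℂ (E a b W l j) (Dom δ) := by
    intro l j
    refine DifferentiableOn.analyticOnNhd (fun Q hQ => ?_) (isOpen_Dom δ)
    obtain ⟨g, -, hg⟩ := hasDerivAt_G D l j hQ
    exact hg.differentiableAt.differentiableWithinAt
  refine ⟨fun j => T (X j), fun j => ?_, fun y hy => ?_⟩
  · rw [← genF_map, Polynomial.eval_map_apply]
    apply T_eq_zero
    filter_upwards [hLD] with s hs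
    rw [← ev_apply, ← Polynomial.eval_map_apply, genF_map, genF, Polynomial.eval_sub,
      Polynomial.eval_one, Polynomial.eval_prod, sub_eq_zero]
    exact prod_E D j hs
  · intro hdet
    -- the analytic functions with Taylor series `y`
    let c : Fin r1 ⊕ Fin r2 → Fin r1 ⊕ Fin r2 → ℂ := fun l j =>
      PowerSeries.constantCoeff (y l j) - κ * G h l j (Q1 : ℂ)
    let Y : Fin r1 ⊕ Fin r2 → Fin r1 ⊕ Fin r2 → An := fun l j =>
      ⟨fun s => c l j + κ * G h l j (L s),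
        analyticAt_const.add (analyticAt_const.mul (hcomp (analyticOnNhd_G D l j)))⟩
    have hY : ∀ l j, y l j = T (Y l j) := by
      intro l j
      have hEan : AnalyticAt ℂ (fun s => E a b W l j (L s)) 0 := hcomp (hE l j)
      have hE0 : tay (fun s => E a b W l j (L s)) ≠ 0 := by
        intro h0
        have := constantCoeff_tay (fun s => E a b W l j (L s))
        rw [h0, map_zero] at this
        have h4 := E_ne_zero D l j hQ1D
        rw [← hL0] at h4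
        exact h4 this.symm
      apply PowerSeries.derivative.ext
      · apply mul_left_cancel₀ hE0
        rw [← hgenH, ← hy l j, hgenH, T_apply, derivative_tay, derivative_tay, ← tay_const,
          ← tay_mul analyticAt_const hEan.deriv, ← tay_mul hEan (Y l j).2.deriv]
        apply tay_congr
        filter_upwards [hLD] with s hs
        obtain ⟨g, hg, hg'⟩ := hasDerivAt_G D l j hs
        have h5 : HasDerivAt (fun s => E a b W l j (L s)) (E a b W l j (L s) * g * e) s :=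
          hg'.comp s (hLder s)
        have h6 : HasDerivAt (fun s => c l j + κ * G h l j (L s)) (κ * (g * e)) s :=
          ((hg.comp s (hLder s)).const_mul κ).const_add _
        simp only [Pi.mul_apply]
        rw [h5.deriv]
        have h7 : deriv (Y l j : ℂ → ℂ) s = κ * (g * e) := h6.deriv
        rw [h7]
        ring
      · rw [T_apply, constantCoeff_tay]
        change _ = c l j + κ * G h l j (L 0)
        rw [hL0]
        simp [c]
    let Dt : An := (Matrix.of fun l j : {j : Fin r1 ⊕ Fin r2 // j ≠ j0} => Y l j).det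
    have hdet2 : T Dt = 0 := by
      rw [RingHom.map_det, ← hdet]
      congr 1
      ext l j
      simp [hY]
    have hdet3 := eventually_eq_zero Dt.2 hdet2
    have hdet4 : ∀ᶠ s in 𝓝 (0 : ℂ), (Matrix.of fun l j : {j : Fin r1 ⊕ Fin r2 // j ≠ j0} =>
        c l.1 j.1 + κ * G h l.1 j.1 (L s)).det = 0 := by
      filter_upwards [hdet3] with s hs
      rw [← ev_apply, RingHom.map_det] at hs
      rw [← hs]
      rfl
    refine det_not_locally_zero D j0 hκ c hQ1D ?_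
    have hback : Tendsto (fun Q : ℂ => (Q - Q1) / e) (𝓝 (Q1 : ℂ)) (𝓝 0) := by
      have : ContinuousAt (fun Q : ℂ => (Q - Q1) / e) (Q1 : ℂ) := by fun_prop
      have h8 := this.tendsto
      simpa using h8
    filter_upwards [hback.eventually hdet4] with Q hQ
    have h9 : L ((Q - Q1) / e) = Q := by
      simp only [L]
      field_simp
      ring
    rwa [h9] at hQ

end Pool.Agent.Work.MP_59f3ad_nt
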