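import Mathlib
import Pool.Agent.Work.MP_59f3ad_nt.Family

/-!
A fixed number field contains roots of `famF a b (D p^N)` for finitely many `N` only.
-/

open Polynomial Finset NumberField Filter Topology

namespace Pool.Agent.Work.MP_59f3ad_nt

variable {r1 r2 : ℕ}

theorem exists_gap_of_finite (T : Set ℝ) (hT : T.Finite) (h : ∀ t ∈ T, 1 < t) :
    ∃ ρ : ℝ, 1 < ρ ∧ ρ ≤ 2 ∧ ∀ t ∈ T, ρ < t := by
  induction T, hT using Set.Finite.induction_on with
  | empty => exact ⟨2, by norm_num, le_rfl, fun t ht => absurd ht (Set.notMem_empty t)⟩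
  | @insert a s _ _ ih =>
    obtain ⟨ρ, h1, h2, h3⟩ := ih fun t ht => h t (Set.mem_insert_of_mem _ ht)
    have ha := h a (Set.mem_insert _ _)
    refine ⟨min ρ ((1 + a) / 2), lt_min h1 (by linarith), (min_le_left _ _).trans h2, ?_⟩
    intro t ht
    rcases Set.mem_insert_iff.mp ht with rfl | ht
    · exact (min_le_right _ _).trans_lt (by linarith)
    · exact (min_le_left _ _).trans_lt (h3 t ht)

/-- Units all of whose conjugates are close to the unit disk lie on the unit circle. -/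
theorem exists_house_gap (K : Type*) [Field K] [NumberField K] :
    ∃ ρ : ℝ, 1 < ρ ∧ ∀ w : (𝓞 K)ˣ, (∀ σ : K →+* ℂ, ‖σ ((w : 𝓞 K) : K)‖ ≤ ρ) →
      ∀ σ : K →+* ℂ, ‖σ ((w : 𝓞 K) : K)‖ = 1 := by
  have hfin := NumberField.Embeddings.finite_of_norm_le K ℂ (2 : ℝ)
  set F : Set K := {x : K | IsIntegral ℤ x ∧ ∀ φ : K →+* ℂ, ‖φ x‖ ≤ 2} with hF
  set T : Set ℝ := (⋃ φ : K →+* ℂ, (fun x => ‖φ x‖) '' F) ∩ {t | 1 < t} with hT
  have hTfin : T.Finite := by
    refine Set.Finite.subset (Set.finite_iUnion fun φ => hfin.image _) Set.inter_subset_left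
  obtain ⟨ρ, h1, h2, h3⟩ := exists_gap_of_finite T hTfin fun t ht => ht.2
  refine ⟨ρ, h1, fun w hw => ?_⟩
  have hwF : ((w : 𝓞 K) : K) ∈ F :=
    ⟨RingOfIntegers.isIntegral_coe _, fun φ => (hw φ).trans h2⟩
  have hle : ∀ σ : K →+* ℂ, ‖σ ((w : 𝓞 K) : K)‖ ≤ 1 := by
    intro σ
    by_contra! hcon
    have h4 : ‖σ ((w : 𝓞 K) : K)‖ ∈ T :=
      ⟨Set.mem_iUnion.mpr ⟨σ, Set.mem_image_of_mem _ hwF⟩, hcon⟩
    exact absurd (hw σ) (not_le.mpr (h3 _ h4))
  obtain ⟨n, hn, hpow⟩ := NumberField.Embeddings.pow_eq_one_of_norm_le_one K ℂ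
    (x := ((w : 𝓞 K) : K)) (by
      intro h0
      have : (w : 𝓞 K) = 0 := RingOfIntegers.ext h0
      exact w.ne_zero this) (RingOfIntegers.isIntegral_coe _) hle
  intro σ
  have h5 : ‖σ ((w : 𝓞 K) : K)‖ ^ n = 1 := by
    rw [← norm_pow, ← map_pow, hpow, map_one, norm_one]
  exact (pow_eq_one_iff_of_nonneg (norm_nonneg _) hn.ne').mp h5

theorem exists_growth (p : ℕ) (hp : 2 ≤ p) (c k : ℕ) (C : ℝ) (ρ : ℝ) (hρ : 1 < ρ) :
    ∃ N0, ∀ N, N0 ≤ N → C * ((p : ℝ) ^ N) ^ k < ρ ^ (p ^ (N - c)) := by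
  have h1 := tendsto_pow_const_div_const_pow_of_one_lt k hρ
  have h2 : Tendsto (fun N : ℕ => p ^ (N - c)) atTop atTop := by
    refine (tendsto_pow_atTop_atTop_of_one_lt (by omega : 1 < p)).comp ?_
    exact tendsto_sub_atTop_nat c
  have h3 := h1.comp h2
  set M : ℝ := |C| * ((p : ℝ) ^ c) ^ k + 1 with hM
  have hMpos : 0 < M := by positivity
  have h4 := (h3.eventually (gt_mem_nhds (inv_pos.mpr hMpos))).and (eventually_ge_atTop c)
  obtain ⟨N0, hN0⟩ := eventually_atTop.mp h4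
  refine ⟨N0, fun N hN => ?_⟩
  obtain ⟨h5, h6⟩ := hN0 N hN
  simp only [Function.comp_apply] at h5
  have hρt : (0 : ℝ) < ρ ^ (p ^ (N - c)) := by positivity
  rw [div_lt_iff₀ hρt] at h5
  have h7 : ((p : ℝ) ^ N) ^ k = ((p : ℝ) ^ c) ^ k * (((p ^ (N - c) : ℕ) : ℝ)) ^ k := by
    push_cast
    rw [← mul_pow, ← pow_add]
    congr 2
    omega
  set t : ℝ := (((p ^ (N - c) : ℕ) : ℝ)) ^ k with ht
  have ht0 : 0 ≤ t := by positivity
  calc C * ((p : ℝ) ^ N) ^ k ≤ |C| * (((p : ℝ) ^ c) ^ k * t) := by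
        rw [h7]
        exact mul_le_mul_of_nonneg_right (le_abs_self C) (by positivity)
    _ ≤ M * t := by
        rw [hM]
        nlinarith
    _ < M * (M⁻¹ * ρ ^ (p ^ (N - c))) := mul_lt_mul_of_pos_left h5 hMpos
    _ = ρ ^ (p ^ (N - c)) := by
        rw [← mul_assoc, mul_inv_cancel₀ hMpos.ne', one_mul]

theorem cen_eq_mul (a : Fin r1 → ℤ) (b : Fin r2 → ℤ) (Q : ℤ) (c : Fin r1 ⊕ (Fin r2 × Bool)) :
    cen a b Q c = (Q : ℂ) * cen a b 1 c := by
  rcases c with i | ⟨k, s⟩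
  · simp [cen_inl]
  · cases s
    · simp [cen_inr_false]; ring
    · simp [cen_inr_true]; ring

/-- A bound for the centers. -/
noncomputable def cenA (a : Fin r1 → ℤ) (b : Fin r2 → ℤ) : ℝ :=
  ∑ c, ‖cen a b 1 c‖

theorem cenA_nonneg (a : Fin r1 → ℤ) (b : Fin r2 → ℤ) : 0 ≤ cenA a b :=
  Finset.sum_nonneg fun _ _ => norm_nonneg _

theorem norm_cen_le (a : Fin r1 → ℤ) (b : Fin r2 → ℤ) (Q : ℤ) (c : Fin r1 ⊕ (Fin r2 × Bool)) :
    ‖cen a b Q c‖ ≤ |(Q : ℝ)| * cenA a b := by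
  rw [cen_eq_mul, norm_mul, Complex.norm_intCast]
  refine mul_le_mul_of_nonneg_left ?_ (abs_nonneg _)
  exact Finset.single_le_sum (f := fun c => ‖cen a b 1 c‖) (fun _ _ => norm_nonneg _)
    (Finset.mem_univ c)

/-- The block of the index `c`. -/
def blk (c : Fin r1 ⊕ (Fin r2 × Bool)) : Fin r1 ⊕ Fin r2 := Sum.map id Prod.fst c

theorem aeval_famH_inl (a : Fin r1 → ℤ) (b : Fin r2 → ℤ) (Q : ℤ) (i : Fin r1) (z : ℂ) :
    aeval z ((famH a b (Sum.inl i)).scaleRoots Q) = z - cen a b Q (Sum.inl i) := by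
  rw [famH, Sum.elim_inl, X_sub_C_scaleRoots, map_sub, aeval_X, aeval_C, cen_inl, mul_comm]
  rfl

theorem aeval_famH_inr (a : Fin r1 → ℤ) (b : Fin r2 → ℤ) (Q : ℤ) (k : Fin r2) (z : ℂ) :
    aeval z ((famH a b (Sum.inr k)).scaleRoots Q) =
      (z - cen a b Q (Sum.inr (k, true))) * (z - cen a b Q (Sum.inr (k, false))) := by
  rw [famH, Sum.elim_inr, scaleRoots_quad, ← quad_eq, map_add, map_pow, map_sub, aeval_X, aeval_C,
    aeval_C]
  rfl

theorem norm_aeval_famH_le (a : Fin r1 → ℤ) (b : Fin r2 → ℤ) (Q : ℤ) (hQ : 1 ≤ |Q|)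
    (j : Fin r1 ⊕ Fin r2) (z : ℂ) (c : Fin r1 ⊕ (Fin r2 × Bool)) (h : ‖z - cen a b Q c‖ ≤ 1) :
    ‖aeval z ((famH a b j).scaleRoots Q)‖ ≤ ((1 + 2 * cenA a b) * |(Q : ℝ)|) ^ 2 := by
  have hQR : (1 : ℝ) ≤ |(Q : ℝ)| := by exact_mod_cast hQ
  have hA := cenA_nonneg a b
  set B := (1 + 2 * cenA a b) * |(Q : ℝ)| with hB
  have hB1 : 1 ≤ B := by nlinarith
  have key : ∀ c', ‖z - cen a b Q c'‖ ≤ B := by
    intro c'
    have h1 : z - cen a b Q c' = (z - cen a b Q c) + (cen a b Q c - cen a b Q c') := by ring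
    have h2 : ‖cen a b Q c - cen a b Q c'‖ ≤ |(Q : ℝ)| * cenA a b + |(Q : ℝ)| * cenA a b :=
      (norm_sub_le _ _).trans (add_le_add (norm_cen_le a b Q c) (norm_cen_le a b Q c'))
    rw [h1]
    refine (norm_add_le _ _).trans ?_
    rw [hB]
    nlinarith
  rcases j with i | k
  · rw [aeval_famH_inl]
    have := key (Sum.inl i)
    nlinarith
  · rw [aeval_famH_inr, norm_mul, pow_two]
    exact mul_le_mul (key _) (key _) (norm_nonneg _) (by linarith)

theorem one_lt_norm_aeval_famH (a : Fin r1 → ℤ) (b : Fin r2 → ℤ) (Q : ℤ) (hQ : 4 ≤ |Q|)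
    (ha : Function.Injective a) (hb : Function.Injective b)
    (j : Fin r1 ⊕ Fin r2) (z : ℂ) (c : Fin r1 ⊕ (Fin r2 × Bool)) (h : ‖z - cen a b Q c‖ ≤ 1)
    (hj : blk c ≠ j) : 1 < ‖aeval z ((famH a b j).scaleRoots Q)‖ := by
  have hfar : ∀ c', c ≠ c' → 3 ≤ ‖z - cen a b Q c'‖ := by
    intro c' hne
    have h3 := cen_dist a b Q hQ ha hb c c' hne
    have h4 : ‖cen a b Q c - cen a b Q c'‖ ≤ ‖z - cen a b Q c'‖ + ‖z - cen a b Q c‖ := by
      have h5 : cen a b Q c - cen a b Q c' = (z - cen a b Q c') - (z - cen a b Q c) := by ring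
      rw [h5]
      exact norm_sub_le _ _
    linarith
  rcases j with i | k
  · rw [aeval_famH_inl]
    have := hfar (Sum.inl i) (by rintro rfl; exact hj rfl)
    linarith
  · rw [aeval_famH_inr, norm_mul]
    have h1 := hfar (Sum.inr (k, true)) (by rintro rfl; exact hj rfl)
    have h2 := hfar (Sum.inr (k, false)) (by rintro rfl; exact hj rfl)
    nlinarith

/-- For a fixed number field `L` with the strong Leopoldt property, the polynomials
`famF a b (D p^N)` have a root in `L` for finitely many `N` only. -/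
theorem no_root_of_large (L : Type*) [Field L] [NumberField L] (p c : ℕ) (hp : p.Prime)
    (hS : SLeo L p c) (a : Fin r1 → ℤ) (b : Fin r2 → ℤ) (ha : Function.Injective a)
    (hb : Function.Injective b) (hr : 2 ≤ r1 + r2) (hfin : Module.finrank ℚ L = r1 + 2 * r2)
    (D : ℤ) (hD0 : D ≠ 0) (hD4 : 4 ∣ D) :
    ∃ N0, ∀ N, N0 ≤ N → ∀ x : 𝓞 L, aeval x (famF a b (D * (p : ℤ) ^ N)) ≠ 0 := by
  obtain ⟨ρ, hρ1, hρ⟩ := exists_house_gap L
  set d := r1 + 2 * r2 with hd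
  set C : ℝ := (((1 + 2 * cenA a b) * |(D : ℝ)|) ^ 2) ^ d with hC
  obtain ⟨N0, hN0⟩ := exists_growth p hp.two_le c (2 * d) C ρ hρ1
  refine ⟨max N0 c, fun N hN x hx => ?_⟩
  set Q : ℤ := D * (p : ℤ) ^ N with hQ
  have hp0 : (p : ℤ) ≠ 0 := by exact_mod_cast hp.ne_zero
  have hQ0 : Q ≠ 0 := mul_ne_zero hD0 (pow_ne_zero _ hp0)
  have hQ4 : 4 ≤ |Q| :=
    Int.le_of_dvd (abs_pos.mpr hQ0) ((dvd_abs 4 Q).mpr (hD4.mul_right _))
  obtain ⟨u, hu, hprod⟩ := exists_units a b Q x hx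
  obtain ⟨e, he, -⟩ := exists_bij a b Q x hQ4 ha hb (by omega) hfin hx
  -- two distinct indices
  obtain ⟨j0, j1, hj⟩ : ∃ j0 j1 : Fin r1 ⊕ Fin r2, j0 ≠ j1 := by
    have : Nontrivial (Fin r1 ⊕ Fin r2) := by
      rw [← Fintype.one_lt_card_iff_nontrivial]
      simp
      omega
    exact exists_pair_ne _
  obtain ⟨c1, hc1⟩ : ∃ c1 : Fin r1 ⊕ (Fin r2 × Bool), blk c1 = j1 := by
    rcases j1 with i | k
    · exact ⟨Sum.inl i, rfl⟩
    · exact ⟨Sum.inr (k, true), rfl⟩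
  -- `u_{j0}^d = 1 mod Q`
  have hxd : (Q : 𝓞 L) ∣ 1 - x ^ d := by
    have h1 := dvd_aeval_scaleRoots_sub x Q (∏ j, famH a b j)
      (monic_prod_of_monic _ _ fun j _ => famH_monic a b j)
    rw [famH_prod_natDegree, scaleRoots_prod, famH_scaleRoots_prod] at h1
    have h2 : aeval x (famG a b Q) = 1 := by
      rw [famF, map_sub, map_one, sub_eq_zero] at hx
      exact hx
    rwa [h2] at h1
  have hud : (Q : 𝓞 L) ∣ (u j0 : 𝓞 L) ^ d - 1 := by
    have h1 := dvd_aeval_scaleRoots_sub x Q (famH a b j0) (famH_monic a b j0)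
    rw [← hu j0] at h1
    have h2 : (Q : 𝓞 L) ∣ (u j0 : 𝓞 L) ^ d - (x ^ (famH a b j0).natDegree) ^ d :=
      h1.trans (sub_dvd_pow_sub_pow _ _ _)
    have h3 : (Q : 𝓞 L) ∣ (x ^ (famH a b j0).natDegree) ^ d - 1 := by
      rw [← pow_mul, mul_comm, pow_mul]
      refine Dvd.dvd.trans ?_ (sub_one_dvd_pow_sub_one (x ^ d) _)
      rw [← dvd_neg]
      convert hxd using 1
      ring
    have h4 := dvd_add h2 h3
    convert h4 using 1
    ring
  have hupow : (p : 𝓞 L) ^ (N - c + c) ∣ ((u j0 ^ d : (𝓞 L)ˣ) : 𝓞 L) - 1 := by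
    rw [Units.val_pow_eq_pow_val]
    refine Dvd.dvd.trans ?_ hud
    have h1 : N - c + c = N := by omega
    rw [h1, hQ]
    push_cast
    exact Dvd.intro_left _ rfl
  obtain ⟨w, hw⟩ := hS _ _ hupow
  have hval : ∀ σ : L →+* ℂ, σ ((u j0 : 𝓞 L) : L) =
      aeval (σ (x : L)) ((famH a b j0).scaleRoots Q) := by
    intro σ
    rw [hu j0]
    exact (aeval_algHom_apply ((σ.comp (algebraMap (𝓞 L) L)).toIntAlgHom) x _).symm
  have hnorm : ∀ σ : L →+* ℂ, ‖σ ((u j0 : 𝓞 L) : L)‖ ^ d = ‖σ ((w : 𝓞 L) : L)‖ ^ p ^ (N - c) := by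
    intro σ
    have h1 := congrArg (fun v : (𝓞 L)ˣ => ‖σ ((v : 𝓞 L) : L)‖) hw
    simpa using h1
  have hwle : ∀ σ : L →+* ℂ, ‖σ ((w : 𝓞 L) : L)‖ ≤ ρ := by
    intro σ
    by_contra! hcon
    have h1 : ρ ^ p ^ (N - c) ≤ ‖σ ((w : 𝓞 L) : L)‖ ^ p ^ (N - c) :=
      pow_le_pow_left₀ (by linarith) hcon.le _
    rw [← hnorm, hval] at h1
    have h2 := norm_aeval_famH_le a b Q (by omega) j0 (σ (x : L)) (e σ) (he σ)
    have h3 := pow_le_pow_left₀ (norm_nonneg _) h2 d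
    have h4 := hN0 N ((le_max_left _ _).trans hN)
    have h5 : C * ((p : ℝ) ^ N) ^ (2 * d) = (((1 + 2 * cenA a b) * |(Q : ℝ)|) ^ 2) ^ d := by
      have h6 : |(Q : ℝ)| = |(D : ℝ)| * (p : ℝ) ^ N := by
        rw [hQ]
        push_cast
        rw [abs_mul, abs_of_nonneg (by positivity : (0 : ℝ) ≤ (p : ℝ) ^ N)]
      rw [h6, hC, pow_mul, ← mul_pow]
      congr 1
      ring
    rw [h5] at h4
    linarith
  have hw1 := hρ w hwle
  have hu1 : ∀ σ : L →+* ℂ, ‖σ ((u j0 : 𝓞 L) : L)‖ = 1 := by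
    intro σ
    have h1 := hnorm σ
    rw [hw1 σ, one_pow] at h1
    exact (pow_eq_one_iff_of_nonneg (norm_nonneg _) (by omega)).mp h1
  have h2 := one_lt_norm_aeval_famH a b Q hQ4 ha hb j0 ((e.symm c1) (x : L)) c1 (by
    have := he (e.symm c1)
    rwa [e.apply_symm_apply] at this) (by rw [hc1]; exact hj.symm)
  rw [← hval, hu1] at h2
  exact lt_irrefl _ h2

/-- Existence of the fields, with large discriminant. -/
theorem exists_field_discr (r1 r2 : ℕ) (hr : 2 ≤ r1 + r2) (p : ℕ) (hp : p.Prime)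
    (a : Fin r1 → ℤ) (b : Fin r2 → ℤ) (ha : Function.Injective a)
    (hb : Function.Injective b) (D : ℤ) (hD0 : D ≠ 0) (hD : 4 * famD a b ∣ D) (hpD : (p : ℤ) ∣ D) (B : ℕ) :
    ∃ (N : ℕ) (K : Type) (_ : Field K) (_ : NumberField K) (x : 𝓞 K),
      Module.finrank ℚ K = r1 + 2 * r2 ∧ aeval x (famF a b (D * (p : ℤ) ^ N)) = 0 ∧
      (B : ℤ) < |discr K| := by
  have hD4 : (4 : ℤ) ∣ D := (Dvd.intro _ rfl).trans hD
  have hp0 : (p : ℤ) ≠ 0 := by exact_mod_cast hp.ne_zero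
  have hd1 : 1 ≤ r1 + 2 * r2 := by omega
  -- roots in the algebraic closure
  have hroot : ∀ N : ℕ, ∃ z : AlgebraicClosure ℚ, aeval z (famF a b (D * (p : ℤ) ^ N)) = 0 := by
    intro N
    refine IsAlgClosed.exists_aeval_eq_zero_of_injective _ ?_ _ ?_
    · exact (algebraMap ℤ (AlgebraicClosure ℚ)).injective_int
    · rw [degree_eq_natDegree (famF_monic a b _ hd1).ne_zero, famF_natDegree a b _ hd1]
      have : (r1 + 2 * r2 : ℕ) ≠ 0 := by omega
      exact_mod_cast this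
  choose z hz using hroot
  have hzint : ∀ N, IsIntegral ℤ (z N) := fun N => ⟨_, famF_monic a b _ hd1, hz N⟩
  have hzintQ : ∀ N, IsIntegral ℚ (z N) := fun N => (hzint N).tower_top
  let F : ℕ → {F : IntermediateField ℚ (AlgebraicClosure ℚ) // FiniteDimensional ℚ F} :=
    fun N => ⟨IntermediateField.adjoin ℚ {z N},
      IntermediateField.adjoin.finiteDimensional (hzintQ N)⟩
  have hfd : ∀ N, FiniteDimensional ℚ (F N).1 := fun N => (F N).2
  have hNF : ∀ N, NumberField (F N).1 := fun N => @NumberField.mk _ _ inferInstance (F N).2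
  let x : ∀ N, 𝓞 (F N).1 := fun N =>
    ⟨⟨z N, IntermediateField.mem_adjoin_simple_self ℚ (z N)⟩, by
      have h1 : IsIntegral ℤ (algebraMap (F N).1 (AlgebraicClosure ℚ)
        ⟨z N, IntermediateField.mem_adjoin_simple_self ℚ (z N)⟩) := hzint N
      exact (isIntegral_algebraMap_iff (algebraMap (F N).1 (AlgebraicClosure ℚ)).injective).mp h1⟩
  have hx : ∀ N, aeval (x N) (famF a b (D * (p : ℤ) ^ N)) = 0 := by
    intro N
    have h1 : aeval (z N) (famF a b (D * (p : ℤ) ^ N)) =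
        ((algebraMap (F N).1 (AlgebraicClosure ℚ)).comp (algebraMap (𝓞 (F N).1) (F N).1))
          (aeval (x N) (famF a b (D * (p : ℤ) ^ N))) :=
      aeval_algHom_apply (((algebraMap (F N).1 (AlgebraicClosure ℚ)).comp
        (algebraMap (𝓞 (F N).1) (F N).1)).toIntAlgHom) (x N) _
    rw [hz N] at h1
    have h2 : Function.Injective ((algebraMap (F N).1 (AlgebraicClosure ℚ)).comp
        (algebraMap (𝓞 (F N).1) (F N).1)) :=
      (algebraMap (F N).1 (AlgebraicClosure ℚ)).injective.comp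
        (FaithfulSMul.algebraMap_injective (𝓞 (F N).1) (F N).1)
    exact h2 (by rw [← h1, map_zero])
  have hfinrank : ∀ N, Module.finrank ℚ (F N).1 = r1 + 2 * r2 := by
    intro N
    have hQ0 : D * (p : ℤ) ^ N ≠ 0 := mul_ne_zero hD0 (pow_ne_zero _ hp0)
    have hirr : Irreducible ((famF a b (D * (p : ℤ) ^ N)).map (Int.castRingHom ℚ)) :=
      (IsPrimitive.Int.irreducible_iff_irreducible_map_cast
        (famF_monic a b _ hd1).isPrimitive).mp (famF_irreducible a b _ hQ0 ha hb hd1)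
    have hx' : aeval (z N) ((famF a b (D * (p : ℤ) ^ N)).map (Int.castRingHom ℚ)) = 0 := by
      have h1 : aeval (z N) ((famF a b (D * (p : ℤ) ^ N)).map (algebraMap ℤ ℚ)) =
        aeval (z N) (famF a b (D * (p : ℤ) ^ N)) := aeval_map_algebraMap ℚ (z N) _
      exact h1.trans (hz N)
    have hmin := minpoly.eq_of_irreducible_of_monic hirr hx' ((famF_monic a b _ hd1).map _)
    have h2 : Module.finrank ℚ (F N).1 = (minpoly ℚ (z N)).natDegree :=
      IntermediateField.adjoin.finrank (hzintQ N)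
    rw [h2, ← hmin, (famF_monic a b _ hd1).natDegree_map, famF_natDegree a b _ hd1]
  by_contra hcon
  push Not at hcon
  have hsmall : ∀ N, |discr (F N).1| ≤ (B : ℤ) := fun N =>
    hcon N (F N).1 inferInstance (hNF N) (x N) (hfinrank N) (hx N)
  have hfin := NumberField.finite_of_discr_bdd (AlgebraicClosure ℚ) B
  have hbd : ∀ G : {F : IntermediateField ℚ (AlgebraicClosure ℚ) // FiniteDimensional ℚ F},
      ∃ N0, ∀ N, N0 ≤ N → F N ≠ G := by
    intro G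
    by_contra! hG
    obtain ⟨N1, -, hN1⟩ := hG 0
    subst hN1
    obtain ⟨c, hc⟩ := sleo_family a b (D * (p : ℤ) ^ N1) (x N1)
      (mul_ne_zero hD0 (pow_ne_zero _ hp0)) ha hb (by omega) (hfinrank N1) (hx N1)
      (hD.mul_right _) p hp (hpD.mul_right _)
    obtain ⟨N0, hN0⟩ := no_root_of_large (F N1).1 p c hp hc a b ha hb hr (hfinrank N1) D hD0 hD4
    obtain ⟨N, hN, hNeq⟩ := hG N0
    have htr : ∀ G' : {F : IntermediateField ℚ (AlgebraicClosure ℚ) // FiniteDimensional ℚ F},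
        F N = G' → ∃ x' : 𝓞 G'.1, aeval x' (famF a b (D * (p : ℤ) ^ N)) = 0 := by
      rintro _ rfl
      exact ⟨x N, hx N⟩
    obtain ⟨x', hx'⟩ := htr _ hNeq
    exact hN0 N hN x' hx'
  choose N0 hN0 using hbd
  have hmaps : ∀ N, F N ∈ hfin.toFinset := fun N => by
    rw [Set.Finite.mem_toFinset]
    exact hsmall N
  set M := hfin.toFinset.sup N0 with hM
  exact hN0 (F M) M (Finset.le_sup (hmaps M)) rfl

end Pool.Agent.Work.MP_59f3ad_nt
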